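import Pool.Agent.Y129.Asym

/-!
# A growth argument
-/

open Filter Topology

namespace Pool.Agent.Y133.Chow

open Pool.Agent.Y129

/-- A monotone sequence which is much larger than another one along an arithmetic progression. -/
theorem growth {γ β : ℕ → ℕ} (hβ : ∀ n, 0 < β n) (hmono : Monotone γ) {A n₀ : ℕ}
    (hA1 : 1 ≤ A) (hA : ∀ n ≥ n₀, β (n + 1) ≤ A * β n) {q : ℕ} (hq : 1 ≤ q)
    (h : ∀ k, (k + 1) * β (q * (k + 1) - 1) ≤ γ (q * (k + 2) - 1)) :
    Tendsto (fun n => (γ n : ℝ) / β n) atTop atTop := by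
  have hstep : ∀ j ≥ n₀, ∀ i, β (j + i) ≤ A ^ i * β j := by
    intro j hj i
    induction i with
    | zero => simp
    | succ i ih =>
      calc β (j + (i + 1)) ≤ A * β (j + i) := hA (j + i) (by omega)
        _ ≤ A * (A ^ i * β j) := Nat.mul_le_mul_left _ ih
        _ = A ^ (i + 1) * β j := by ring
  rw [tendsto_atTop]
  intro M
  obtain ⟨K, hK⟩ := exists_nat_ge (M * (A ^ (2 * q) : ℕ))
  rw [eventually_atTop]
  refine ⟨q * (K + 3) + q * (n₀ + 3), fun n hn => ?_⟩
  have hq0 : 0 < q := hq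
  obtain ⟨k, hk⟩ : ∃ k, (n + 1) / q = k + 2 := by
    have h1 : 2 ≤ (n + 1) / q := by
      rw [Nat.le_div_iff_mul_le hq0]
      nlinarith
    exact ⟨(n + 1) / q - 2, by omega⟩
  have h1 : q * (k + 2) ≤ n + 1 := by
    rw [← hk]
    exact Nat.mul_div_le _ _
  have h2 : n + 1 < q * (k + 3) := by
    have h3 := Nat.lt_mul_div_succ (n + 1) hq0
    rw [hk] at h3
    exact h3
  have h4 : K + n₀ + 3 ≤ k + 3 := by
    by_contra hcon
    push Not at hcon
    have h5 : q * (k + 3) ≤ q * (K + n₀ + 3) := Nat.mul_le_mul_left _ hcon.le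
    nlinarith
  set j := q * (k + 1) - 1 with hj
  have hj1 : q * (k + 1) = j + 1 := by
    have : 1 ≤ q * (k + 1) := Nat.mul_pos hq0 (Nat.succ_pos _)
    omega
  have hj2 : q * (k + 3) = j + 1 + 2 * q := by rw [← hj1]; ring
  have hj3 : q * (k + 2) = j + 1 + q := by rw [← hj1]; ring
  have hjn : n₀ ≤ j := by
    have h5 : k + 1 ≤ q * (k + 1) := Nat.le_mul_of_pos_left _ hq0
    omega
  have h5 : β n ≤ A ^ (2 * q) * β j := by
    have h6 : n = j + (n - j) := by omega
    rw [h6]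
    refine (hstep j hjn _).trans (Nat.mul_le_mul_right _ ?_)
    exact Nat.pow_le_pow_right hA1 (by omega)
  have h6 : (k + 1) * β j ≤ γ n := (h k).trans (hmono (by omega))
  have h7 : (0 : ℝ) < β n := by exact_mod_cast hβ n
  rw [le_div_iff₀ h7]
  have h8 : (0 : ℝ) < β j := by exact_mod_cast hβ j
  rcases le_or_gt M 0 with hM | hM
  · have : M * β n ≤ 0 := mul_nonpos_of_nonpos_of_nonneg hM h7.le
    exact this.trans (Nat.cast_nonneg _)
  · calc M * β n ≤ M * ((A ^ (2 * q) : ℕ) * β j) := by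
          apply mul_le_mul_of_nonneg_left _ hM.le
          exact_mod_cast h5
      _ = (M * (A ^ (2 * q) : ℕ)) * β j := by ring
      _ ≤ K * β j := mul_le_mul_of_nonneg_right hK h8.le
      _ ≤ (k + 1 : ℕ) * β j := by
          apply mul_le_mul_of_nonneg_right _ h8.le
          exact_mod_cast (by omega : K ≤ k + 1)
      _ ≤ γ n := by exact_mod_cast h6

variable {K : Type*} [Field K] {H : ℕ → Type*} [∀ n, AddCommGroup (H n)]
  [∀ n, Module K (H n)] {C : ∀ m n, Submodule K (H m →ₗ[K] H n)} [∀ n, Module.Finite K (H n)]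
  [IsAlgClosed K] [CharZero K] {β : ℕ → ℕ} {b : ℕ}

/-- The numerical ranks have bounded quotients. -/
lemma quot_bounded (h : IsPowers C β b) : ∃ n₀ : ℕ, ∀ n ≥ n₀, β (n + 1) ≤ (b + 1) * β n := by
  have h0 := h.tendsto_cmp 0
  have h1 := (h.tendsto_cmp 1).div h0 (by simp)
  rw [pow_zero, pow_one, div_one] at h1
  have h2 := h1.eventually (gt_mem_nhds (show (b : ℝ) < b + 1 by linarith))
  have h3 := h0.eventually (lt_mem_nhds (show (1 / 2 : ℝ) < (b : ℝ) ^ 0 by norm_num))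
  obtain ⟨n₀, hn₀⟩ := eventually_atTop.1 (h2.and h3)
  refine ⟨n₀ + 1, fun n hn => ?_⟩
  obtain ⟨m, rfl⟩ : ∃ m, n = m + 1 := ⟨n - 1, by omega⟩
  obtain ⟨h4, h5⟩ := hn₀ m (by omega)
  have hc : (0 : ℝ) < cmp β b m := by exact_mod_cast h.cmp_pos m
  have hb : (0 : ℝ) < β (m + 1) := by
    rw [add_zero, lt_div_iff₀ hc] at h5
    have : (0 : ℝ) < 1 / 2 * cmp β b m := by positivity
    linarith
  simp only [Pi.div_apply, add_zero] at h4
  rw [div_div_div_cancel_right₀ hc.ne', div_lt_iff₀ hb] at h4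
  exact_mod_cast h4.le

end Pool.Agent.Y133.Chow
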