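import Pool.Agent.Y133.Chow.Iso
import Pool.Agent.Y133.Chow.Growth

/-!
# The index law for Chow groups
-/

set_option linter.unusedSectionVars false

open CategoryTheory AlgebraicGeometry TensorProduct Filter Topology

open scoped ENNReal

universe u v w

namespace Pool.Agent.Y133.Chow

open Pool.Agent.H914 Pool.Agent.H914.VarClass Pool.Agent.H914.VarClass.Obj
  Pool.Agent.H914.WeilCohomology Pool.Agent.W492.BB Pool.Agent.Y129 Pool.Agent.TH133
  Pool.Agent.H281R3.HT
open Pool.Agent.W550.Corr (dg comp_eq_extR comp_dg dg_comp comp_assoc compL compL_apply HasIso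
  push_model)

variable {k : Type u} [Field k] {𝒱 : VarClass k} {ops : CycleOps 𝒱}
  {W : WeilCohomology.{u, v} ops} {C : TheoryData.{u, w, 0} 𝒱 ℚ} [hC : IsChowProj C]
  (c : ClassMap W C) {X Y Z V : 𝒱.Obj}

section closed

variable [IsAlgClosed W.K] [Nontrivial (W.H X)] [∀ n, Module.Finite ℚ (C.A (pw X n))]

/-- A numerically trivial correspondence which is not nilpotent. -/
theorem infinite_of_not_nil (hS : GoodSet W (powSet X)) (hβ : ∀ n, 0 < numRank W (pw X n))
    (hZ : Z ∈ powSet X) {f : Cor C Z} (hf : (f : C.A (Z.prod Z)) ∈ numSub c (Z.prod Z))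
    (hf' : ¬ IsNilpotent f) :
    Tendsto (fun n => (Module.finrank ℚ (C.A (pw X n)) : ℝ) / numRank W (pw X n)) atTop
      atTop := by
  have hfin : ∀ {Y : 𝒱.Obj}, Y ∈ powSet X → Module.Finite ℚ (C.A Y) := fun h => finite_powSet h
  have hfc : Module.Finite ℚ (Cor C Z) := hfin (prod_mem_powSet hZ hZ)
  obtain ⟨e, y, he, he0, hey⟩ := exists_idem_mul hf'
  have hn : (e : C.A (Z.prod Z)) ∈ numSub c (Z.prod Z) := by
    rw [hey]
    exact numSub_comp' _ hf
  obtain ⟨m, ⟨i⟩⟩ := hZ
  have hX : X ∈ powSet X := pw_mem_powSet X 0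
  obtain ⟨n₀, hn₀⟩ := quot_bounded (isPowers hS hX)
  have hiso : ∀ k, Nonempty ((pw Z k).prod (pw Z k) ≅ pw X (2 * (m + 1) * (k + 1) - 1)) := by
    intro k
    obtain ⟨j⟩ := pw_pw_iso i k
    obtain ⟨e⟩ := prod_iso_pw j j
    have h1 : 1 ≤ (m + 1) * (k + 1) := Nat.mul_pos (Nat.succ_pos _) (Nat.succ_pos _)
    have h2 : (m + 1) * (k + 1) - 1 + ((m + 1) * (k + 1) - 1) + 1 =
        2 * (m + 1) * (k + 1) - 1 := by
      have h3 : 2 * (m + 1) * (k + 1) = 2 * ((m + 1) * (k + 1)) := by ring
      omega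
    rw [h2] at e
    exact ⟨e⟩
  have hZ' : Z ∈ powSet X := ⟨m, ⟨i⟩⟩
  refine growth (γ := fun n => Module.finrank ℚ (C.A (pw X n))) hβ
    (monotone_nat_of_le_succ fun n => finrank_mono_pw n) (A := Module.finrank W.K (W.H X) + 1)
    (n₀ := n₀) (by omega) hn₀ (q := 2 * (m + 1)) (by omega) ?_
  intro k
  obtain ⟨i1⟩ := hiso k
  obtain ⟨i2⟩ := hiso (k + 1)
  have hP := prod_mem_powSet (pw_mem_powSet' hZ' k) (pw_mem_powSet' hZ' k)
  have hP' := prod_mem_powSet (pw_mem_powSet' hZ' (k + 1)) (pw_mem_powSet' hZ' (k + 1))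
  have h1 : Nontrivial (W.H ((pw Z k).prod (pw Z k))) := nontrivial_powSet hP
  have h2 := hfin hP
  have h3 := hfin hP'
  have h4 := mul_le_finrank (c := c) he he0 hn k
  rw [numRank_iso i1, finrank_iso i2] at h4
  exact h4

/-- The law if the numerically trivial correspondences are nilpotent. -/
theorem law_of_nil (hS : GoodSet W (powSet X)) (hnil : ∀ Z ∈ powSet X, ∀ f : Cor C Z,
      (f : C.A (Z.prod Z)) ∈ numSub c (Z.prod Z) → IsNilpotent f) :
    Tendsto (fun n => (Module.finrank ℚ (C.A (pw X n)) : ℝ) / numRank W (pw X n)) atTop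
      atTop ∨ ∃ N : ℕ, 1 ≤ N ∧
    Tendsto (fun n => (Module.finrank ℚ (C.A (pw X n)) : ℝ) / numRank W (pw X n)) atTop
      (𝓝 (N : ℝ)) ∧ (N = 1 → ∀ n, ∀ x ∈ numSub c (pw X n), x = 0) ∧
      ∀ r, N ≤ r + 1 → ∀ n, ∀ x ∈ numSub c (pw X n), extPow C x r = 0 := by
  have hN : Nil c X := fun n f hf => hnil _ (pw_mem_powSet X n) f hf
  have hX : X ∈ powSet X := pw_mem_powSet X 0
  rcases chow_law c hS hX hN (G := fun _ => ⊤) top_stable with ⟨N, -, h1⟩ | h1
  · right
    have h1' : Tendsto (fun n => (Module.finrank ℚ (C.A (pw X n)) : ℝ) / numRank W (pw X n))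
        atTop (𝓝 (N : ℝ)) := by
      simp only [finrank_top] at h1
      exact h1
    obtain ⟨z, hz⟩ := exists_point c (X := X)
    refine ⟨N, ?_, h1', ?_, ?_⟩
    · have h2 := one_le_idx c hS hX hN (G := fun _ => ⊤) top_stable (m := 0) (fun h0 => by
        have h3 : (z : C.A (pw X 0)) ∈ (⊤ : Submodule ℚ (C.A (pw X 0))) := trivial
        rw [h0] at h3
        have h4 : z = 0 := (Submodule.mem_bot ℚ).1 h3
        rw [h4, map_zero, map_zero] at hz
        exact zero_ne_one hz) h1
      exact_mod_cast h2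
    · intro hN1 n x hx
      by_contra hx0
      have hst : ChowStable C X (fun n => numSub c (pw X n)) := fun m n Γ x hx => numSub_act Γ hx
      obtain ⟨N', h2, -⟩ := exists_idx c hS hX hN h1 hst
      have h3 := one_le_idx c hS hX hN hst (m := n) (fun h0 => by
        have hx' : x ∈ numSub c (pw X n) := hx
        rw [h0, Submodule.mem_bot] at hx'
        exact hx0 hx') h2
      have h4 := chow_gap c hS hX hN hst top_stable (fun _ => le_top) (m := 0) (fun h0 => by
        have h5 : (1 : C.A X) ∈ numSub c (pw X 0) := by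
          have h6 : (1 : C.A (pw X 0)) ∈ (⊤ : Submodule ℚ (C.A (pw X 0))) := trivial
          rw [← h0] at h6
          exact h6
        have h7 : W.tr X (c.cl X 1 * c.cl X z) = 0 := h5 z
        rw [map_one, one_mul] at h7
        exact one_ne_zero (hz.symm.trans h7)) h2 h1
      rw [hN1] at h4
      push_cast at h4
      linarith
    · intro r hr n x hx
      have hY := pw_mem_powSet X n
      have : Nontrivial (W.H (pw X n)) := nontrivial_pw n
      have hfin : ∀ l, Module.Finite ℚ (C.A (pw (pw X n) l)) := fun l =>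
        finite_powSet (pw_mem_powSet' hY l)
      refine extPow_eq_zero c hS hY (fun l f hf => hnil _ (pw_mem_powSet' hY l) f hf) ?_ hx hr
      have h2 : Tendsto (fun l => (n + 1) * (l + 1) - 1) atTop atTop := by
        rw [tendsto_atTop]
        intro A
        filter_upwards [eventually_ge_atTop A] with l hl
        have h3 : l + 1 ≤ (n + 1) * (l + 1) := Nat.le_mul_of_pos_left _ (Nat.succ_pos _)
        omega
      refine (h1'.comp h2).congr fun l => ?_
      obtain ⟨j⟩ := pw_pw_iso (Iso.refl (pw X n)) l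
      simp only [Function.comp_apply]
      rw [finrank_top, finrank_iso j, numRank_iso j]
  · left
    simp only [finrank_top] at h1
    exact h1

end closed

/-- The law in terms of real numbers. -/
theorem law_real [Nontrivial (W.H X)] [∀ n, Module.Finite ℚ (C.A (pw X n))] :
    Tendsto (fun n => (Module.finrank ℚ (C.A (pw X n)) : ℝ) / numRank W (pw X n)) atTop
      atTop ∨ ∃ N : ℕ, 1 ≤ N ∧
    Tendsto (fun n => (Module.finrank ℚ (C.A (pw X n)) : ℝ) / numRank W (pw X n)) atTop
      (𝓝 (N : ℝ)) ∧ (N = 1 → ∀ n, ∀ x ∈ numSub c (pw X n), x = 0) ∧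
      ∀ r, N ≤ r + 1 → ∀ n, ∀ x ∈ numSub c (pw X n), extPow C x r = 0 := by
  obtain ⟨z, hz⟩ := exists_point c (X := X)
  rcases full_or_infinite (c.cl_mem_algSpan z) hz with hF | hF
  · have hcl : IsAlgClosed (baseW W (AlgebraicClosure W.K)).K :=
      (inferInstance : IsAlgClosed (AlgebraicClosure W.K))
    have hnt : Nontrivial ((baseW W (AlgebraicClosure W.K)).H X) := nontrivial_base _
    have hF' : GoodSet (baseW W (AlgebraicClosure W.K)) (powSet X) := hF
    by_cases hnil : ∀ Z ∈ powSet X, ∀ f : Cor C Z,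
      (f : C.A (Z.prod Z)) ∈ numSub (c.base (AlgebraicClosure W.K)) (Z.prod Z) → IsNilpotent f
    · have h1 := law_of_nil (c.base (AlgebraicClosure W.K)) hF' hnil
      simp only [numRank_base, numSub_base] at h1
      exact h1
    · left
      push Not at hnil
      obtain ⟨Z, hZ, f, hf, hf'⟩ := hnil
      have h1 := infinite_of_not_nil (c.base (AlgebraicClosure W.K)) hF' (fun n => by
        rw [numRank_base]
        obtain ⟨w, hw, hw1⟩ := exists_pt_pw (c.cl_mem_algSpan z) hz n
        exact numRank_pos_of hw hw1) hZ hf hf'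
      simp only [numRank_base] at h1
      exact h1
  · left
    refine tendsto_atTop_mono (fun n => ?_) (hF (fun n => algSpan W (pw X n)) fun n => le_rfl)
    apply div_le_div_of_nonneg_right _ (Nat.cast_nonneg _)
    exact_mod_cast finrank_algSpan_le c

end Pool.Agent.Y133.Chow
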