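import Pool.Agent.Y133.Chow.Main

/-!
# The index law for Chow groups in terms of dimensions in `ℕ ∪ {∞}`
-/

set_option linter.unusedSectionVars false

open CategoryTheory AlgebraicGeometry TensorProduct Filter Topology

open scoped ENNReal

universe u v w

namespace Pool.Agent.Y133.Chow

open Pool.Agent.H914 Pool.Agent.H914.VarClass Pool.Agent.H914.VarClass.Obj
  Pool.Agent.H914.WeilCohomology Pool.Agent.W492.BB Pool.Agent.Y129 Pool.Agent.TH133
  Pool.Agent.H281R3.HT


variable {k : Type u} [Field k] {𝒱 : VarClass k} {ops : CycleOps 𝒱}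
  {W : WeilCohomology.{u, v} ops} {C : TheoryData.{u, w, 0} 𝒱 ℚ} [hC : IsChowProj C]
  (c : ClassMap W C) {X Y Z V : 𝒱.Obj}

lemma cycRank_eq (W : WeilCohomology.{u, v} ops) (Y : 𝒱.Obj) : Half.cycRank ops Y = numRank W Y := by
  rw [Half.cycRank, numRank_eq_sum W Y]

lemma chowDim_finite (C : TheoryData.{u, w, 0} 𝒱 ℚ) (Y : 𝒱.Obj) [Module.Finite ℚ (C.A Y)] :
    chowDim C Y = (Module.finrank ℚ (C.A Y) : ℕ∞) := by
  rw [chowDim, rankOf, ← Module.finrank_eq_rank, Cardinal.toENat_nat]

lemma chowDim_infinite (C : TheoryData.{u, w, 0} 𝒱 ℚ) (Y : 𝒱.Obj)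
    (h : ¬ Module.Finite ℚ (C.A Y)) : chowDim C Y = ⊤ := by
  rw [chowDim, rankOf, Cardinal.toENat_eq_top]
  by_contra h1
  push Not at h1
  exact h (Module.rank_lt_aleph0_iff.1 h1)

include c in
lemma numRank_pos [Nontrivial (W.H X)] (n : ℕ) : 0 < numRank W (pw X n) := by
  obtain ⟨z, hz⟩ := exists_point c (X := X)
  obtain ⟨w, hw, hw1⟩ := exists_pt_pw (c.cl_mem_algSpan z) hz n
  exact numRank_pos_of hw hw1

/-- If rational equivalence is numerical equivalence on the powers of `X` then the dimensions are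
the numerical ranks. -/
lemma chowDim_of_zero [Nontrivial (W.H X)] (h : NumTrivialZero c X) (n : ℕ) :
    chowDim C (pw X n) = (Half.cycRank ops (pw X n) : ℕ∞) := by
  have h0 : Nontrivial (W.H (pw X n)) := nontrivial_pw n
  have h1 : numSub c (pw X n) = ⊥ := by
    rw [eq_bot_iff]
    intro x hx
    exact (Submodule.mem_bot ℚ).2 (h n x hx)
  have h2 := finite_quot c (X := pw X n)
  have e := Submodule.quotEquivOfEqBot _ h1
  have h3 : Module.Finite ℚ (C.A (pw X n)) := Module.Finite.equiv e
  rw [chowDim_finite, cycRank_eq W, numRank_eq c, e.finrank_eq]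

/-- **The index law for Chow groups.** -/
theorem index_law [Nontrivial (W.H X)] : ∃ N : ℕ∞, 1 ≤ N ∧ HasChowIndex ops C X N ∧
    (N = 1 ↔ NumTrivialZero c X) ∧ SmashNilpotent c X N := by
  have hpos : ∀ n, 0 < numRank W (pw X n) := numRank_pos c
  have hone : NumTrivialZero c X → HasChowIndex ops C X 1 := by
    intro h
    rw [HasChowIndex, ENat.toENNReal_one]
    refine tendsto_const_nhds.congr fun n => ?_
    rw [chowDim_of_zero c h n, ENat.toENNReal_coe, cycRank_eq W]
    refine (ENNReal.div_self ?_ (ENNReal.natCast_ne_top _)).symm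
    exact_mod_cast (hpos n).ne'
  have huniq : ∀ {M N : ℕ∞}, HasChowIndex ops C X M → HasChowIndex ops C X N → M = N := by
    intro M N h1 h2
    exact ENat.toENNReal_inj.1 (tendsto_nhds_unique h1 h2)
  have htop : HasChowIndex ops C X ⊤ → ∃ N : ℕ∞, 1 ≤ N ∧ HasChowIndex ops C X N ∧
      (N = 1 ↔ NumTrivialZero c X) ∧ SmashNilpotent c X N := by
    intro h
    refine ⟨⊤, le_top, h, ⟨fun h1 => (ENat.top_ne_one h1).elim, fun h1 => huniq h (hone h1)⟩, ?_⟩
    intro r hr
    exact absurd hr (by simp)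
  by_cases hfin : ∀ n, Module.Finite ℚ (C.A (pw X n))
  · have hdiv : ∀ n, ENNReal.ofReal ((Module.finrank ℚ (C.A (pw X n)) : ℝ) /
        numRank W (pw X n)) = (chowDim C (pw X n) : ℝ≥0∞) / Half.cycRank ops (pw X n) := by
      intro n
      rw [ratio_ofReal (hpos n), chowDim_finite, cycRank_eq W, ENat.toENNReal_coe]
    rcases law_real c (X := X) with h1 | ⟨N, hN, h1, h2, h3⟩
    · apply htop
      have h3 := (ENNReal.tendsto_ofReal_atTop.comp h1).congr hdiv
      rw [HasChowIndex, ENat.toENNReal_top]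
      exact h3
    · have h4 : HasChowIndex ops C X N := by
        have h5 := (ENNReal.tendsto_ofReal h1).congr hdiv
        rw [HasChowIndex, ENat.toENNReal_coe]
        rwa [ENNReal.ofReal_natCast] at h5
      refine ⟨N, by exact_mod_cast hN, h4, ⟨fun h5 n x hx => ?_, fun h5 => huniq h4 (hone h5)⟩, ?_⟩
      · exact h2 (by exact_mod_cast h5) n x hx
      · intro r hr n x hx
        exact h3 r (by exact_mod_cast hr) n x hx
  · apply htop
    push Not at hfin
    obtain ⟨n₀, hn₀⟩ := hfin
    have h1 : ∀ n, n₀ ≤ n → ¬ Module.Finite ℚ (C.A (pw X n)) := by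
      intro n hn
      induction n, hn using Nat.le_induction with
      | base => exact hn₀
      | succ n _ ih => exact not_finite_succ ih
    rw [HasChowIndex, ENat.toENNReal_top]
    refine tendsto_const_nhds.congr' ?_
    filter_upwards [eventually_ge_atTop n₀] with n hn
    rw [chowDim_infinite C _ (h1 n hn), ENat.toENNReal_top,
      ENNReal.top_div_of_ne_top (ENNReal.natCast_ne_top _)]

end Pool.Agent.Y133.Chow
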