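import Pool.Agent.Y133.Chow.Defs

/-!
# The conjectures of Tate and Beilinson over a finite field: definitions
-/

open CategoryTheory AlgebraicGeometry Filter Topology

open scoped ENNReal

universe u v w

namespace Pool.Agent.Y133.Chow

open Pool.Agent.H914

section Alg

variable {K A B : Type*} [Field K] [Ring A] [Algebra ℚ A] [Ring B] [Algebra K B]

/-- The endomorphism `F` multiplies the elements of `V` by `t`. -/
def ScalarOn (V : Submodule ℚ A) (F : A →ₐ[ℚ] A) (t : ℚ) : Prop := ∀ x ∈ V, F x = t • x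

/-- The element `t` is not an eigenvalue of `F` on `V`. -/
def NoEigenvalue (V : Submodule K B) (F : B →ₐ[K] B) (t : K) : Prop := ∀ x ∈ V, F x = t • x → x = 0

/-- The endomorphism `F` multiplies the linear form `tr` by `t`. -/
def Scales (tr : B →ₗ[K] K) (F : B →ₐ[K] B) (t : K) : Prop := ∀ x, tr (F x) = t * tr x

/-- The endomorphism is semisimple. -/
def IsSemisimple (F : B →ₐ[K] B) : Prop := Module.End.IsSemisimple (M := B) F.toLinearMap

/-- The dimension of the space of generalised eigenvectors of `F` in `G` with the eigenvalue `t`. -/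
noncomputable def genDim (G : Submodule K B) (F : B →ₐ[K] B) (t : K) : ℕ :=
  Module.finrank K (Module.End.maxGenEigenspace F.toLinearMap t ⊓ G : Submodule K B)

/-- The dimension of the quotient of `A` by the span of the elements which are orthogonal to all
elements of `A`. -/
noncomputable def quotDim (tr : B →ₗ[K] K) (c : A →+* B) : ℕ :=
  Module.finrank ℚ (A ⧸ Submodule.span ℚ {x | Orth tr c x})

/-- The map `K ⊗ V → G^{F = t}` given by `c` is bijective: elements of `V` which are linearly
independent over `ℚ` have values which are linearly independent over `K`, and all eigenvectors in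
`G` with the eigenvalue `t` are linear combinations of values of elements of `V`. -/
def BijectiveOn (c : A →+* B) (V : Submodule ℚ A) (G : Submodule K B) (F : B →ₐ[K] B) (t : K) :
    Prop :=
  (∀ (n : ℕ) (x : Fin n → A), (∀ i, x i ∈ V) → LinearIndependent ℚ x →
    LinearIndependent K fun i => c (x i)) ∧
  ∀ x ∈ G, F x = t • x → x ∈ Submodule.span K (c '' V)

/-- The eigenvalue `t` of `F` on `G` is semisimple: elements of `G` killed by `(F - t) ^ 2` are killed
by `F - t`. -/
def SemisimpleAt (G : Submodule K B) (F : B →ₐ[K] B) (t : K) : Prop :=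
  ∀ x ∈ G, F (F x - t • x) = t • (F x - t • x) → F x = t • x

end Alg

/-- The quotients `b(n) / a(n)` converge to `N`. -/
def RatioTendsTo (b : ℕ → ℕ∞) (a : ℕ → ℕ) (N : ℕ∞) : Prop :=
  Tendsto (fun n => (b n : ℝ≥0∞) / a n) atTop (𝓝 (N : ℝ≥0∞))

open Pool.Agent.H914.VarClass Pool.Agent.H914.VarClass.Obj
  Pool.Agent.H914.WeilCohomology Pool.Agent.W492.BB
open Pool.Agent.Y129 (pw)

variable {k : Type u} [Field k] {𝒱 : VarClass k} {ops : CycleOps 𝒱}

/-- The endomorphisms `φ X` are the Frobenius endomorphisms for a base field with `q` elements: they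
commute with all morphisms and multiply the traces by `q ^ dim X`, the pull-back on `C^p(X)` is the
multiplication by `q ^ p`, and `q ^ j` is not an eigenvalue on the cohomology of degree `i ≠ 2 j`
(the Weil conjectures). -/
structure IsFrobenius (φ : ∀ X : 𝒱.Obj, X ⟶ X) (q : ℕ) (W : WeilCohomology.{u, v} ops)
    (C : TheoryData.{u, w, 0} 𝒱 ℚ) : Prop where
  pos : 0 < q
  nat : ∀ {X Y : 𝒱.Obj} (f : X ⟶ Y), φ X ≫ f = f ≫ φ Y
  tr : ∀ X : 𝒱.Obj, Scales (W.tr X) (W.map (φ X)) (q ^ X.dim)
  chow : ∀ (X : 𝒱.Obj) (p : ℕ), ScalarOn (C.gr X p) (C.pull (φ X)) (q ^ p)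
  weight : ∀ (X : 𝒱.Obj) (i j : ℕ), i ≠ 2 * j → NoEigenvalue (W.gr X i) (W.map (φ X)) (q ^ j)

/-- The sum over `j` of the multiplicities of the eigenvalue `q ^ j` of Frobenius on the cohomology
of degree `2 j`: the sum of the orders of the poles of the zeta function of `X`. -/
noncomputable def poleSum (φ : ∀ X : 𝒱.Obj, X ⟶ X) (q : ℕ) (W : WeilCohomology.{u, v} ops)
    (X : 𝒱.Obj) : ℕ :=
  ∑ j ∈ Finset.range (X.dim + 1), genDim (W.gr X (2 * j)) (W.map (φ X)) (q ^ j)

variable {W : WeilCohomology.{u, v} ops} {C : TheoryData.{u, w, 0} 𝒱 ℚ}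

/-- The dimension of the space of cycles on `X` modulo numerical equivalence. -/
noncomputable def numDim (c : ClassMap W C) (X : 𝒱.Obj) : ℕ := quotDim (W.tr X) (c.cl X)

/-- The cycle map from `K ⊗ C^j(X)` to the space of the classes of degree `2 j` on which Frobenius
is `q ^ j` is bijective. -/
def CycleMapBijective (φ : ∀ X : 𝒱.Obj, X ⟶ X) (q : ℕ) (c : ClassMap W C) (X : 𝒱.Obj) (j : ℕ) :
    Prop :=
  BijectiveOn (c.cl X) (C.gr X j) (W.gr X (2 * j)) (W.map (φ X)) (q ^ j)

/-- The cycle map in codimension `j` is bijective and the eigenvalue `q ^ j` of Frobenius on the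
cohomology of degree `2 j` is semisimple. -/
def Beilinson (φ : ∀ X : 𝒱.Obj, X ⟶ X) (q : ℕ) (c : ClassMap W C) (X : 𝒱.Obj) (j : ℕ) : Prop :=
  CycleMapBijective φ q c X j ∧ SemisimpleAt (W.gr X (2 * j)) (W.map (φ X)) (q ^ j)

end Pool.Agent.Y133.Chow
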