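import Pool.Agent.Y133.Chow.Perfect
import Pool.Agent.Y133.Chow.FDefs
import Pool.Agent.Y133.Half.Crys
import Pool.Agent.Y133.Half.HodgeSys

/-!
# Frobenius on cohomology and Chow groups
-/

set_option linter.unusedSectionVars false

open CategoryTheory AlgebraicGeometry TensorProduct Filter Topology

open scoped ENNReal

universe u v w

namespace Pool.Agent.Y133.Chow

open Pool.Agent.H914

/-- The map `K ⊗ V → B` given by `c` is injective. -/
def InjectiveOn (K : Type*) {A B : Type*} [Field K] [Ring A] [Algebra ℚ A] [Ring B] [Algebra K B]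
    (c : A →+* B) (V : Submodule ℚ A) : Prop :=
  ∀ (n : ℕ) (x : Fin n → A), (∀ i, x i ∈ V) → LinearIndependent ℚ x →
    LinearIndependent K fun i => c (x i)

open Pool.Agent.H914.VarClass Pool.Agent.H914.VarClass.Obj
  Pool.Agent.H914.WeilCohomology Pool.Agent.W492.BB Pool.Agent.Y129 Pool.Agent.TH133
  Pool.Agent.H281R3.HT Pool.Agent.W536.RR
open Pool.Agent.Y133.Crys (Frobenii Acts frob Tate TateClass poleOrder Fl)

variable {k : Type u} [Field k] {𝒱 : VarClass k} {ops : CycleOps 𝒱}

/-- Frobenius on the Chow groups and the cohomology. -/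
structure ChowActs (φ : Frobenii 𝒱) (q : ℕ) (W : WeilCohomology.{u, v} ops)
    (C : TheoryData.{u, w, 0} 𝒱 ℚ) : Prop where
  acts : Acts φ q W
  weight : ∀ (X : 𝒱.Obj) (i j : ℕ), i ≠ 2 * j → NoEigenvalue (W.gr X i) (frob φ W X) (q ^ j)
  chow : ∀ (X : 𝒱.Obj) (p : ℕ), ScalarOn (C.gr X p) (C.pull (φ.Fr X)) (q ^ p)

variable {W : WeilCohomology.{u, v} ops} {C : TheoryData.{u, w, 0} 𝒱 ℚ} [hC : IsChowProj C]
  (c : ClassMap W C) {φ : ∀ X : 𝒱.Obj, X ⟶ X} {q : ℕ} {X : 𝒱.Obj}

omit hC in
/-- The family of the Frobenius endomorphisms. -/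
def IsFrobenius.fam (h : IsFrobenius φ q W C) : Frobenii 𝒱 where
  Fr := φ
  nat := h.nat

include c in
/-- The Frobenius endomorphisms multiply the classes of cycles by powers of `q`. -/
lemma IsFrobenius.chowActs (h : IsFrobenius φ q W C) : ChowActs h.fam q W C where
  acts :=
    { pos := h.pos
      cyc := by
        intro X j z hz
        obtain ⟨x, hx, hxz⟩ := c.exists_elt hz
        refine ⟨W.cl_mem hz, ?_⟩
        have h1 := c.pull (φ X) x
        rw [h.chow X j x hx, c.cl_smul] at h1
        rw [← hxz]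
        change W.map (φ X) (c.cl X x) = _
        rw [← h1]
        push_cast
        rfl
      tr := fun X a => h.tr X a }
  weight := h.weight
  chow := h.chow

omit hC in
lemma poleSum_eq (h : IsFrobenius φ q W C) (X : 𝒱.Obj) :
    poleSum φ q W X = poleOrder h.fam q W X := by
  refine Finset.sum_congr rfl fun j _ => ?_
  exact (Crys.mult_eq (φ := h.fam) (q := q) (W := W) X j).symm

lemma span_orth (X : 𝒱.Obj) : Submodule.span ℚ {x | Orth (W.tr X) (c.cl X) x} = numSub c X := by
  apply le_antisymm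
  · rw [Submodule.span_le]
    intro x hx
    exact hx
  · intro x hx
    exact Submodule.subset_span hx

lemma numDim_eq [Nontrivial (W.H X)] : numDim c X = Half.cycRank ops X := by
  rw [numDim, quotDim, span_orth, cycRank_eq W, numRank_eq c]

lemma ratio_iff [Nontrivial (W.H X)] {b : ℕ → ℕ∞} {N : ℕ∞} :
    RatioTendsTo b (fun n => numDim c (pw X n)) N ↔
      Tendsto (fun n => (b n : ℝ≥0∞) / Half.cycRank ops (pw X n)) atTop (𝓝 (N : ℝ≥0∞)) := by
  have h1 : ∀ n, numDim c (pw X n) = Half.cycRank ops (pw X n) := by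
    intro n
    have : Nontrivial (W.H (pw X n)) := nontrivial_pw n
    exact numDim_eq c
  simp only [RatioTendsTo, h1]

end Pool.Agent.Y133.Chow
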