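import Pool.Agent.Y133.Chow.HDefs
import Pool.Agent.Y133.Chow.FBase

/-!
# The index of homologically trivial cycles
-/

set_option linter.unusedSectionVars false

open CategoryTheory AlgebraicGeometry TensorProduct Filter Topology

open scoped ENNReal

universe u v w

namespace Pool.Agent.Y133.Chow

open Pool.Agent.H914 Pool.Agent.H914.VarClass Pool.Agent.H914.VarClass.Obj
  Pool.Agent.H914.WeilCohomology Pool.Agent.W492.BB Pool.Agent.Y129 Pool.Agent.TH133
  Pool.Agent.H281R3.HT Pool.Agent.W536.RR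

variable {k : Type u} [Field k] {𝒱 : VarClass k} {ops : CycleOps 𝒱}
  {W : WeilCohomology.{u, v} ops} {C : TheoryData.{u, w, 0} 𝒱 ℚ} [hC : IsChowProj C]
  (c : ClassMap W C) {X Y Z : 𝒱.Obj}

omit hC in
lemma numTrivial_of_hom {x : C.A Y} (hx : HomTrivial c Y x) : NumTrivial c Y x := by
  intro y
  have h1 : c.cl Y x = 0 := hx
  rw [h1, zero_mul, map_zero]

lemma span_ker (hD : ∀ x, NumTrivial c Y x → HomTrivial c Y x) :
    Submodule.span ℚ {x | c.cl Y x = 0} = numSub c Y := by
  apply le_antisymm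
  · rw [Submodule.span_le]
    intro x hx
    exact numTrivial_of_hom c hx
  · intro x hx
    exact Submodule.subset_span (hD x hx)

/-- The dimension of the Chow groups is the sum of the dimension of the homologically trivial
elements and of the dimension of the cycles modulo numerical equivalence. -/
lemma chowDim_eq [Nontrivial (W.H Y)] (hD : ∀ x, NumTrivial c Y x → HomTrivial c Y x) :
    chowDim C Y = homDim c Y + numDim c Y := by
  have h1 := Submodule.rank_quotient_add_rank (numSub c Y)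
  have h2 := finite_quot c (X := Y)
  have h3 := congrArg Cardinal.toENat h1
  rw [map_add, ← Module.finrank_eq_rank, Cardinal.toENat_nat] at h3
  rw [chowDim, rankOf, homDim, kerDim, span_ker c hD, numDim, quotDim, span_orth, ← h3, add_comm]

/-- **The index of homologically trivial cycles.** -/
theorem hom_index (X : 𝒱.Obj) [Nontrivial (W.H X)] : ∃ N : ℕ∞, 1 ≤ N ∧
    RatioTendsTo (fun n => chowDim C (pw X n)) (fun n => numDim c (pw X n)) N ∧
    (N = 1 ↔ HomIsNum c X ∧ ∀ n x, HomTrivial c (pw X n) x → x = 0) ∧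
    (HomIsNum c X →
      RatioTendsTo (fun n => homDim c (pw X n)) (fun n => numDim c (pw X n)) (N - 1)) ∧
    ∀ r : ℕ, N ≤ r + 1 → ∀ n x, HomTrivial c (pw X n) x → extPow C x r = 0 := by
  obtain ⟨N, h1, h2, h3, h4⟩ := index_law c (X := X)
  have h2' := (ratio_iff c (b := fun n => chowDim C (pw X n))).2 h2
  refine ⟨N, h1, h2', ⟨fun hN => ⟨fun n x hx => ?_, fun n x hx => ?_⟩, fun ⟨hD, h⟩ => ?_⟩,
    fun hD => ?_, fun r hr n x hx => h4 r hr n x (numTrivial_of_hom c hx)⟩
  · have h5 := h3.1 hN n x hx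
    subst h5
    exact map_zero _
  · exact h3.1 hN n x (numTrivial_of_hom c hx)
  · exact h3.2 fun n x hx => h n x (hD n x hx)
  · have h5 : Tendsto (fun n => (chowDim C (pw X n) : ℝ≥0∞) / numDim c (pw X n) - 1) atTop
        (𝓝 ((N : ℝ≥0∞) - 1)) :=
      ENNReal.Tendsto.sub h2' tendsto_const_nhds (Or.inr ENNReal.one_ne_top)
    have h6 : (((N - 1 : ℕ∞)) : ℝ≥0∞) = (N : ℝ≥0∞) - 1 := by
      rw [ENat.toENNReal_sub, ENat.toENNReal_one]
    rw [RatioTendsTo, h6]
    refine h5.congr fun n => ?_
    have h7 : Nontrivial (W.H (pw X n)) := nontrivial_pw n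
    have h8 : numDim c (pw X n) ≠ 0 := by
      rw [numDim_eq c, cycRank_eq W]
      exact (numRank_pos c n).ne'
    have h9 : ((numDim c (pw X n) : ℕ) : ℝ≥0∞) / numDim c (pw X n) = 1 :=
      ENNReal.div_self (by exact_mod_cast h8) (ENNReal.natCast_ne_top _)
    rw [chowDim_eq c (hD n), ENat.toENNReal_add, ENat.toENNReal_coe, ENNReal.add_div, h9,
      ENNReal.add_sub_cancel_right ENNReal.one_ne_top]

end Pool.Agent.Y133.Chow
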