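import Pool.Agent.Y133.Chow.CaseI

/-!
# Smash nilpotence from a finite index
-/

set_option linter.unusedSectionVars false

open CategoryTheory AlgebraicGeometry TensorProduct Filter Topology

universe u v w

namespace Pool.Agent.Y133.Chow

open Pool.Agent.H914 Pool.Agent.H914.VarClass Pool.Agent.H914.VarClass.Obj
  Pool.Agent.H914.WeilCohomology Pool.Agent.W492.BB Pool.Agent.Y129 Pool.Agent.TH133
  Pool.Agent.H281R3.HT
open Pool.Agent.W550.Corr (dg actB actB_apply act_dg)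

variable {k : Type u} [Field k] {𝒱 : VarClass k} {ops : CycleOps 𝒱}
  {W : WeilCohomology.{u, v} ops} {C : TheoryData.{u, w, 0} 𝒱 ℚ} [hC : IsChowProj C]
  (c : ClassMap W C) {X Y Z : 𝒱.Obj}

/-- The images of an element under all correspondences to the powers of `Y`. -/
noncomputable def gen (C : TheoryData.{u, w, 0} 𝒱 ℚ) (Y : 𝒱.Obj) {Z : 𝒱.Obj} (u : C.A Z)
    (n : ℕ) : Submodule ℚ (C.A (pw Y n)) :=
  LinearMap.range ((actB C (X := Z) (Y := pw Y n)).flip u)

lemma mem_gen {u : C.A Z} {n : ℕ} {x : C.A (pw Y n)} :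
    x ∈ gen C Y u n ↔ ∃ Γ : C.A (Z.prod (pw Y n)), C.act Γ u = x := Iff.rfl

lemma gen_stable (u : C.A Z) : ChowStable C Y (gen C Y u) := by
  rintro m n Γ _ ⟨Δ, rfl⟩
  exact ⟨C.comp Δ Γ, C.act_comp Δ Γ u⟩

lemma gen_le {u : C.A Z} {Z' : 𝒱.Obj} (Δ : C.A (Z.prod Z')) (n : ℕ) :
    gen C Y (C.act Δ u) n ≤ gen C Y u n := by
  rintro _ ⟨Γ, rfl⟩
  exact ⟨C.comp Δ Γ, C.act_comp Δ Γ u⟩

lemma mem_gen_self {n : ℕ} (u : C.A (pw Y n)) : u ∈ gen C Y u n := ⟨dg C _, act_dg C u⟩

lemma top_stable : ChowStable C Y (fun _ => ⊤) := fun _ _ _ _ _ => trivial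

lemma bot_stable : ChowStable C Y (fun _ => ⊥) := by
  intro m n Γ x hx
  rw [Submodule.mem_bot] at hx ⊢
  rw [hx, C.act_map_zero]

/-- A numerically trivial correspondence strictly decreases the generated system. -/
lemma gen_ne (hN : Nil c Y) {n n' : ℕ} {u : C.A (pw Y n)} (hu : u ≠ 0)
    {Δ : C.A ((pw Y n).prod (pw Y n'))} (hΔ : Δ ∈ numSub c _) :
    gen C Y (C.act Δ u) n ≠ gen C Y u n := by
  intro h
  have h1 : u ∈ gen C Y (C.act Δ u) n := by
    rw [h]
    exact mem_gen_self u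
  obtain ⟨Γ, hΓ⟩ := mem_gen.1 h1
  have h2 : C.act (C.comp Δ Γ) u = u := by rw [C.act_comp, hΓ]
  set f : Cor C (pw Y n) := C.comp Δ Γ with hf
  obtain ⟨r, hr⟩ := hN n f (numSub_comp hΔ Γ)
  have h3 : ∀ r : ℕ, actC C (pw Y n) (f ^ r) u = u := by
    intro r
    induction r with
    | zero => rw [pow_zero, map_one]; rfl
    | succ r ih =>
      rw [pow_succ, map_mul, Module.End.mul_apply]
      have h4 : actC C (pw Y n) f u = u := h2
      rw [h4, ih]
  have h4 := h3 r
  rw [hr, map_zero] at h4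
  exact hu h4.symm

variable {S : Set 𝒱.Obj} (hS : GoodSet W S) (hY : Y ∈ S) [Nontrivial (W.H Y)]
  [∀ n, Module.Finite ℚ (C.A (pw Y n))] [IsAlgClosed W.K]

include hS hY

lemma exists_idx (hN : Nil c Y) {N : ℝ}
    (h1 : Tendsto (fun n => (Module.finrank ℚ (⊤ : Submodule ℚ (C.A (pw Y n))) : ℝ) /
      numRank W (pw Y n)) atTop (𝓝 N))
    {G : ∀ n, Submodule ℚ (C.A (pw Y n))} (hG : ChowStable C Y G) :
    ∃ N' : ℕ, Tendsto (fun n => (Module.finrank ℚ (G n) : ℝ) / numRank W (pw Y n)) atTop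
      (𝓝 (N' : ℝ)) ∧ (N' : ℝ) ≤ N := by
  have hle : ∀ n, (Module.finrank ℚ (G n) : ℝ) / numRank W (pw Y n) ≤
      (Module.finrank ℚ (⊤ : Submodule ℚ (C.A (pw Y n))) : ℝ) / numRank W (pw Y n) := by
    intro n
    apply div_le_div_of_nonneg_right _ (Nat.cast_nonneg _)
    exact_mod_cast Submodule.finrank_mono le_top
  rcases chow_law c hS hY hN hG with ⟨N', -, h2⟩ | h2
  · exact ⟨N', h2, le_of_tendsto_of_tendsto' h2 h1 hle⟩
  · exfalso
    exact not_tendsto_nhds_of_tendsto_atTop (tendsto_atTop_mono hle h2) _ h1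

lemma one_le_idx (hN : Nil c Y) {G : ∀ n, Submodule ℚ (C.A (pw Y n))} (hG : ChowStable C Y G)
    {m : ℕ} (hne : G m ≠ ⊥) {N : ℝ}
    (h1 : Tendsto (fun n => (Module.finrank ℚ (G n) : ℝ) / numRank W (pw Y n)) atTop (𝓝 N)) :
    1 ≤ N := by
  have h2 := chow_gap c hS hY hN (G' := fun _ => ⊥) bot_stable hG (fun _ => bot_le) (m := m)
    hne.symm (N' := 0) (N := N) (by simp) h1
  linarith

/-- **Smash nilpotence.** -/
theorem extPow_eq_zero (hN : Nil c Y) {N : ℕ}
    (h1 : Tendsto (fun n => (Module.finrank ℚ (⊤ : Submodule ℚ (C.A (pw Y n))) : ℝ) /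
      numRank W (pw Y n)) atTop (𝓝 (N : ℝ)))
    {z : C.A Y} (hz : z ∈ numSub c Y) {r : ℕ} (hr : N ≤ r + 1) : extPow C z r = 0 := by
  have hmul : ∀ {Z : 𝒱.Obj} {a : C.A Z}, a ∈ numSub c Z → C.mulCorr a ∈ numSub c (Z.prod Z) :=
    fun ha => numSub_push _ ha
  have key : ∀ r : ℕ, extPow C z r ≠ 0 → ∃ N' : ℕ,
      Tendsto (fun n => (Module.finrank ℚ (gen C Y (extPow C z r) n) : ℝ) /
        numRank W (pw Y n)) atTop (𝓝 (N' : ℝ)) ∧ (N' : ℝ) + (r + 1) ≤ N := by
    intro r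
    induction r with
    | zero =>
      intro hne
      have e1 : extPow C z 0 = C.act (C.mulCorr z) (1 : C.A Y) := by
        rw [C.act_mulCorr, mul_one]; rfl
      have h10 : (1 : C.A (pw Y 0)) ≠ 0 := by
        intro h0
        apply hne
        have h0' : (1 : C.A Y) = 0 := h0
        rw [e1, h0', C.act_map_zero]
        rfl
      obtain ⟨N', h2, -⟩ := exists_idx c hS hY hN h1 (gen_stable (Y := Y) (extPow C z 0))
      obtain ⟨N₀, h3, h3'⟩ := exists_idx c hS hY hN h1 (gen_stable (Y := Y) (1 : C.A (pw Y 0)))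
      refine ⟨N', h2, ?_⟩
      rw [e1] at h2
      have h4 := chow_gap c hS hY hN (gen_stable (Y := Y) (C.act (C.mulCorr z) (1 : C.A Y)))
        (gen_stable (Y := Y) (1 : C.A (pw Y 0)))
        (fun n => gen_le (C := C) (Y := Y) (Z' := Y) (C.mulCorr z) n)
        (gen_ne c (n := 0) (n' := 0) hN h10 (hmul hz)) h2 h3
      push_cast
      linarith
    | succ r ih =>
      intro hne
      have hne' : extPow C z r ≠ 0 := by
        intro h0
        apply hne
        change C.ext z (extPow C z r) = 0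
        rw [h0, C.ext_zero_right]
      obtain ⟨N₀, h3, h3'⟩ := ih hne'
      set Δ : C.A ((pw Y r).prod (pw Y (r + 1))) := C.comp (C.cograph (snd Y (pw Y r)))
        (C.mulCorr (C.pull (fst Y (pw Y r)) z)) with hΔ
      have e1 : extPow C z (r + 1) = C.act Δ (extPow C z r) := by
        have e2 := C.act_comp (X := pw Y r) (Y := Y.prod (pw Y r)) (Z := Y.prod (pw Y r))
          (C.cograph (snd Y (pw Y r))) (C.mulCorr (C.pull (fst Y (pw Y r)) z)) (extPow C z r)
        rw [C.act_cograph, C.act_mulCorr] at e2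
        exact e2.symm
      obtain ⟨N', h2, -⟩ := exists_idx c hS hY hN h1
        (gen_stable (Y := Y) (extPow C z (r + 1)))
      refine ⟨N', h2, ?_⟩
      rw [e1] at h2
      have h4 := chow_gap c hS hY hN (gen_stable (Y := Y) (C.act Δ (extPow C z r)))
        (gen_stable (Y := Y) (extPow C z r)) (fun n => gen_le Δ n)
        (gen_ne c hN hne' (numSub_comp' _ (hmul (numSub_pull _ hz)))) h2 h3
      push_cast
      linarith
  by_contra hne
  obtain ⟨N', h2, h3⟩ := key r hne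
  have h4 := one_le_idx c hS hY hN (gen_stable (Y := Y) (extPow C z r)) (m := r) (fun h0 => by
    apply hne
    have h5 := mem_gen_self (Y := Y) (extPow C z r)
    rw [h0, Submodule.mem_bot] at h5
    exact h5) h2
  have h5 : (N : ℝ) ≤ r + 1 := by exact_mod_cast hr
  linarith

end Pool.Agent.Y133.Chow
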