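import Pool.Agent.Y133.Chow.CaseII
import Pool.Agent.Y133.Chow.Smash

/-!
# Isomorphisms, powers of powers, infinite dimensions
-/

set_option linter.unusedSectionVars false

open CategoryTheory AlgebraicGeometry TensorProduct

universe u v w

namespace Pool.Agent.Y133.Chow

open Pool.Agent.H914 Pool.Agent.H914.VarClass Pool.Agent.H914.VarClass.Obj
  Pool.Agent.H914.WeilCohomology Pool.Agent.W492.BB Pool.Agent.Y129 Pool.Agent.TH133
  Pool.Agent.H281R3.HT
open Pool.Agent.W550.Corr (dg comp_eq_extR comp_dg dg_comp comp_assoc compL compL_apply HasIso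
  push_model)

section alg

/-- A nonzero idempotent from an element which is not nilpotent. -/
lemma exists_idem_mul {A : Type*} [Ring A] [Algebra ℚ A] [Module.Finite ℚ A] {f : A}
    (hf : ¬ IsNilpotent f) : ∃ e y : A, e * e = e ∧ e ≠ 0 ∧ e = f * y := by
  have hinj : Function.Injective (Algebra.lmul ℚ A) := by
    intro a b hab
    have h1 := congrArg (fun g : Module.End ℚ A => g 1) hab
    simpa using h1
  obtain ⟨w, r, -, h2, h3, g, hg⟩ := exists_fitting (Algebra.lmul ℚ A f)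
  rw [Polynomial.aeval_algHom_apply] at h2 h3
  rw [← map_mul] at h2
  rw [← map_pow, ← map_mul] at h3
  have h2' := hinj h2
  have h3' : f ^ r * Polynomial.aeval f w = 0 := hinj (by rw [h3, map_zero])
  have h4 : 1 - Polynomial.aeval f w = f * Polynomial.aeval f g := by
    have h5 := congrArg (Polynomial.aeval f) hg
    rw [map_sub, map_one, map_mul, Polynomial.aeval_X] at h5
    exact h5
  refine ⟨1 - Polynomial.aeval f w, Polynomial.aeval f g, ?_, ?_, h4⟩
  · rw [mul_sub, sub_mul, sub_mul, h2']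
    simp
  · intro h0
    apply hf
    rw [sub_eq_zero] at h0
    exact ⟨r, by rw [← h0, mul_one] at h3'; exact h3'⟩

end alg

variable {k : Type u} [Field k] {𝒱 : VarClass k} {ops : CycleOps 𝒱}
  {W : WeilCohomology.{u, v} ops} {C : TheoryData.{u, w, 0} 𝒱 ℚ} [hC : IsChowProj C]
  (c : ClassMap W C) {X Y Z V : 𝒱.Obj}

/-! ### Isomorphisms -/

/-- The isomorphism of Chow groups given by an isomorphism. -/
noncomputable def pullEquiv (C : TheoryData.{u, w, 0} 𝒱 ℚ) [hC : IsChowProj C] (φ : X ≅ Y) :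
    C.A Y ≃ₗ[ℚ] C.A X :=
  LinearEquiv.ofLinearMap (C.pull φ.hom).toLinearMap (C.pull φ.inv).toLinearMap
    (LinearMap.ext fun x => by
      change C.pull φ.hom (C.pull φ.inv x) = x
      rw [← C.pull_comp, φ.hom_inv_id, C.pull_id])
    (LinearMap.ext fun x => by
      change C.pull φ.inv (C.pull φ.hom x) = x
      rw [← C.pull_comp, φ.inv_hom_id, C.pull_id])

lemma finrank_iso (φ : X ≅ Y) : Module.finrank ℚ (C.A X) = Module.finrank ℚ (C.A Y) :=
  (pullEquiv C φ).finrank_eq.symm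

lemma finite_iso (φ : X ≅ Y) [Module.Finite ℚ (C.A Y)] : Module.Finite ℚ (C.A X) :=
  Module.Finite.equiv (pullEquiv C φ)

/-- The varieties isomorphic to powers of `X`. -/
def powSet (X : 𝒱.Obj) : Set 𝒱.Obj := {Y | ∃ n, Nonempty (Y ≅ pw X n)}

lemma pw_mem_powSet (X : 𝒱.Obj) (n : ℕ) : pw X n ∈ powSet X := ⟨n, ⟨Iso.refl _⟩⟩

lemma prod_mem_powSet (h : Y ∈ powSet X) (h' : Z ∈ powSet X) : Y.prod Z ∈ powSet X := by
  obtain ⟨a, ⟨i⟩⟩ := h
  obtain ⟨b, ⟨j⟩⟩ := h'
  exact ⟨_, prod_iso_pw i j⟩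

lemma pw_mem_powSet' (h : Y ∈ powSet X) (n : ℕ) : pw Y n ∈ powSet X := by
  induction n with
  | zero => exact h
  | succ n ih => exact prod_mem_powSet h ih

/-- Powers of powers. -/
lemma pw_pw_iso {m : ℕ} (i : Y ≅ pw X m) (n : ℕ) :
    Nonempty (pw Y n ≅ pw X ((m + 1) * (n + 1) - 1)) := by
  induction n with
  | zero =>
    have : (m + 1) * (0 + 1) - 1 = m := by omega
    rw [this]
    exact ⟨i⟩
  | succ n ih =>
    obtain ⟨j⟩ := ih
    obtain ⟨e⟩ := prod_iso_pw i j
    have : (m + 1) * (n + 1 + 1) - 1 = m + ((m + 1) * (n + 1) - 1) + 1 := by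
      have h1 : 1 ≤ (m + 1) * (n + 1) := Nat.mul_pos (Nat.succ_pos _) (Nat.succ_pos _)
      have h2 : (m + 1) * (n + 1 + 1) = (m + 1) * (n + 1) + (m + 1) := by ring
      omega
    rw [this]
    exact ⟨e⟩

lemma finite_powSet [∀ n, Module.Finite ℚ (C.A (pw X n))] (h : Y ∈ powSet X) :
    Module.Finite ℚ (C.A Y) := by
  obtain ⟨n, ⟨i⟩⟩ := h
  exact finite_iso i

lemma nontrivial_powSet [Nontrivial (W.H X)] (h : Y ∈ powSet X) : Nontrivial (W.H Y) := by
  obtain ⟨n, ⟨i⟩⟩ := h
  have := nontrivial_pw (W := W) (X := X) n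
  refine ⟨1, 0, fun h0 => ?_⟩
  have h1 := congrArg (W.map i.inv) h0
  rw [map_one, map_zero] at h1
  exact one_ne_zero h1

/-! ### Points, growth -/

/-- The pull-back of Chow groups to the next power is injective. -/
lemma pull_snd_injective (X Y : 𝒱.Obj) : Function.Injective (C.pull (snd X Y)) := by
  obtain ⟨a, -, -, h2⟩ := exists_deg_one C X
  intro x y hxy
  have h1 : ∀ x : C.A Y, C.push (snd X Y) (C.pull (fst X Y) a * C.pull (snd X Y) x) = x := by
    intro x
    rw [C.proj_right, h2, one_mul]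
  rw [← h1 x, ← h1 y, hxy]

lemma finrank_mono_pw [∀ n, Module.Finite ℚ (C.A (pw X n))] (n : ℕ) :
    Module.finrank ℚ (C.A (pw X n)) ≤ Module.finrank ℚ (C.A (pw X (n + 1))) := by
  have : Module.Finite ℚ (C.A (X.prod (pw X n))) :=
    (inferInstance : Module.Finite ℚ (C.A (pw X (n + 1))))
  exact LinearMap.finrank_le_finrank_of_injective (f := (C.pull (snd X (pw X n))).toLinearMap)
    (pull_snd_injective X (pw X n))

lemma not_finite_succ {n : ℕ} (h : ¬ Module.Finite ℚ (C.A (pw X n))) :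
    ¬ Module.Finite ℚ (C.A (pw X (n + 1))) := by
  intro h1
  apply h
  have : Module.Finite ℚ (C.A (X.prod (pw X n))) := h1
  exact Module.Finite.of_injective (C.pull (snd X (pw X n))).toLinearMap
    (pull_snd_injective X (pw X n))

/-- There is an algebraic class of trace one. -/
lemma exists_point [Nontrivial (W.H X)] : ∃ z : C.A X, W.tr X (c.cl X z) = 1 := by
  obtain ⟨a, -, h1, -⟩ := exists_deg_one C X
  obtain ⟨q, hq, hq'⟩ := c.exists_deg a
  refine ⟨a, ?_⟩
  have h2 := hq' X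
  rw [h1] at h2
  have h3 := congrArg (c.cl X) h2
  rw [map_one, c.cl_smul, map_one] at h3
  rw [hq]
  have h4 : ((1 : W.K) - (q : W.K)) • (1 : W.H X) = 0 := by
    rw [sub_smul, one_smul, ← h3, sub_self]
  rcases smul_eq_zero.1 h4 with h5 | h5
  · exact (sub_eq_zero.1 h5).symm
  · exact absurd h5 one_ne_zero

/-! ### Change of the coefficients of the cohomology -/

/-- The classes in the cohomology with extended coefficients. -/
noncomputable def ClassMap.base (L : Type v) [Field L] [Algebra W.K L] :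
    ClassMap (baseW W L) C where
  cl X := (Algebra.TensorProduct.includeRight (R := W.K) (A := L) (B := W.H X)).toRingHom.comp
    (c.cl X)
  pull f x := by
    have h1 := c.cl_pull f x
    change (1 : L) ⊗ₜ[W.K] (c.cl _ (C.pull f x)) = _
    rw [h1]
    rfl
  push f x := by
    have h1 := c.cl_push f x
    change (1 : L) ⊗ₜ[W.K] (c.cl _ (C.push f x)) = _
    rw [h1]
    rfl
  image X p := by
    refine Set.ext fun a => ⟨?_, ?_⟩
    · rintro ⟨x, hx, rfl⟩
      obtain ⟨z, hz, h2⟩ := c.exists_cycle hx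
      refine ⟨z, hz, ?_⟩
      change (1 : L) ⊗ₜ[W.K] (W.cl X z) = (1 : L) ⊗ₜ[W.K] (c.cl X x)
      rw [h2]
    · rintro ⟨z, hz, rfl⟩
      obtain ⟨x, hx, h2⟩ := c.exists_elt hz
      refine ⟨x, hx, ?_⟩
      change (1 : L) ⊗ₜ[W.K] (c.cl X x) = (1 : L) ⊗ₜ[W.K] (W.cl X z)
      rw [h2]

lemma base_cl (L : Type v) [Field L] [Algebra W.K L] (x : C.A X) :
    (c.base L).cl X x = ((1 : L) ⊗ₜ[W.K] (c.cl X x) : L ⊗[W.K] W.H X) := rfl

lemma numSub_base (L : Type v) [Field L] [Algebra W.K L] (X : 𝒱.Obj) :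
    numSub (c.base L) X = numSub c X := by
  ext x
  rw [mem_numSub, mem_numSub]
  have h1 : ∀ y, (baseW W L).tr X ((c.base L).cl X x * (c.base L).cl X y) =
      (algebraMap W.K L (W.tr X (c.cl X x * c.cl X y)) : L) := by
    intro y
    rw [← map_mul, base_cl, tr_one_tmul, map_mul]
  simp only [h1]
  constructor
  · intro h y
    exact (map_eq_zero (algebraMap W.K L)).1 (h y)
  · intro h y
    rw [h y, map_zero]
    rfl

end Pool.Agent.Y133.Chow
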