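import Pool.Agent.Y133.Chow.Defs
import Pool.Agent.TH133.Tens
import Pool.Agent.Y129.Gen

/-!
# Rational Chow groups and Weil cohomology: basic facts
-/

set_option linter.unusedSectionVars false

open CategoryTheory AlgebraicGeometry

universe u v w

namespace Pool.Agent.Y133.Chow

open Pool.Agent.H914 Pool.Agent.H914.VarClass Pool.Agent.H914.VarClass.Obj
  Pool.Agent.H914.WeilCohomology Pool.Agent.W492.BB Pool.Agent.Y129 Pool.Agent.TH133
  Pool.Agent.H281R3.HT
open Pool.Agent.W550.Corr (dg comp_eq_extR comp_dg dg_comp comp_assoc compL compL_apply HasIso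
  push_model)

variable {k : Type u} [Field k] {𝒱 : VarClass k} {ops : CycleOps 𝒱}
  {W : WeilCohomology.{u, v} ops} {C : TheoryData.{u, w, 0} 𝒱 ℚ} [hC : IsChowProj C]
  (c : ClassMap W C) {X Y Z : 𝒱.Obj}

namespace ClassMap

omit hC

lemma cl_pull (f : X ⟶ Y) (x : C.A Y) : c.cl X (C.pull f x) = W.map f (c.cl Y x) := c.pull f x

lemma cl_push (f : X ⟶ Y) (x : C.A X) : c.cl Y (C.push f x) = W.push f (c.cl X x) := c.push f x

lemma exists_cycle {p : ℕ} {x : C.A X} (hx : x ∈ C.gr X p) :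
    ∃ z, X.IsCyc p z ∧ W.cl X z = c.cl X x := by
  have h1 : c.cl X x ∈ {b | ∃ z, X.IsCyc p z ∧ W.cl X z = b} := by
    rw [← c.image X p]
    exact ⟨x, hx, rfl⟩
  exact h1

lemma exists_elt {p : ℕ} {z : X.Cycles} (hz : X.IsCyc p z) :
    ∃ x ∈ C.gr X p, c.cl X x = W.cl X z := by
  have h1 : W.cl X z ∈ c.cl X '' (C.gr X p) := by
    rw [c.image X p]
    exact ⟨z, hz, rfl⟩
  obtain ⟨x, hx, h⟩ := h1
  exact ⟨x, hx, h⟩

lemma cl_mem {p : ℕ} {x : C.A X} (hx : x ∈ C.gr X p) : c.cl X x ∈ W.gr X (2 * p) := by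
  obtain ⟨z, hz, h⟩ := c.exists_cycle hx
  rw [← h]
  exact W.cl_mem hz

lemma cl_smul (q : ℚ) (x : C.A X) : c.cl X (q • x) = (q : W.K) • c.cl X x := by
  have := map_ratCast_smul (c.cl X) ℚ W.K q x
  simpa using this

end ClassMap

/-- Induction over the degrees. -/
lemma gr_ind (C : TheoryData.{u, w, 0} 𝒱 ℚ) [hC : IsChowProj C] {X : 𝒱.Obj} {P : C.A X → Prop}
    (h1 : ∀ (p : ℕ) (x : C.A X), x ∈ C.gr X p → P x) (h2 : ∀ x y, P x → P y → P (x + y))
    (x : C.A X) : P x := by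
  have h0 : P 0 := h1 0 0 (Submodule.zero_mem _)
  have h3 : x ∈ ⨆ i, C.gr X i := by
    rw [(C.isInternal X).submodule_iSup_eq_top]; trivial
  refine Submodule.iSup_induction (fun i => C.gr X i) (motive := P) h3 ?_ h0 h2
  intro i y hy
  by_cases hi : i < 0
  · rw [C.gr_neg X i hi, Submodule.mem_bot] at hy
    rw [hy]; exact h0
  · obtain ⟨p, rfl⟩ := Int.eq_ofNat_of_zero_le (not_lt.1 hi)
    exact h1 p y hy

namespace ClassMap

include hC

lemma cl_mem_algSpan (x : C.A X) : c.cl X x ∈ algSpan W X := by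
  refine gr_ind C (P := fun x => c.cl X x ∈ algSpan W X) ?_ ?_ x
  · intro p x hx
    obtain ⟨z, hz, h⟩ := c.exists_cycle hx
    rw [← h]
    exact Submodule.subset_span (Set.mem_iUnion.2 ⟨p, z, hz, rfl⟩)
  · intro x y hx hy
    rw [map_add]
    exact Submodule.add_mem _ hx hy

lemma algSpan_eq : algSpan W X = Submodule.span W.K (Set.range (c.cl X)) := by
  apply le_antisymm
  · rw [algSpan, Submodule.span_le]
    intro a ha
    obtain ⟨j, z, hz, rfl⟩ := Set.mem_iUnion.1 ha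
    obtain ⟨x, -, hx⟩ := c.exists_elt hz
    exact Submodule.subset_span ⟨x, hx⟩
  · rw [Submodule.span_le]
    rintro _ ⟨x, rfl⟩
    exact c.cl_mem_algSpan x

lemma even (x : C.A X) (a : W.H X) : c.cl X x * a = a * c.cl X x :=
  algSpan_even (c.cl_mem_algSpan x) a

/-! ### Degrees -/

/-- The degree of an element of the Chow ring. -/
lemma exists_deg [Nontrivial (W.H X)] (x : C.A X) : ∃ q : ℚ, W.tr X (c.cl X x) = (q : W.K) ∧
    ∀ Y : 𝒱.Obj, C.push (fst Y X) (C.pull (snd Y X) x) = q • (1 : C.A Y) := by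
  refine gr_ind C (P := fun x => ∃ q : ℚ, W.tr X (c.cl X x) = (q : W.K) ∧
    ∀ Y : 𝒱.Obj, C.push (fst Y X) (C.pull (snd Y X) x) = q • (1 : C.A Y)) ?_ ?_ x
  · intro p x hx
    rcases lt_trichotomy p X.dim with hp | hp | hp
    · refine ⟨0, ?_, fun Y => ?_⟩
      · rw [W.tr_eq_zero (c.cl_mem hx) (by omega)]
        simp
      · have h2 := C.push_mem (fst Y X) (C.pull_mem (snd Y X) hx)
        rw [C.gr_neg Y _ (by rw [dim_prod]; push_cast; omega)] at h2
        rw [(Submodule.mem_bot _).1 h2, zero_smul]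
    · subst hp
      obtain ⟨q, hq⟩ := hC.degree X x hx
      refine ⟨q, ?_, fun Y => (hq Y).2⟩
      have h1 : C.push (snd X X) (C.pull (fst X X) x) = q • (1 : C.A X) := (hq X).1
      have h2 := congrArg (c.cl X) h1
      rw [c.cl_push, c.cl_pull, W.push_snd', c.cl_smul, map_one] at h2
      have h3 : (W.tr X (c.cl X x) - (q : W.K)) • (1 : W.H X) = 0 := by
        rw [sub_smul, h2, sub_self]
      rcases smul_eq_zero.1 h3 with h4 | h4
      · exact sub_eq_zero.1 h4
      · exact absurd h4 one_ne_zero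
    · have h2 : x = 0 := hC.gr_top X p x hx (by exact_mod_cast hp)
      subst h2
      exact ⟨0, by simp, fun Y => by rw [map_zero, map_zero, zero_smul]⟩
  · rintro x y ⟨q, hq, hq'⟩ ⟨r, hr, hr'⟩
    refine ⟨q + r, ?_, fun Y => ?_⟩
    · rw [map_add, map_add, hq, hr]; push_cast; rfl
    · rw [map_add, map_add, hq', hr', add_smul]

end ClassMap

/-- The numerically trivial elements. -/
def numSub (c : ClassMap W C) (X : 𝒱.Obj) : Submodule ℚ (C.A X) where
  carrier := {x | NumTrivial c X x}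
  zero_mem' := by
    intro y
    rw [map_zero, zero_mul, map_zero]
  add_mem' := by
    intro a b ha hb y
    rw [map_add, add_mul, map_add, ha y, hb y, add_zero]
  smul_mem' := by
    intro q a ha y
    rw [c.cl_smul, smul_mul_assoc, map_smul, ha y, smul_zero]

omit hC in
lemma mem_numSub {c : ClassMap W C} {x : C.A X} :
    x ∈ numSub c X ↔ ∀ y, W.tr X (c.cl X x * c.cl X y) = 0 := Iff.rfl

omit hC in
lemma mem_numSub' {c : ClassMap W C} {x : C.A X} : x ∈ numSub c X ↔ NumTrivial c X x := Iff.rfl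

include hC

lemma mem_numSub_iff {c : ClassMap W C} {x : C.A X} :
    x ∈ numSub c X ↔ c.cl X x ∈ transcendental W X := by
  rw [mem_numSub, mem_transcendental]
  constructor
  · intro h d hd
    rw [c.algSpan_eq] at hd
    induction hd using Submodule.span_induction with
    | mem a ha =>
      obtain ⟨y, rfl⟩ := ha
      rw [c.even]
      exact h y
    | zero => rw [zero_mul, map_zero]
    | add a b _ _ ha hb => rw [add_mul, map_add, ha, hb, add_zero]
    | smul r a _ ha => rw [smul_mul_assoc, map_smul, ha, smul_zero]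
  · intro h y
    rw [c.even]
    exact h _ (c.cl_mem_algSpan y)

variable {c}

lemma numSub_mul {x : C.A X} (hx : x ∈ numSub c X) (y : C.A X) : x * y ∈ numSub c X := by
  intro z
  rw [map_mul (c.cl X), mul_assoc, ← map_mul (c.cl X)]
  exact hx _

lemma numSub_mul' {x : C.A X} (hx : x ∈ numSub c X) (y : C.A X) : y * x ∈ numSub c X := by
  rw [chow_mul_comm]
  exact numSub_mul hx y

lemma numSub_pull (f : X ⟶ Y) {x : C.A Y} (hx : x ∈ numSub c Y) : C.pull f x ∈ numSub c X := by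
  intro y
  rw [c.cl_pull, ← c.cl_pull, c.even, c.cl_pull, ← W.tr_push, ← c.cl_push, c.even]
  exact hx _

lemma numSub_push (f : X ⟶ Y) {x : C.A X} (hx : x ∈ numSub c X) : C.push f x ∈ numSub c Y := by
  intro y
  rw [c.cl_push, W.tr_push, ← c.cl_pull]
  exact hx _

lemma numSub_act (Γ : C.A (X.prod Y)) {x : C.A X} (hx : x ∈ numSub c X) :
    C.act Γ x ∈ numSub c Y :=
  numSub_push _ (numSub_mul' (numSub_pull _ hx) _)

lemma numSub_act' {Γ : C.A (X.prod Y)} (hΓ : Γ ∈ numSub c (X.prod Y)) (x : C.A X) :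
    C.act Γ x ∈ numSub c Y :=
  numSub_push _ (numSub_mul hΓ _)

lemma numSub_comp {Γ : C.A (X.prod Y)} (hΓ : Γ ∈ numSub c (X.prod Y)) (Δ : C.A (Y.prod Z)) :
    C.comp Γ Δ ∈ numSub c (X.prod Z) :=
  numSub_push _ (numSub_mul' (numSub_pull _ hΓ) _)

lemma numSub_comp' (Γ : C.A (X.prod Y)) {Δ : C.A (Y.prod Z)} (hΔ : Δ ∈ numSub c (Y.prod Z)) :
    C.comp Γ Δ ∈ numSub c (X.prod Z) :=
  numSub_push _ (numSub_mul (numSub_pull _ hΔ) _)

/-! ### Correspondences -/

variable (c)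

lemma corr_cl_comp (Γ : C.A (X.prod Y)) (Δ : C.A (Y.prod Z)) :
    W.corr (c.cl _ (C.comp Γ Δ)) = W.corr (c.cl _ Δ) ∘ₗ W.corr (c.cl _ Γ) := by
  refine gr_ind C (P := fun Δ => W.corr (c.cl _ (C.comp Γ Δ)) =
    W.corr (c.cl _ Δ) ∘ₗ W.corr (c.cl _ Γ)) ?_ ?_ Δ
  · intro p Δ hΔ
    rw [← W.corr_comp (c.cl _ Γ) (c.cl_mem hΔ), comp_eq_extR]
    congr 1
    have e1 : p13 X Y Z = u13 X Y Z := by
      apply Pool.Agent.W550.Corr.prod_ext <;> simp [p13, u13]
    have e2 : p12 X Y Z = u12 X Y Z := by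
      apply Pool.Agent.W550.Corr.prod_ext <;> simp [p12, u12]
    have e3 : C.extR Δ X Γ = C.push (u13 X Y Z) (C.pull (snd X (Y.prod Z)) Δ *
      C.pull (u12 X Y Z) Γ) := rfl
    rw [e3, c.cl_push, map_mul, c.cl_pull, c.cl_pull, e1, e2, ← c.cl_pull, c.even, c.cl_pull]
    rfl
  · intro a b ha hb
    rw [Pool.Agent.W550.Corr.comp_add, map_add, corr_add, ha, hb, map_add, corr_add,
      LinearMap.add_comp]

omit hC in
/-- The operator of a class as a linear map. -/
noncomputable def corrL (W : WeilCohomology.{u, v} ops) (X Y : 𝒱.Obj) :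
    W.H (X.prod Y) →ₗ[W.K] (W.H X →ₗ[W.K] W.H Y) where
  toFun a := W.corr a
  map_add' a b := W.corr_add a b
  map_smul' r a := W.corr_smul r a

lemma corr_cl_dg (X : 𝒱.Obj) : W.corr (c.cl _ (dg C X)) = LinearMap.id := by
  have h1 : dg C X = C.push (diag X) 1 := rfl
  apply LinearMap.ext
  intro a
  rw [h1, c.cl_push, map_one, W.corr_diag, one_mul]
  rfl

lemma cl_act (Γ : C.A (X.prod Y)) (x : C.A X) :
    c.cl Y (C.act Γ x) = W.corr (c.cl _ Γ) (c.cl X x) := by
  rw [TheoryData.act_apply, c.cl_push, map_mul, c.cl_pull, corr_apply]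

end Pool.Agent.Y133.Chow
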