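import Pool.Agent.Y129.Pair

/-!
# The ratio law for stable systems over a category with the same semisimple quotient
-/

open Module LinearMap Finset Filter Topology

namespace Pool.Agent.Y133.Chow

open Pool.Agent.Y129

variable {K : Type*} [Field K] {H : ℕ → Type*} [∀ n, AddCommGroup (H n)]
  [∀ n, Module K (H n)] {C : ∀ m n, Submodule K (H m →ₗ[K] H n)} [∀ n, Module.Finite K (H n)]
  {H' : ℕ → Type*} [∀ n, AddCommGroup (H' n)]
  [∀ n, Module K (H' n)] {C' : ∀ m n, Submodule K (H' m →ₗ[K] H' n)}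
  [∀ n, Module.Finite K (H' n)] {π : ∀ m n, (H' m →ₗ[K] H' n) →ₗ[K] (H m →ₗ[K] H n)}
  [IsAlgClosed K] [CharZero K] {β : ℕ → ℕ} {b : ℕ}

/-- The category `C'` of operators maps onto the category `C`, and has the same semisimple
quotient. -/
structure IsExt (C : ∀ m n, Submodule K (H m →ₗ[K] H n))
    (C' : ∀ m n, Submodule K (H' m →ₗ[K] H' n))
    (π : ∀ m n, (H' m →ₗ[K] H' n) →ₗ[K] (H m →ₗ[K] H n)) : Prop where
  cat : IsCat C'
  mem : ∀ {m n} {f : H' m →ₗ[K] H' n}, f ∈ C' m n → π m n f ∈ C m n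
  map_id : ∀ n, π n n LinearMap.id = LinearMap.id
  map_comp : ∀ {l m n : ℕ} {g : H' m →ₗ[K] H' n} (f : H' l →ₗ[K] H' m), g ∈ C' m n →
    π l n (g ∘ₗ f) = π m n g ∘ₗ π l m f
  nd_eq : ∀ {m n : ℕ} {e : Module.End K (H' m)} {f : Module.End K (H' n)}, e ∈ C' m m →
    f ∈ C' n n → nd C' m n (sand C' m n f e) = nd C m n (sand C m n (π n n f) (π m m e))

omit [∀ n, Module.Finite K (H n)] [∀ n, Module.Finite K (H' n)] [IsAlgClosed K] [CharZero K] in
lemma IsExt.idem (hE : IsExt C C' π) {m : ℕ} {ε : Module.End K (H' m)} (hε : ε ∈ C' m m)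
    (hε' : IsIdempotentElem ε) : IsIdempotentElem (π m m ε : Module.End K (H m)) := by
  have h1 := hE.map_comp (l := m) ε hε
  have h2 : ε ∘ₗ ε = ε := hε'
  rw [h2] at h1
  exact h1.symm

omit [∀ n, Module.Finite K (H n)] [∀ n, Module.Finite K (H' n)] [IsAlgClosed K] [CharZero K] in
lemma IsExt.nd_id (hE : IsExt C C' π) {m n : ℕ} {ε : Module.End K (H' m)} (hε : ε ∈ C' m m) :
    nd C' m n (sand C' m n LinearMap.id ε) = nd C m n (sand C m n LinearMap.id (π m m ε)) := by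
  have h1 := hE.nd_eq (n := n) hε (hE.cat.id_mem n)
  rw [hE.map_id] at h1
  exact h1

omit [∀ n, Module.Finite K (H n)] [∀ n, Module.Finite K (H' n)] [IsAlgClosed K] [CharZero K] in
lemma IsExt.nd_le_cmp (hE : IsExt C C' π) (h : IsPowers C β b) (m n : ℕ)
    {ε : Module.End K (H' m)} (hε : ε ∈ C' m m) (hε' : IsIdempotentElem ε) :
    nd C' m (n + 1) (sand C' m (n + 1) LinearMap.id ε) ≤
      finrank K (range (π m m ε)) * cmp β b n := by
  rw [hE.nd_id hε]
  exact h.nd_le_cmp m n (hE.mem hε) (hE.idem hε hε')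

omit [∀ n, Module.Finite K (H' n)] in
lemma IsExt.eventually (hE : IsExt C C' π) (h : IsPowers C β b) (m : ℕ)
    {ε : Module.End K (H' m)} (hε : ε ∈ C' m m) (hε' : IsIdempotentElem ε) {δ : ℝ}
    (hδ : 0 < δ) :
    ∀ᶠ n in atTop, ((finrank K (range (π m m ε)) : ℝ) - δ) * cmp β b n ≤
      nd C' m (n + 1) (sand C' m (n + 1) LinearMap.id ε) := by
  simp only [hE.nd_id hε]
  exact h.eventually m (hE.mem hε) (hE.idem hε hε') hδ

/-- **The ratio law**, abstract form. -/
theorem IsExt.law (hE : IsExt C C' π) (h : IsPowers C β b) {𝒢 : ∀ n, Submodule K (H' n)}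
    (h𝒢 : IsStable C' 𝒢) :
    (∃ N : ℕ, (∀ n, finrank K (𝒢 (2 * n + 1)) ≤ N * β (2 * n + 1)) ∧
      Tendsto (fun n => (finrank K (𝒢 n) : ℝ) / β n) atTop (𝓝 (N : ℝ))) ∨
    Tendsto (fun n => (finrank K (𝒢 n) : ℝ) / β n) atTop atTop := by
  have hpos : ∀ n, (0 : ℝ) < cmp β b n := fun n => by exact_mod_cast h.cmp_pos n
  have key := law_of_bounds (s := fun n => (finrank K (𝒢 (n + 1)) : ℝ) / cmp β b n) (by
    intro m
    obtain ⟨r, ε, hε, hε', hε'', hdec⟩ := exists_primitive hE.cat (m + 1)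
    refine ⟨∑ k, finrank K (range (π (m + 1) (m + 1) (ε k))) * finrank K ((𝒢 (m + 1)).map (ε k)), ?_, ?_⟩
    · rw [div_le_iff₀ (hpos m), hdec 𝒢 h𝒢]
      have h1 : ∑ k, nd C' (m + 1) (m + 1) (sand C' (m + 1) (m + 1) LinearMap.id (ε k)) *
          finrank K ((𝒢 (m + 1)).map (ε k)) ≤
          (∑ k, finrank K (range (π (m + 1) (m + 1) (ε k))) * finrank K ((𝒢 (m + 1)).map (ε k))) *
            cmp β b m := by
        rw [Finset.sum_mul]
        apply Finset.sum_le_sum
        intro k _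
        calc _ ≤ (finrank K (range (π (m + 1) (m + 1) (ε k))) * cmp β b m) *
                finrank K ((𝒢 (m + 1)).map (ε k)) :=
              Nat.mul_le_mul_right _ (hE.nd_le_cmp h (m + 1) m (hε k) (hε' k))
          _ = _ := by ring
      exact_mod_cast h1
    · intro δ hδ
      set g : ℕ := ∑ k, finrank K ((𝒢 (m + 1)).map (ε k)) with hg
      set δ' : ℝ := δ / (g + 1) with hδ'
      have hδ'0 : 0 < δ' := by positivity
      have h1 : ∀ᶠ n in atTop, ∀ k, ((finrank K (range (π (m + 1) (m + 1) (ε k))) : ℝ) - δ') * cmp β b n ≤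
          nd C' (m + 1) (n + 1) (sand C' (m + 1) (n + 1) LinearMap.id (ε k)) :=
        eventually_all.2 (fun k => hE.eventually h (m + 1) (hε k) (hε' k) hδ'0)
      filter_upwards [h1] with n hn
      rw [le_div_iff₀ (hpos n)]
      have h2 := sum_le_finrank hE.cat (m + 1) (n + 1) hε hε' hε'' h𝒢
      have h2' : (∑ k, (nd C' (m + 1) (n + 1)
          (sand C' (m + 1) (n + 1) LinearMap.id (ε k)) : ℝ) *
          finrank K ((𝒢 (m + 1)).map (ε k))) ≤ finrank K (𝒢 (n + 1)) := by exact_mod_cast h2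
      refine le_trans ?_ h2'
      have h3 : ∑ k, (((finrank K (range (π (m + 1) (m + 1) (ε k))) : ℝ) - δ') * cmp β b n) *
          (finrank K ((𝒢 (m + 1)).map (ε k)) : ℝ) ≤
          ∑ k, (nd C' (m + 1) (n + 1) (sand C' (m + 1) (n + 1) LinearMap.id (ε k)) : ℝ) *
          finrank K ((𝒢 (m + 1)).map (ε k)) := by
        apply Finset.sum_le_sum
        intro k _
        exact mul_le_mul_of_nonneg_right (hn k) (Nat.cast_nonneg _)
      refine le_trans ?_ h3
      have h4 : ∑ k, (((finrank K (range (π (m + 1) (m + 1) (ε k))) : ℝ) - δ') * cmp β b n) *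
          (finrank K ((𝒢 (m + 1)).map (ε k)) : ℝ) =
          ((∑ k, (finrank K (range (π (m + 1) (m + 1) (ε k))) : ℝ) * finrank K ((𝒢 (m + 1)).map (ε k))) -
            δ' * g) * cmp β b n := by
        rw [hg, Nat.cast_sum, Finset.mul_sum, ← Finset.sum_sub_distrib, Finset.sum_mul]
        apply Finset.sum_congr rfl
        intro k _
        ring
      rw [h4]
      apply mul_le_mul_of_nonneg_right _ (hpos n).le
      push_cast
      have h5 : δ' * g ≤ δ := by
        rw [hδ', div_mul_eq_mul_div, div_le_iff₀ (by positivity)]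
        nlinarith
      linarith)
  -- from the comparison sequence to the numerical ranks
  have hcmp : Tendsto (fun n => (cmp β b n : ℝ) / β (n + 1)) atTop (𝓝 1) := by
    have h1 := (h.tendsto_cmp 0).inv₀ (by simp)
    rw [pow_zero, inv_one] at h1
    refine h1.congr ?_
    intro n
    rw [inv_div, add_zero]
  have hprod : ∀ n, ((finrank K (𝒢 (n + 1)) : ℝ) / cmp β b n) *
      ((cmp β b n : ℝ) / β (n + 1)) = (finrank K (𝒢 (n + 1)) : ℝ) / β (n + 1) := fun n =>
    div_mul_div_cancel₀ (hpos n).ne'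
  rcases key with ⟨N, h1, h2⟩ | h1
  · left
    refine ⟨N, fun n => ?_, ?_⟩
    · have h3 := h1 (2 * n)
      rw [div_le_iff₀ (hpos _), cmp_even] at h3
      exact_mod_cast h3
    · rw [← tendsto_add_atTop_iff_nat 1]
      have h3 := h2.mul hcmp
      rw [mul_one] at h3
      exact h3.congr hprod
  · right
    rw [← tendsto_add_atTop_iff_nat 1]
    have h3 := h1.atTop_mul_pos one_pos hcmp
    exact h3.congr hprod

/-- **The gap**: if a stable system is strictly larger than another one, then the difference of the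
dimensions is asymptotically at least the numerical rank. -/
theorem IsExt.gap (hE : IsExt C C' π) (h : IsPowers C β b) {𝒢' 𝒢 : ∀ n, Submodule K (H' n)}
    (h𝒢' : IsStable C' 𝒢') (h𝒢 : IsStable C' 𝒢) (hle : ∀ n, 𝒢' n ≤ 𝒢 n) {m : ℕ}
    (hne : 𝒢' m ≠ 𝒢 m) {δ : ℝ} (hδ : 0 < δ) :
    ∀ᶠ n in atTop, (finrank K (𝒢' (n + 1)) : ℝ) + (1 - δ) * cmp β b n ≤
      finrank K (𝒢 (n + 1)) := by
  obtain ⟨r, ε, hε, hε', hε'', hdec⟩ := exists_primitive hE.cat m
  have h1 : finrank K (𝒢' m) < finrank K (𝒢 m) := by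
    apply lt_of_le_of_ne (Submodule.finrank_mono (hle m))
    intro h2
    exact hne (Submodule.eq_of_le_of_finrank_le (hle m) h2.ge)
  obtain ⟨k, hk⟩ : ∃ k, finrank K ((𝒢' m).map (ε k)) < finrank K ((𝒢 m).map (ε k)) := by
    by_contra hcon
    push Not at hcon
    rw [hdec 𝒢' h𝒢', hdec 𝒢 h𝒢] at h1
    have h2 := Finset.sum_le_sum fun k (_ : k ∈ univ) => Nat.mul_le_mul_left
      (nd C' m m (sand C' m m LinearMap.id (ε k))) (hcon k)
    omega
  have hrank : (1 : ℝ) ≤ finrank K (range (π m m (ε k))) := by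
    have h2 : π m m (ε k) ≠ 0 := by
      intro h0
      have h3 := hE.nd_eq (hε k) (hε k)
      rw [hε'', if_pos rfl, h0] at h3
      have h4 : sand C m m (0 : Module.End K (H m)) (0 : Module.End K (H m)) = ⊥ := by
        rw [eq_bot_iff]
        rintro _ ⟨d, _, rfl⟩
        rw [Submodule.mem_bot]
        apply LinearMap.ext
        intro x
        simp
      rw [h4, nd, Submodule.map_bot, finrank_bot] at h3
      exact one_ne_zero h3
    have h3 : 1 ≤ finrank K (range (π m m (ε k))) := by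
      rw [Nat.one_le_iff_ne_zero]
      intro h4
      exact h2 (LinearMap.range_eq_bot.1 (Submodule.finrank_eq_zero.1 h4))
    exact_mod_cast h3
  filter_upwards [hE.eventually h m (hε k) (hε' k) hδ] with n hn
  have h2 := sub_le_finrank hE.cat m (n + 1) (hε k) (hε' k) (by rw [hε'', if_pos rfl]) h𝒢' h𝒢
    hle hk
  have h3 : (finrank K (𝒢' (n + 1)) : ℝ) +
      nd C' m (n + 1) (sand C' m (n + 1) LinearMap.id (ε k)) ≤ finrank K (𝒢 (n + 1)) := by
    exact_mod_cast h2
  have h4 : (0 : ℝ) ≤ cmp β b n := Nat.cast_nonneg _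
  nlinarith [mul_le_mul_of_nonneg_right hrank h4]

/-- The gap in terms of the limits. -/
theorem IsExt.gap_limit (hE : IsExt C C' π) (h : IsPowers C β b)
    {𝒢' 𝒢 : ∀ n, Submodule K (H' n)} (h𝒢' : IsStable C' 𝒢') (h𝒢 : IsStable C' 𝒢) (hle : ∀ n, 𝒢' n ≤ 𝒢 n) {m : ℕ}
    (hne : 𝒢' m ≠ 𝒢 m) {N' N : ℝ}
    (h1 : Tendsto (fun n => (finrank K (𝒢' n) : ℝ) / β n) atTop (𝓝 N'))
    (h2 : Tendsto (fun n => (finrank K (𝒢 n) : ℝ) / β n) atTop (𝓝 N)) : N' + 1 ≤ N := by
  have h3 := h.tendsto_cmp_div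
  rw [← tendsto_add_atTop_iff_nat 1] at h1 h2
  by_contra hcon
  push Not at hcon
  set δ : ℝ := (N' + 1 - N) / 2 with hδ
  have hδ0 : 0 < δ := by rw [hδ]; linarith
  have h4 := (h1.add (h3.const_mul (1 - δ))).sub h2
  have h5 : 0 < N' + (1 - δ) * 1 - N := by rw [hδ]; linarith
  have h6 := (h4.eventually (lt_mem_nhds h5)).and ((hE.gap h h𝒢' h𝒢 hle hne hδ0).and
    (h3.eventually (lt_mem_nhds (a := 1 / 2) (by norm_num))))
  obtain ⟨n, hn1, hn2, hn3⟩ := h6.exists
  have hpos : (0 : ℝ) < β (n + 1) := by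
    by_contra hcon'
    have : (β (n + 1) : ℝ) = 0 := le_antisymm (not_lt.1 hcon') (Nat.cast_nonneg _)
    rw [this, div_zero] at hn3
    linarith
  have h7 : (finrank K (𝒢' (n + 1)) : ℝ) / β (n + 1) +
      (1 - δ) * ((cmp β b n : ℝ) / β (n + 1)) ≤ (finrank K (𝒢 (n + 1)) : ℝ) / β (n + 1) := by
    rw [← mul_div_assoc, ← add_div]
    exact div_le_div_of_nonneg_right hn2 hpos.le
  linarith

end Pool.Agent.Y133.Chow
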