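import Pool.Agent.Y133.Chow.Rank
import Pool.Agent.Y133.Chow.Law

/-!
# The ratio law for Chow groups if numerically trivial correspondences are nilpotent
-/

set_option linter.unusedSectionVars false

open CategoryTheory AlgebraicGeometry TensorProduct Filter Topology

universe u v w

namespace Pool.Agent.Y133.Chow

open Pool.Agent.H914 Pool.Agent.H914.VarClass Pool.Agent.H914.VarClass.Obj
  Pool.Agent.H914.WeilCohomology Pool.Agent.W492.BB Pool.Agent.Y129 Pool.Agent.TH133
  Pool.Agent.H281R3.HT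

variable {k : Type u} [Field k] {𝒱 : VarClass k} {ops : CycleOps 𝒱}
  {W : WeilCohomology.{u, v} ops} {C : TheoryData.{u, w, 0} 𝒱 ℚ} [hC : IsChowProj C]
  (c : ClassMap W C) {X Y Z : 𝒱.Obj}

/-- A family of subspaces of the Chow groups of the powers of `X` which is stable under
correspondences. -/
def ChowStable (C : TheoryData.{u, w, 0} 𝒱 ℚ) (X : 𝒱.Obj)
    (G : ∀ n, Submodule ℚ (C.A (pw X n))) : Prop :=
  ∀ m n (Γ : C.A ((pw X m).prod (pw X n))), ∀ x ∈ G m, C.act Γ x ∈ G n

/-- The corresponding subspaces of the sum of cohomology and Chow groups. -/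
noncomputable def gSys (G : ∀ n, Submodule ℚ (C.A (pw X n))) (n : ℕ) :
    Submodule W.K (Ht c (pw X n)) :=
  ((G n).baseChange W.K).map (LinearMap.inr W.K (W.H (pw X n)) (W.K ⊗[ℚ] C.A (pw X n)))

lemma finrank_gSys (G : ∀ n, Submodule ℚ (C.A (pw X n))) (n : ℕ) :
    Module.finrank W.K (gSys c G n) = Module.finrank ℚ (G n) := by
  rw [gSys, ← finrank_baseChange W.K (G n)]
  exact (LinearEquiv.finrank_eq (Submodule.equivMapOfInjective _ LinearMap.inr_injective _)).symm

lemma gSys_mono {G' G : ∀ n, Submodule ℚ (C.A (pw X n))} (h : ∀ n, G' n ≤ G n) (n : ℕ) :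
    gSys c G' n ≤ gSys c G n :=
  Submodule.map_mono (Submodule.baseChange_mono W.K (h n))

lemma gSys_ne [∀ n, Module.Finite ℚ (C.A (pw X n))] {G' G : ∀ n, Submodule ℚ (C.A (pw X n))}
    (h : ∀ n, G' n ≤ G n) {n : ℕ} (hne : G' n ≠ G n) : gSys c G' n ≠ gSys c G n := by
  intro h1
  apply hne
  apply Submodule.eq_of_le_of_finrank_le (h n)
  rw [← finrank_gSys c G, ← finrank_gSys c G', h1]

lemma gSys_stable {G : ∀ n, Submodule ℚ (C.A (pw X n))} (hG : ChowStable C X G) :
    IsStable (H := fun n => Ht c (pw X n)) (Ct c X) (gSys c G) := by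
  intro m n f hf a ha
  obtain ⟨y, hy, rfl⟩ := ha
  induction hf using Submodule.span_induction with
  | mem f hf =>
    obtain ⟨Γ, rfl⟩ := hf
    refine ⟨(C.actL Γ).baseChange W.K y, ?_, ?_⟩
    · have h1 : (G m).baseChange W.K ≤ ((G n).baseChange W.K).comap
          ((C.actL Γ).baseChange W.K) := by
        rw [Submodule.baseChange_eq_span, Submodule.span_le]
        rintro _ ⟨x, hx, rfl⟩
        change (C.actL Γ).baseChange W.K ((1 : W.K) ⊗ₜ[ℚ] x) ∈ (G n).baseChange W.K
        rw [LinearMap.baseChange_tmul]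
        exact Submodule.tmul_mem_baseChange_of_mem _ (hG m n Γ x hx)
      exact h1 hy
    · apply Prod.ext
      · change (0 : W.H (pw X n)) = W.corr (c.cl _ Γ) 0
        rw [map_zero]
      · rfl
  | zero => exact Submodule.zero_mem _
  | add f g _ _ hf hg => exact Submodule.add_mem _ hf hg
  | smul r f _ hf => exact Submodule.smul_mem _ _ hf

variable {S : Set 𝒱.Obj} (hS : GoodSet W S) (hX : X ∈ S) [Nontrivial (W.H X)]
  [∀ n, Module.Finite ℚ (C.A (pw X n))]

include hS hX

lemma isExt (hN : Nil c X) : IsExt (H := fun n => W.H (pw X n)) (H' := fun n => Ht c (pw X n))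
    (CP W X) (Ct c X) (fun m n => prH c (pw X m) (pw X n)) where
  cat := isCat_Ct c
  mem := fun {m n} f hf => by
    rw [← map_prH c]
    exact ⟨f, hf, rfl⟩
  map_id n := rfl
  map_comp f hg := prH_comp c hg f
  nd_eq he hf := nd_eq c hS hX hN he hf

variable [IsAlgClosed W.K]

/-- The ratio law. -/
theorem chow_law (hN : Nil c X) {G : ∀ n, Submodule ℚ (C.A (pw X n))} (hG : ChowStable C X G) :
    (∃ N : ℕ, (∀ n, Module.finrank ℚ (G (2 * n + 1)) ≤ N * numRank W (pw X (2 * n + 1))) ∧
      Tendsto (fun n => (Module.finrank ℚ (G n) : ℝ) / numRank W (pw X n)) atTop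
        (𝓝 (N : ℝ))) ∨
    Tendsto (fun n => (Module.finrank ℚ (G n) : ℝ) / numRank W (pw X n)) atTop atTop := by
  have h1 := (isExt c hS hX hN).law (isPowers hS hX) (gSys_stable c hG)
  simp only [finrank_gSys] at h1
  exact h1

/-- The gap. -/
theorem chow_gap (hN : Nil c X) {G' G : ∀ n, Submodule ℚ (C.A (pw X n))}
    (hG' : ChowStable C X G') (hG : ChowStable C X G) (hle : ∀ n, G' n ≤ G n) {m : ℕ}
    (hne : G' m ≠ G m) {N' N : ℝ}
    (h1 : Tendsto (fun n => (Module.finrank ℚ (G' n) : ℝ) / numRank W (pw X n)) atTop (𝓝 N'))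
    (h2 : Tendsto (fun n => (Module.finrank ℚ (G n) : ℝ) / numRank W (pw X n)) atTop (𝓝 N)) :
    N' + 1 ≤ N := by
  refine (isExt c hS hX hN).gap_limit (isPowers hS hX) (gSys_stable c hG') (gSys_stable c hG)
    (gSys_mono c hle) (gSys_ne c hle hne) ?_ ?_
  · simp only [finrank_gSys]
    exact h1
  · simp only [finrank_gSys]
    exact h2

end Pool.Agent.Y133.Chow
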