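import Pool.Agent.Y133.Chow.Perp

/-!
# The numerical rank in terms of Chow groups
-/

set_option linter.unusedSectionVars false

open CategoryTheory AlgebraicGeometry TensorProduct

universe u v w

namespace Pool.Agent.Y133.Chow

open Pool.Agent.H914 Pool.Agent.H914.VarClass Pool.Agent.H914.VarClass.Obj
  Pool.Agent.H914.WeilCohomology Pool.Agent.W492.BB Pool.Agent.Y129 Pool.Agent.TH133
  Pool.Agent.H281R3.HT

variable {k : Type u} [Field k] {𝒱 : VarClass k} {ops : CycleOps 𝒱}
  {W : WeilCohomology.{u, v} ops} {C : TheoryData.{u, w, 0} 𝒱 ℚ} [hC : IsChowProj C]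
  (c : ClassMap W C) {X Y Z : 𝒱.Obj}

lemma sum_repr_cl {ι : Type*} (b : Module.Basis ι ℚ W.K) (a : W.K) (x : C.A X) :
    (((b.repr a).mapRange (fun q => q • x) (zero_smul _ _)).sum fun j y => b j • c.cl X y) =
      a • c.cl X x := by
  rw [Finsupp.sum_mapRange_index (fun i => by rw [map_zero, smul_zero])]
  have h1 : ∀ i (q : ℚ), b i • c.cl X (q • x) = (q • b i) • c.cl X x := fun i q => by
    rw [c.cl_smul, smul_smul, Rat.smul_def, mul_comm]
  simp only [h1]
  have h2 : ((b.repr a).sum fun i q => (q • b i) • c.cl X x) =
      ((b.repr a).sum fun i q => q • b i) • c.cl X x := by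
    rw [Finsupp.sum, Finsupp.sum, Finset.sum_smul]
  rw [h2]
  congr 1
  exact b.linearCombination_repr a

/-- Linear independence modulo numerical equivalence. -/
lemma indep_cl [Nontrivial (W.H X)] {κ : Type*} [Fintype κ] (x : κ → C.A X)
    (hx : LinearIndependent ℚ fun i => (numSub c X).mkQ (x i)) :
    LinearIndependent W.K fun i => (transcendental W X).mkQ (c.cl X (x i)) := by
  rw [Fintype.linearIndependent_iff]
  intro a ha
  let b := Module.Basis.ofVectorSpace ℚ W.K
  have h1 : ∑ i, a i • c.cl X (x i) ∈ transcendental W X := by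
    rw [← Submodule.Quotient.mk_eq_zero, ← Submodule.mkQ_apply, map_sum]
    simp only [map_smul]
    exact ha
  set m : _ →₀ C.A X := ∑ i, (b.repr (a i)).mapRange (fun q => q • x i) (zero_smul _ _) with hm
  have h2 : (m.sum fun j y => b j • c.cl X y) = ∑ i, a i • c.cl X (x i) := by
    have h3 : (m.sum fun j y => b j • c.cl X y) =
        ∑ i, (((b.repr (a i)).mapRange (fun q => q • x i) (zero_smul _ _)).sum
          fun j y => b j • c.cl X y) := by
      rw [hm]
      exact (Finsupp.sum_finsetSum_index (fun j => by rw [map_zero, smul_zero])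
        (fun j y z => by rw [map_add, smul_add])).symm
    rw [h3]
    exact Finset.sum_congr rfl fun i _ => sum_repr_cl c b (a i) (x i)
  rw [← h2] at h1
  have h4 := mem_numSub_of_sum c b h1
  intro i
  have h5 : ∀ j, b.repr (a i) j = 0 := by
    intro j
    have h6 := h4 j
    rw [hm, Finsupp.finsetSum_apply] at h6
    rw [← Submodule.Quotient.mk_eq_zero, ← Submodule.mkQ_apply, map_sum] at h6
    have h7 : ∑ i, (b.repr (a i) j) • (numSub c X).mkQ (x i) = 0 := by
      rw [← h6]
      apply Finset.sum_congr rfl
      intro i _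
      rw [Finsupp.mapRange_apply, map_smul]
    exact (Fintype.linearIndependent_iff.1 hx) _ h7 i
  have h8 : b.repr (a i) = 0 := Finsupp.ext h5
  exact (LinearEquiv.map_eq_zero_iff b.repr).1 h8

/-- The Chow ring modulo numerical equivalence has finite dimension. -/
lemma finite_quot [Nontrivial (W.H X)] : Module.Finite ℚ (C.A X ⧸ numSub c X) := by
  have h1 : Module.rank ℚ (C.A X ⧸ numSub c X) ≤
      (Module.finrank W.K (W.H X ⧸ transcendental W X) : ℕ) := by
    apply rank_le
    intro s hs
    choose x hx using fun i : s => Submodule.mkQ_surjective (numSub c X) (i : C.A X ⧸ numSub c X)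
    have h2 : LinearIndependent ℚ fun i : s => (numSub c X).mkQ (x i) := by
      simp only [hx]
      exact hs
    have h3 := (indep_cl c x h2).fintype_card_le_finrank
    rwa [Fintype.card_coe] at h3
  exact Module.rank_lt_aleph0_iff.1 (h1.trans_lt (Cardinal.natCast_lt_aleph0))

/-- The numerical rank is the dimension of the Chow ring modulo numerical equivalence. -/
theorem numRank_eq [Nontrivial (W.H X)] :
    numRank W X = Module.finrank ℚ (C.A X ⧸ numSub c X) := by
  have := finite_quot c (X := X)
  set β := Module.finBasis ℚ (C.A X ⧸ numSub c X) with hβ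
  choose x hx using fun i => Submodule.mkQ_surjective (numSub c X) (β i)
  set v : Fin (Module.finrank ℚ (C.A X ⧸ numSub c X)) → (W.H X ⧸ transcendental W X) :=
    fun i => (transcendental W X).mkQ (c.cl X (x i)) with hv
  have hind : LinearIndependent W.K v := indep_cl c x (by
    simp only [hx]
    exact β.linearIndependent)
  have hspan : Submodule.span W.K (Set.range v) =
      (algSpan W X).map (transcendental W X).mkQ := by
    apply le_antisymm
    · rw [Submodule.span_le]
      rintro _ ⟨i, rfl⟩
      exact ⟨_, c.cl_mem_algSpan (x i), rfl⟩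
    · rw [c.algSpan_eq, Submodule.map_span_le]
      rintro _ ⟨y, rfl⟩
      have h1 := β.sum_repr (Submodule.Quotient.mk y)
      have h2 : y - ∑ i, (β.repr (Submodule.Quotient.mk y) i) • x i ∈ numSub c X := by
        rw [← Submodule.Quotient.mk_eq_zero, Submodule.Quotient.mk_sub, sub_eq_zero, ← h1,
          ← Submodule.mkQ_apply (numSub c X) (∑ i, _), map_sum]
        apply Finset.sum_congr rfl
        intro i _
        rw [map_smul, hx, h1]
      rw [mem_numSub_iff, map_sub, map_sum, ← Submodule.Quotient.mk_eq_zero,
        ← Submodule.mkQ_apply, map_sub, sub_eq_zero] at h2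
      rw [h2, map_sum]
      apply Submodule.sum_mem
      intro i _
      rw [c.cl_smul, map_smul]
      exact Submodule.smul_mem _ _ (Submodule.subset_span ⟨i, rfl⟩)
  change Module.finrank W.K ((algSpan W X).map (transcendental W X).mkQ) = _
  rw [← hspan, finrank_span_eq_card hind, Fintype.card_fin]

include c in
/-- The dimension of the span of the algebraic classes is at most the dimension of the Chow
ring. -/
lemma finrank_algSpan_le [Module.Finite ℚ (C.A X)] :
    Module.finrank W.K (algSpan W X) ≤ Module.finrank ℚ (C.A X) := by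
  set β := Module.finBasis ℚ (C.A X) with hβ
  have h1 : algSpan W X ≤ Submodule.span W.K (Set.range fun i => c.cl X (β i)) := by
    rw [c.algSpan_eq, Submodule.span_le]
    rintro _ ⟨y, rfl⟩
    have h2 := congrArg (c.cl X) (β.sum_repr y)
    change c.cl X y ∈ Submodule.span W.K _
    rw [← h2, map_sum]
    apply Submodule.sum_mem
    intro i _
    rw [c.cl_smul]
    exact Submodule.smul_mem _ _ (Submodule.subset_span ⟨i, rfl⟩)
  refine (Submodule.finrank_mono h1).trans ?_
  exact (finrank_range_le_card (R := W.K) fun i => c.cl X (β i)).trans (by rw [Fintype.card_fin])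

end Pool.Agent.Y133.Chow
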