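import Pool.Agent.Y133.Chow.Conj
import Pool.Agent.Y133.Chow.Rank

/-!
# Many orthogonal idempotents from a numerically trivial one
-/

set_option linter.unusedSectionVars false

open CategoryTheory AlgebraicGeometry

universe u v w

namespace Pool.Agent.Y133.Chow

open Pool.Agent.H914 Pool.Agent.H914.VarClass Pool.Agent.H914.VarClass.Obj
  Pool.Agent.H914.WeilCohomology Pool.Agent.W492.BB Pool.Agent.Y129 Pool.Agent.TH133
  Pool.Agent.H281R3.HT
open Pool.Agent.W550.Corr (dg comp_eq_extR comp_dg dg_comp comp_assoc compL compL_apply HasIso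
  push_model)

variable {k : Type u} [Field k] {𝒱 : VarClass k} {ops : CycleOps 𝒱}
  {W : WeilCohomology.{u, v} ops} {C : TheoryData.{u, w, 0} 𝒱 ℚ} [hC : IsChowProj C]
  {c : ClassMap W C} {X Y Z V : 𝒱.Obj}


section alg

variable {A : Type*} [Ring A] [Algebra ℚ A] [Module.Finite ℚ A]

/-- Orthogonal idempotents. -/
lemma sum_finrank_le {n : ℕ} (f : Fin n → A) (h1 : ∀ i, f i * f i = f i)
    (h2 : ∀ i j, i ≠ j → f i * f j = 0) :
    ∑ i, Module.finrank ℚ (LinearMap.range (LinearMap.mulLeft ℚ (f i))) ≤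
      Module.finrank ℚ A := by
  rw [← Module.finrank_pi_fintype]
  let F : A →ₗ[ℚ] (∀ i, LinearMap.range (LinearMap.mulLeft ℚ (f i))) :=
    LinearMap.pi fun i => (LinearMap.mulLeft ℚ (f i)).rangeRestrict
  apply LinearMap.finrank_le_finrank_of_surjective (f := F)
  intro y
  choose a ha using fun i => (y i).2
  refine ⟨∑ j, f j * a j, ?_⟩
  funext i
  apply Subtype.ext
  change f i * ∑ j, f j * a j = (y i).1
  rw [← ha i, Finset.mul_sum, Finset.sum_eq_single i]
  · rw [← mul_assoc, h1, LinearMap.mulLeft_apply]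
  · intro j _ hj
    rw [← mul_assoc, h2 i j (Ne.symm hj), zero_mul]
  · simp

end alg

/-! ### External products and numerical triviality -/

lemma numSub_tens {a : C.A (X.prod X)} (ha : a ∈ numSub c _) (b : C.A (Y.prod Y)) :
    tens C a b ∈ numSub c _ := numSub_mul (numSub_pull _ ha) _

lemma numSub_tens' (a : C.A (X.prod X)) {b : C.A (Y.prod Y)} (hb : b ∈ numSub c _) :
    tens C a b ∈ numSub c _ := numSub_mul' (numSub_pull _ hb) _

/-- The external product of a nonzero element with an element which is not numerically trivial is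
not zero. -/
lemma numSub_of_tens [Nontrivial (W.H (Y.prod Y))] {e : C.A (X.prod X)} (he : e ≠ 0)
    {y : C.A (Y.prod Y)} (h : tens C e y = 0) : y ∈ numSub c (Y.prod Y) := by
  intro w
  obtain ⟨q, hq, hq'⟩ := c.exists_deg (y * w)
  rw [← map_mul (c.cl _), hq]
  have e1 : mid X Y X Y ≫ fst (X.prod X) (Y.prod Y) = prodMap (fst X Y) (fst X Y) := lift_fst _ _
  have e2 : mid X Y X Y ≫ snd (X.prod X) (Y.prod Y) = prodMap (snd X Y) (snd X Y) := lift_snd _ _
  have h1 : C.push (prodMap (fst X Y) (fst X Y)) (C.pull (prodMap (snd X Y) (snd X Y)) (y * w)) =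
      q • (1 : C.A (X.prod X)) := by
    rw [← hq' (X.prod X), push_model C (mid X Y X Y) (mid X X Y Y) (mid_mid _ _ _ _)
      (mid_mid _ _ _ _), ← C.pull_comp, e1, e2]
  have h2 : tens C e y * C.pull (prodMap (snd X Y) (snd X Y)) w =
      C.pull (prodMap (fst X Y) (fst X Y)) e *
        C.pull (prodMap (snd X Y) (snd X Y)) (y * w) := by
    rw [tens, mul_assoc, map_mul]
  rw [h, zero_mul] at h2
  have h3 := C.proj_left (prodMap (fst X Y) (fst X Y))
    (C.pull (prodMap (snd X Y) (snd X Y)) (y * w)) e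
  rw [← h2, map_zero, h1, mul_smul_comm, mul_one] at h3
  rcases smul_eq_zero.1 h3.symm with h4 | h4
  · rw [h4, Rat.cast_zero]
  · exact absurd h4 he

lemma tens_add_left (a a' : C.A (X.prod X)) (b : C.A (Y.prod Y)) :
    tens C (a + a') b = tens C a b + tens C a' b := by
  rw [tens, tens, tens, map_add, add_mul]

lemma tens_sub_left (a a' : C.A (X.prod X)) (b : C.A (Y.prod Y)) :
    tens C (a - a') b = tens C a b - tens C a' b := by
  rw [tens, tens, tens, map_sub, sub_mul]

lemma tens_sub_right (a : C.A (X.prod X)) (b b' : C.A (Y.prod Y)) :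
    tens C a (b - b') = tens C a b - tens C a b' := by
  rw [tens, tens, tens, map_sub, mul_sub]

lemma tens_comp'' (a a' : C.A (X.prod X)) (b b' : C.A (Y.prod Y)) :
    C.comp (tens C a b) (tens C a' b') = tens C (C.comp a a') (C.comp b b') :=
  tens_comp C (fun a b => chow_mul_comm a b) _ _ _ _

/-! ### The idempotents -/

/-- The idempotent `f` is, up to an automorphism of `Z × P`, the external product of `e` and an
idempotent which is numerically equal to the identity. -/
def GoodIdem (c : ClassMap W C) (Z P : 𝒱.Obj) (e : C.A (Z.prod Z)) (Q : 𝒱.Obj)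
    (f : C.A (Q.prod Q)) : Prop :=
  C.comp f f = f ∧ ∃ (φ : Z.prod P ≅ Q) (g : C.A (P.prod P)), C.comp g g = g ∧
    dg C P - g ∈ numSub c (P.prod P) ∧ conj φ f = tens C e g

section count

variable {e : C.A (Z.prod Z)}

lemma GoodIdem.base (he : C.comp e e = e) (P : 𝒱.Obj) :
    GoodIdem c Z P e (Z.prod P) (tens C e (dg C P)) := by
  refine ⟨?_, Iso.refl _, dg C P, comp_dg C _, ?_, ?_⟩
  · rw [tens_comp'', he, comp_dg]
  · rw [sub_self]; exact Submodule.zero_mem _
  · rw [conj_apply]
    have e1 : prodMap (Iso.refl (Z.prod P)).hom (Iso.refl (Z.prod P)).hom = 𝟙 _ := by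
      apply Pool.Agent.W550.Corr.prod_ext <;> simp
    rw [e1, C.pull_id]

lemma GoodIdem.step (he : C.comp e e = e) (hn : e ∈ numSub c _) {P Q : 𝒱.Obj}
    {f : C.A (Q.prod Q)} (hf : GoodIdem c Z P e Q f) :
    GoodIdem c Z (Z.prod P) e (Z.prod Q) (tens C (dg C Z - e) f) := by
  obtain ⟨h1, φ, g, h2, h3, h4⟩ := hf
  have he' : C.comp (dg C Z - e) (dg C Z - e) = dg C Z - e := by
    rw [Pool.Agent.W550.Corr.comp_sub, comp_dg, Pool.Agent.W550.Corr.sub_comp, dg_comp, he,
      sub_self, sub_zero]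
  refine ⟨?_, (exch Z Z P).trans (prodR Z φ), tens C (dg C Z - e) g, ?_, ?_, ?_⟩
  · rw [tens_comp'', he', h1]
  · rw [tens_comp'', he', h2]
  · rw [← tens_dg C, tens_sub_left]
    have h5 : tens C (dg C Z) (dg C P) - (tens C (dg C Z) g - tens C e g) =
        tens C (dg C Z) (dg C P - g) + tens C e g := by
      rw [tens_sub_right]; abel
    rw [h5]
    exact Submodule.add_mem _ (numSub_tens' _ h3) (numSub_tens hn _)
  · rw [conj_trans, conj_prodR, h4, conj_exch]

omit hC in
/-- The composition with `f`. -/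
noncomputable def mulBy (C : TheoryData.{u, w, 0} 𝒱 ℚ) {Q : 𝒱.Obj} (f : C.A (Q.prod Q)) :
    C.A (Q.prod Q) →ₗ[ℚ] C.A (Q.prod Q) :=
  (compL C (X := Q) (Y := Q) (Z := Q)).flip f

omit hC in
lemma mulBy_apply {Q : 𝒱.Obj} (f x : C.A (Q.prod Q)) : mulBy C f x = C.comp x f := rfl

/-- The dimension of the ideal generated by a good idempotent. -/
lemma GoodIdem.le_finrank (he : C.comp e e = e) (he0 : e ≠ 0) {P Q : 𝒱.Obj}
    [Nontrivial (W.H (P.prod P))] [Module.Finite ℚ (C.A (P.prod P))]
    [Module.Finite ℚ (C.A (Q.prod Q))] {f : C.A (Q.prod Q)} (hf : GoodIdem c Z P e Q f) :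
    Module.finrank ℚ (C.A (P.prod P) ⧸ numSub c (P.prod P)) ≤
      Module.finrank ℚ (LinearMap.range (mulBy C f)) := by
  obtain ⟨h1, φ, g, h2, h3, h4⟩ := hf
  let θ : C.A (P.prod P) →ₗ[ℚ] C.A (Q.prod Q) :=
    mulBy C f ∘ₗ conj φ.symm ∘ₗ tensL (C := C) e
  have hker : LinearMap.ker θ ≤ numSub c (P.prod P) := by
    intro y hy
    have h50 : θ y = 0 := LinearMap.mem_ker.1 hy
    have h5 : C.comp (conj φ.symm (tens C e y)) f = 0 := h50
    have h6 := congrArg (conj φ) h5
    rw [conj_comp, conj_symm, h4, tens_comp'', he, map_zero] at h6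
    have h7 := numSub_of_tens (c := c) he0 h6
    have h8 : y = C.comp y g + C.comp y (dg C P - g) := by
      rw [← Pool.Agent.W550.Corr.comp_add, add_sub_cancel, comp_dg]
    rw [h8]
    exact Submodule.add_mem _ h7 (numSub_comp' _ h3)
  have h5 : LinearMap.range θ ≤ LinearMap.range (mulBy C f) :=
    LinearMap.range_comp_le_range _ _
  have h6 := LinearMap.finrank_range_add_finrank_ker θ
  have h7 := Submodule.finrank_quotient_add_finrank (numSub c (P.prod P))
  have h8 : Module.finrank ℚ (LinearMap.ker θ) ≤ Module.finrank ℚ (numSub c (P.prod P)) :=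
    Submodule.finrank_mono hker
  have h9 : Module.finrank ℚ (LinearMap.range θ) ≤
      Module.finrank ℚ (LinearMap.range (mulBy C f)) :=
    Submodule.finrank_mono h5
  omega

/-- There are many orthogonal good idempotents. -/
lemma exists_family (he : C.comp e e = e) (hn : e ∈ numSub c _) (k : ℕ) :
    ∃ f : Fin (k + 1) → C.A ((pw Z (k + 1)).prod (pw Z (k + 1))),
      (∀ i, GoodIdem c Z (pw Z k) e (pw Z (k + 1)) (f i)) ∧
      ∀ i j, i ≠ j → C.comp (f i) (f j) = 0 := by
  have hd : C.comp e (dg C Z - e) = 0 := by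
    rw [Pool.Agent.W550.Corr.comp_sub, comp_dg, he, sub_self]
  have hd' : C.comp (dg C Z - e) e = 0 := by
    rw [Pool.Agent.W550.Corr.sub_comp, dg_comp, he, sub_self]
  induction k with
  | zero =>
    refine ⟨fun _ => tens C e (dg C Z), fun _ => GoodIdem.base he Z, fun i j hij => ?_⟩
    exact absurd (by omega) hij
  | succ k ih =>
    obtain ⟨f, hf, hf'⟩ := ih
    let a : C.A ((pw Z (k + 1 + 1)).prod (pw Z (k + 1 + 1))) := tens C e (dg C (pw Z (k + 1)))
    let b : Fin (k + 1) → C.A ((pw Z (k + 1 + 1)).prod (pw Z (k + 1 + 1))) :=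
      fun i => tens C (dg C Z - e) (f i)
    have hab : ∀ i, C.comp a (b i) = 0 := by
      intro i
      have h1 := tens_comp'' (C := C) e (dg C Z - e) (dg C (pw Z (k + 1))) (f i)
      rw [hd] at h1
      refine h1.trans ?_
      rw [tens, map_zero, zero_mul]
      rfl
    have hba : ∀ i, C.comp (b i) a = 0 := by
      intro i
      have h1 := tens_comp'' (C := C) (dg C Z - e) e (f i) (dg C (pw Z (k + 1)))
      rw [hd'] at h1
      refine h1.trans ?_
      rw [tens, map_zero, zero_mul]
      rfl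
    have hbb : ∀ i j, i ≠ j → C.comp (b i) (b j) = 0 := by
      intro i j hij
      have h1 := tens_comp'' (C := C) (dg C Z - e) (dg C Z - e) (f i) (f j)
      rw [hf' i j hij] at h1
      refine h1.trans ?_
      rw [tens, map_zero, mul_zero]
      rfl
    refine ⟨Fin.cons a b, ?_, ?_⟩
    · intro i
      refine Fin.cases ?_ (fun i => ?_) i
      · rw [Fin.cons_zero]
        exact GoodIdem.base he (pw Z (k + 1))
      · rw [Fin.cons_succ]
        exact GoodIdem.step he hn (hf i)
    · intro i j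
      refine Fin.cases ?_ (fun i => ?_) i
      · refine Fin.cases ?_ (fun j => ?_) j
        · intro hij
          exact absurd rfl hij
        · intro _
          rw [Fin.cons_zero, Fin.cons_succ]
          exact hab j
      · refine Fin.cases ?_ (fun j => ?_) j
        · intro _
          rw [Fin.cons_zero, Fin.cons_succ]
          exact hba i
        · intro hij
          rw [Fin.cons_succ, Fin.cons_succ]
          exact hbb i j fun h => hij (by rw [h])

/-- The lower bound for the dimensions. -/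
theorem mul_le_finrank (he : C.comp e e = e) (he0 : e ≠ 0) (hn : e ∈ numSub c _) (k : ℕ)
    [Nontrivial (W.H ((pw Z k).prod (pw Z k)))]
    [Module.Finite ℚ (C.A ((pw Z k).prod (pw Z k)))]
    [Module.Finite ℚ (C.A ((pw Z (k + 1)).prod (pw Z (k + 1))))] :
    (k + 1) * numRank W ((pw Z k).prod (pw Z k)) ≤
      Module.finrank ℚ (C.A ((pw Z (k + 1)).prod (pw Z (k + 1)))) := by
  obtain ⟨f, hf, hf'⟩ := exists_family he hn k
  have hfin : Module.Finite ℚ (Cor C (pw Z (k + 1))) :=
    ‹Module.Finite ℚ (C.A ((pw Z (k + 1)).prod (pw Z (k + 1))))›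
  have h1 : ∑ i, Module.finrank ℚ (LinearMap.range (mulBy C (f i))) ≤
      Module.finrank ℚ (C.A ((pw Z (k + 1)).prod (pw Z (k + 1)))) :=
    sum_finrank_le (A := Cor C (pw Z (k + 1))) f (fun i => (hf i).1)
      (fun i j hij => hf' j i hij.symm)
  have h2 : ∀ i, numRank W ((pw Z k).prod (pw Z k)) ≤
      Module.finrank ℚ (LinearMap.range (mulBy C (f i))) := by
    intro i
    rw [numRank_eq c]
    exact (hf i).le_finrank he he0
  have h3 := Finset.sum_le_sum fun i (_ : i ∈ Finset.univ) => h2 i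
  rw [Finset.sum_const, Finset.card_univ, Fintype.card_fin, smul_eq_mul] at h3
  exact h3.trans h1

end count

end Pool.Agent.Y133.Chow
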