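import Pool.Agent.Y133.Chow.Base
import Pool.Agent.TH133.Base

/-!
# Conjugation of correspondences by isomorphisms, external products
-/

set_option linter.unusedSectionVars false

open CategoryTheory AlgebraicGeometry

universe u v w

namespace Pool.Agent.Y133.Chow

open Pool.Agent.H914 Pool.Agent.H914.VarClass Pool.Agent.H914.VarClass.Obj
  Pool.Agent.H914.WeilCohomology Pool.Agent.W492.BB Pool.Agent.Y129 Pool.Agent.TH133
  Pool.Agent.H281R3.HT
open Pool.Agent.W550.Corr (dg comp_eq_extR comp_dg dg_comp comp_assoc compL compL_apply HasIso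
  push_model extR_graph pull_iso comp_lift)

variable {k : Type u} [Field k] {𝒱 : VarClass k} {ops : CycleOps 𝒱}
  {W : WeilCohomology.{u, v} ops} {C : TheoryData.{u, w, 0} 𝒱 ℚ} [hC : IsChowProj C]
  {X Y Z V : 𝒱.Obj}


/-- Composition with a graph. -/
lemma comp_graph (Γ : C.A (X.prod Y)) (f : Y ⟶ Z) :
    C.comp Γ (C.graph f) = C.push (prodMap (𝟙 X) f) Γ := by
  rw [comp_eq_extR, extR_graph]

lemma graph_comp (f : X ⟶ Y) (Γ : C.A (Y.prod Z)) :
    C.comp (C.graph f) Γ = C.pull (prodMap f (𝟙 Z)) Γ := by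
  rw [TheoryData.comp, TheoryData.graph, C.base_fst, ← C.proj_left, ← C.push_comp, map_one,
    mul_one, ← C.pull_comp]
  have e1 : prodMap (Obj.lift (𝟙 X) f) (𝟙 Z) ≫ t13 X Y Z = 𝟙 _ := by
    apply Pool.Agent.W550.Corr.prod_ext <;> simp [t13]
  have e2 : prodMap (Obj.lift (𝟙 X) f) (𝟙 Z) ≫ t23 X Y Z = prodMap f (𝟙 Z) := by
    apply Pool.Agent.W550.Corr.prod_ext <;> simp [t23]
  rw [e1, e2, C.push_id]

/-- The conjugate of a self-correspondence by an isomorphism. -/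
noncomputable def conj (φ : X ≅ Y) : C.A (Y.prod Y) →ₗ[ℚ] C.A (X.prod X) :=
  (C.pull (prodMap φ.hom φ.hom)).toLinearMap

lemma conj_apply (φ : X ≅ Y) (x : C.A (Y.prod Y)) :
    conj (C := C) φ x = C.pull (prodMap φ.hom φ.hom) x := rfl

lemma conj_eq (φ : X ≅ Y) (x : C.A (Y.prod Y)) :
    conj φ x = C.comp (C.comp (C.graph φ.hom) x) (C.graph φ.inv) := by
  have e1 : prodMap (𝟙 X) φ.inv ≫ prodMap (𝟙 X) φ.hom = 𝟙 _ := by
    apply Pool.Agent.W550.Corr.prod_ext <;> simp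
  have e2 : prodMap (𝟙 X) φ.hom ≫ prodMap (𝟙 X) φ.inv = 𝟙 _ := by
    apply Pool.Agent.W550.Corr.prod_ext <;> simp
  have e3 : prodMap (𝟙 X) φ.hom ≫ prodMap φ.hom (𝟙 Y) = prodMap φ.hom φ.hom := by
    apply Pool.Agent.W550.Corr.prod_ext <;> simp
  rw [comp_graph, graph_comp, ← pull_iso C (prodMap (𝟙 X) φ.hom) (prodMap (𝟙 X) φ.inv) e2 e1,
    ← C.pull_comp, e3, conj_apply]

lemma conj_comp (φ : X ≅ Y) (x y : C.A (Y.prod Y)) :
    conj φ (C.comp x y) = C.comp (conj φ x) (conj φ y) := by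
  have h1 : C.comp (C.graph φ.inv) (C.graph φ.hom) = dg C Y := by
    rw [comp_graph, TheoryData.graph, ← C.push_comp, lift_prodMap, Category.id_comp,
      φ.inv_hom_id]
    rfl
  rw [conj_eq, conj_eq, conj_eq, comp_assoc C (C.comp (C.graph φ.hom) x) (C.graph φ.inv),
    ← comp_assoc C (C.graph φ.inv), ← comp_assoc C (C.graph φ.inv), h1, dg_comp,
    ← comp_assoc C (C.graph φ.hom) x y, comp_assoc C (C.comp (C.graph φ.hom) x) y]

lemma conj_trans (φ : X ≅ Y) (ψ : Y ≅ Z) (x : C.A (Z.prod Z)) :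
    conj (φ.trans ψ) x = conj φ (conj ψ x) := by
  rw [conj_apply, conj_apply, conj_apply, ← C.pull_comp, prodMap_comp]
  rfl

lemma conj_symm (φ : X ≅ Y) (x : C.A (X.prod X)) : conj φ (conj φ.symm x) = x := by
  rw [conj_apply, conj_apply, ← C.pull_comp, prodMap_comp]
  have e1 : prodMap (φ.hom ≫ φ.symm.hom) (φ.hom ≫ φ.symm.hom) = 𝟙 (X.prod X) := by
    apply Pool.Agent.W550.Corr.prod_ext <;> simp
  rw [e1, C.pull_id]

/-- The product of an isomorphism with an identity. -/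
noncomputable def prodR (X : 𝒱.Obj) {Y Z : 𝒱.Obj} (φ : Y ≅ Z) : X.prod Y ≅ X.prod Z where
  hom := prodMap (𝟙 X) φ.hom
  inv := prodMap (𝟙 X) φ.inv
  hom_inv_id := by apply Pool.Agent.W550.Corr.prod_ext <;> simp
  inv_hom_id := by apply Pool.Agent.W550.Corr.prod_ext <;> simp

lemma conj_prodR (φ : Y ≅ Z) (a : C.A (X.prod X)) (b : C.A (Z.prod Z)) :
    conj (prodR X φ) (tens C a b) = tens C a (conj φ b) := by
  rw [conj_apply, tens, tens, map_mul, conj_apply, ← C.pull_comp, ← C.pull_comp, ← C.pull_comp]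
  have e1 : prodMap (prodR X φ).hom (prodR X φ).hom ≫ prodMap (fst X Z) (fst X Z) =
      prodMap (fst X Y) (fst X Y) := by
    rw [prodMap_comp]
    apply Pool.Agent.W550.Corr.prod_ext <;> simp [prodR]
  have e2 : prodMap (prodR X φ).hom (prodR X φ).hom ≫ prodMap (snd X Z) (snd X Z) =
      prodMap (snd X Y) (snd X Y) ≫ prodMap φ.hom φ.hom := by
    rw [prodMap_comp, prodMap_comp]
    apply Pool.Agent.W550.Corr.prod_ext <;> simp [prodR]
  rw [e1, e2]

/-- The exchange of the first two factors of `X × (Y × Z)`. -/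
noncomputable def exch (X Y Z : 𝒱.Obj) : X.prod (Y.prod Z) ≅ Y.prod (X.prod Z) where
  hom := Obj.lift (snd X (Y.prod Z) ≫ fst Y Z)
    (Obj.lift (fst X (Y.prod Z)) (snd X (Y.prod Z) ≫ snd Y Z))
  inv := Obj.lift (snd Y (X.prod Z) ≫ fst X Z)
    (Obj.lift (fst Y (X.prod Z)) (snd Y (X.prod Z) ≫ snd X Z))
  hom_inv_id := by
    apply Pool.Agent.W550.Corr.prod_ext
    · simp [comp_lift]
    · apply Pool.Agent.W550.Corr.prod_ext <;> simp [comp_lift]
  inv_hom_id := by
    apply Pool.Agent.W550.Corr.prod_ext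
    · simp [comp_lift]
    · apply Pool.Agent.W550.Corr.prod_ext <;> simp [comp_lift]

lemma conj_exch (a : C.A (X.prod X)) (b : C.A (Y.prod Y)) (d : C.A (Z.prod Z)) :
    conj (exch X Y Z) (tens C b (tens C a d)) = tens C a (tens C b d) := by
  rw [conj_apply]
  simp only [tens, map_mul]
  simp only [← C.pull_comp]
  have e1 : prodMap (exch X Y Z).hom (exch X Y Z).hom ≫ prodMap (fst Y (X.prod Z))
      (fst Y (X.prod Z)) = prodMap (snd X (Y.prod Z)) (snd X (Y.prod Z)) ≫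
        prodMap (fst Y Z) (fst Y Z) := by
    rw [prodMap_comp, prodMap_comp]
    apply Pool.Agent.W550.Corr.prod_ext <;> simp [exch]
  have e2 : (prodMap (exch X Y Z).hom (exch X Y Z).hom ≫ prodMap (snd Y (X.prod Z))
      (snd Y (X.prod Z))) ≫ prodMap (fst X Z) (fst X Z) =
        prodMap (fst X (Y.prod Z)) (fst X (Y.prod Z)) := by
    rw [prodMap_comp, prodMap_comp]
    apply Pool.Agent.W550.Corr.prod_ext <;> simp [exch]
  have e3 : (prodMap (exch X Y Z).hom (exch X Y Z).hom ≫ prodMap (snd Y (X.prod Z))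
      (snd Y (X.prod Z))) ≫ prodMap (snd X Z) (snd X Z) =
        prodMap (snd X (Y.prod Z)) (snd X (Y.prod Z)) ≫ prodMap (snd Y Z) (snd Y Z) := by
    rw [prodMap_comp, prodMap_comp, prodMap_comp]
    apply Pool.Agent.W550.Corr.prod_ext <;> simp [exch]
  rw [Category.assoc] at e2 e3
  rw [e1, e2, e3]
  rw [← mul_assoc, ← mul_assoc]
  congr 1
  exact chow_mul_comm _ _

end Pool.Agent.Y133.Chow
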