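import Pool.Agent.TH133.Defs
import Pool.Agent.Y133.Half.DDefs
import Pool.Agent.Y129.Defs
import Pool.Agent.Y129.GDefs

/-!
# Cycles modulo rational equivalence on the powers of a variety: definitions
-/

open CategoryTheory AlgebraicGeometry Filter Topology

open scoped ENNReal

universe u v w

namespace Pool.Agent.Y133.Chow

open Pool.Agent.H914

section Alg

variable {K A A' B B' : Type*} [Field K] [Ring A] [Algebra ℚ A] [Ring A'] [Algebra ℚ A'] [Ring B]
  [Algebra K B] [Ring B'] [Algebra K B']

/-- The homomorphisms `c` and `c'` are compatible with the homomorphisms of algebras `f`, `g`. -/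
def PullCompat (c : A →+* B) (c' : A' →+* B') (f : A →ₐ[ℚ] A') (g : B →ₐ[K] B') : Prop :=
  ∀ x, c' (f x) = g (c x)

/-- The homomorphisms `c` and `c'` are compatible with the linear maps `f`, `g`. -/
def PushCompat (c : A →+* B) (c' : A' →+* B') (f : A →ₗ[ℚ] A') (g : B →ₗ[K] B') : Prop :=
  ∀ x, c' (f x) = g (c x)

/-- The values of `c` on the subspace `S` are the elements of `s`. -/
def ImageEq (c : A →+* B) (S : Submodule ℚ A) (s : Set B) : Prop := c '' S = s

/-- The value of `tr` on the products of the image of `x` with the images of all elements is zero. -/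
def Orth (tr : B →ₗ[K] K) (c : A →+* B) (x : A) : Prop := ∀ y, tr (c x * c y) = 0

/-- The dimension of a rational vector space, an element of `ℕ ∪ {∞}`. -/
noncomputable def rankOf (A : Type*) [Ring A] [Algebra ℚ A] : ℕ∞ :=
  Cardinal.toENat (Module.rank ℚ A)

end Alg

open Pool.Agent.H914.VarClass Pool.Agent.H914.VarClass.Obj
  Pool.Agent.H914.WeilCohomology Pool.Agent.W492.BB
open Pool.Agent.Y133.Half (cycRank)
open Pool.Agent.Y129 (pw)

variable {k : Type u} [Field k] {𝒱 : VarClass k} {ops : CycleOps 𝒱}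

/-- Classes in the cohomology `W` for the theory `C` (rational Chow groups): ring homomorphisms
compatible with pull-backs and push-forwards such that the classes of the elements of `C^p(X)` are
the classes of the cycles of codimension `p` on `X`. -/
structure ClassMap (W : WeilCohomology.{u, v} ops) (C : TheoryData.{u, w, 0} 𝒱 ℚ) where
  /-- the class of an element -/
  cl : ∀ X : 𝒱.Obj, C.A X →+* W.H X
  pull : ∀ {X Y : 𝒱.Obj} (f : X ⟶ Y), PullCompat (cl Y) (cl X) (C.pull f) (W.map f)
  push : ∀ {X Y : 𝒱.Obj} (f : X ⟶ Y), PushCompat (cl X) (cl Y) (C.push f) (W.push f)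
  image : ∀ (X : 𝒱.Obj) (p : ℕ), ImageEq (cl X) (C.gr X p) {c | ∃ z, X.IsCyc p z ∧ W.cl X z = c}

variable {W : WeilCohomology.{u, v} ops} {C : TheoryData.{u, w, 0} 𝒱 ℚ}

/-- The element `x` of `C(X)` is numerically trivial: the intersection numbers of `x` with all
elements of `C(X)` are zero. -/
def NumTrivial (c : ClassMap W C) (X : 𝒱.Obj) (x : C.A X) : Prop := Orth (W.tr X) (c.cl X) x

/-- The dimension of the rational vector space `C(X)`, an element of `ℕ ∪ {∞}`. -/
noncomputable def chowDim (C : TheoryData.{u, w, 0} 𝒱 ℚ) (X : 𝒱.Obj) : ℕ∞ := rankOf (C.A X)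

/-- The external product `x × (x × ⋯ × x)` with `n + 1` factors. -/
noncomputable def extPow (C : TheoryData.{u, w, 0} 𝒱 ℚ) {Y : 𝒱.Obj} (x : C.A Y) :
    (n : ℕ) → C.A (pw Y n)
  | 0 => x
  | n + 1 => C.ext x (extPow C x n)

/-- All numerically trivial elements on all powers of `X` are zero. -/
def NumTrivialZero (c : ClassMap W C) (X : 𝒱.Obj) : Prop :=
  ∀ n x, NumTrivial c (pw X n) x → x = 0

/-- For all numerically trivial elements `x` on all powers of `X` the external product
`x × x × ⋯ × x` with `N` factors is zero. -/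
def SmashNilpotent (c : ClassMap W C) (X : 𝒱.Obj) (N : ℕ∞) : Prop :=
  ∀ r : ℕ, N ≤ r + 1 → ∀ n x, NumTrivial c (pw X n) x → extPow C x r = 0

/-- The quotients of the dimension of `C(X ^ (n + 1))` and of the dimension of the space of cycles
on `X ^ (n + 1)` modulo numerical equivalence converge to `N`. -/
def HasChowIndex (ops : CycleOps 𝒱) (C : TheoryData.{u, w, 0} 𝒱 ℚ) (X : 𝒱.Obj) (N : ℕ∞) : Prop :=
  Tendsto (fun n => (chowDim C (pw X n) : ℝ≥0∞) / cycRank ops (pw X n)) atTop (𝓝 (N : ℝ≥0∞))

end Pool.Agent.Y133.Chow
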