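import Pool.Agent.Y133.Chow.FBase

/-!
# Frobenius, the Tate conjecture and numerically trivial elements
-/

set_option linter.unusedSectionVars false

open CategoryTheory AlgebraicGeometry TensorProduct Filter Topology Polynomial

open scoped ENNReal

universe u v w

namespace Pool.Agent.Y133.Chow

open Pool.Agent.H914 Pool.Agent.H914.VarClass Pool.Agent.H914.VarClass.Obj
  Pool.Agent.H914.WeilCohomology Pool.Agent.W492.BB Pool.Agent.Y129 Pool.Agent.TH133
  Pool.Agent.H281R3.HT Pool.Agent.W536.RR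
open Pool.Agent.Y133.Crys (Frobenii Acts frob Tate TateClass poleOrder Fl)

variable {k : Type u} [Field k] {𝒱 : VarClass k} {ops : CycleOps 𝒱}
  {W : WeilCohomology.{u, v} ops} {C : TheoryData.{u, w, 0} 𝒱 ℚ} [hC : IsChowProj C]
  (c : ClassMap W C) {φ : Frobenii 𝒱} {q : ℕ} {X Y Z : 𝒱.Obj}

/-! ### Eigenvectors of the Frobenius endomorphism on the cohomology -/

omit hC in
lemma proj_frob (i : ℕ) (x : W.H X) : Pool.Agent.H914.proj (W.isInternal X) i (frob φ W X x) =
    frob φ W X (Pool.Agent.H914.proj (W.isInternal X) i x) := by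
  refine gr_induction (W.isInternal X) (p := fun x =>
    Pool.Agent.H914.proj (W.isInternal X) i (frob φ W X x) =
    frob φ W X (Pool.Agent.H914.proj (W.isInternal X) i x)) ?_ ?_ x
  · intro j a ha
    have h1 : frob φ W X a ∈ W.gr X j := W.map_mem _ ha
    by_cases hj : j = i
    · subst hj
      rw [proj_same _ h1, proj_same _ ha]
    · rw [proj_ne _ h1 hj, proj_ne _ ha hj, map_zero]
  · intro a b ha hb
    rw [map_add, map_add, map_add, map_add, ha, hb]

omit hC in
lemma eigen_mem (h : ChowActs φ q W C) {p : ℕ} {x : W.H X}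
    (hx : frob φ W X x = ((q : W.K) ^ p) • x) : x ∈ W.gr X (2 * p) := by
  have h1 : ∀ i, i ≠ 2 * p → Pool.Agent.H914.proj (W.isInternal X) i x = 0 := by
    intro i hi
    apply h.weight X i p hi _ (proj_mem (W.isInternal X) i x)
    rw [← proj_frob, hx, map_smul]
  have h2 := sum_proj (W.isInternal X) (N := 2 * X.dim + 1)
    (fun i hi => W.gr_eq_bot X i (by omega))
  have h3 := congrArg (fun f : Module.End W.K (W.H X) => f x) h2
  simp only [LinearMap.sum_apply, Module.End.one_apply] at h3
  have h4 : ∑ i ∈ Finset.range (2 * X.dim + 1), Pool.Agent.H914.proj (W.isInternal X) i x ∈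
      W.gr X (2 * p) := by
    apply Submodule.sum_mem
    intro i _
    by_cases hi : i = 2 * p
    · rw [← hi]
      exact proj_mem (W.isInternal X) i x
    · rw [h1 i hi]
      exact Submodule.zero_mem _
  rwa [h3] at h4

/-! ### The span of the classes -/

/-- The span of the classes of the elements of `V`. -/
def spanCl (c : ClassMap W C) {X : 𝒱.Obj} (V : Submodule ℚ (C.A X)) : Submodule W.K (W.H X) :=
  Submodule.span W.K (c.cl X '' V)

omit hC in
lemma spanCl_eq (p : ℕ) : spanCl c (C.gr X p) = spanCycles W X p := by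
  have h1 : (c.cl X '' (C.gr X p : Submodule ℚ (C.A X))) =
      {a | ∃ z, X.IsCyc p z ∧ W.cl X z = a} := c.image X p
  rw [spanCl, h1, spanCycles]
  congr 1
  ext a
  constructor
  · rintro ⟨z, hz, rfl⟩
    exact ⟨p, rfl, z, hz, rfl⟩
  · rintro ⟨p', hp', z, hz, rfl⟩
    have h2 : p' = p := by exact_mod_cast hp'
    subst h2
    exact ⟨z, hz, rfl⟩

/-- The span of the products `a × b` with `a ∈ C^i(X)`, `b ∈ C^j(Y)`. -/
noncomputable def prodSpan (C : TheoryData.{u, w, 0} 𝒱 ℚ) (X Y : 𝒱.Obj) (i j : ℕ) :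
    Submodule ℚ (C.A (X.prod Y)) :=
  Submodule.span ℚ {s | ∃ a ∈ C.gr X i, ∃ b ∈ C.gr Y j,
    s = C.pull (fst X Y) a * C.pull (snd X Y) b}

omit hC in
lemma mul_mem_spanCl {i j : ℕ} {a : W.H X} (ha : a ∈ spanCl c (C.gr X i)) {b : W.H Y}
    (hb : b ∈ spanCl c (C.gr Y j)) :
    W.map (fst X Y) a * W.map (snd X Y) b ∈ spanCl c (prodSpan C X Y i j) := by
  induction ha using Submodule.span_induction with
  | mem a ha =>
    obtain ⟨a, ha, rfl⟩ := ha
    induction hb using Submodule.span_induction with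
    | mem b hb =>
      obtain ⟨b, hb, rfl⟩ := hb
      rw [← c.cl_pull, ← c.cl_pull, ← map_mul]
      exact Submodule.subset_span ⟨_, Submodule.subset_span ⟨a, ha, b, hb, rfl⟩, rfl⟩
    | zero => rw [map_zero, mul_zero]; exact Submodule.zero_mem _
    | add x y _ _ hx hy => rw [map_add, mul_add]; exact Submodule.add_mem _ hx hy
    | smul r x _ hx => rw [map_smul, mul_smul_comm]; exact Submodule.smul_mem _ _ hx
  | zero => rw [map_zero, zero_mul]; exact Submodule.zero_mem _
  | add x y _ _ hx hy => rw [map_add, add_mul]; exact Submodule.add_mem _ hx hy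
  | smul r x _ hx => rw [map_smul, smul_mul_assoc]; exact Submodule.smul_mem _ _ hx

/-- Elements whose classes lie in the span of the classes of the elements of `S` are congruent to
elements of `S` modulo numerical equivalence. -/
lemma exists_of_mem_spanCl [Nontrivial (W.H Z)] {S : Submodule ℚ (C.A Z)} {e : C.A Z}
    (he : c.cl Z e ∈ spanCl c S) : ∃ s ∈ S, e - s ∈ numSub c Z := by
  classical
  let b := Module.Free.chooseBasis ℚ W.K
  have key : ∀ (r : W.K) (s : C.A Z), ∃ m : Module.Free.ChooseBasisIndex ℚ W.K →₀ C.A Z,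
      (∀ i, m i = b.repr r i • s) ∧ r • c.cl Z s = m.sum fun i x => b i • c.cl Z x := by
    intro r s
    refine ⟨(b.repr r).mapRange (fun t => t • s) (zero_smul _ _), fun i => rfl, ?_⟩
    rw [Finsupp.sum_mapRange_index (fun i => by rw [map_zero, smul_zero])]
    have h1 : ∀ i (t : ℚ), b i • c.cl Z (t • s) = (t • b i) • c.cl Z s := fun i t => by
      rw [c.cl_smul, smul_smul, Rat.smul_def, mul_comm]
    simp only [h1]
    have h2 : ((b.repr r).sum fun i t => (t • b i) • c.cl Z s) =
        ((b.repr r).sum fun i t => t • b i) • c.cl Z s := by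
      rw [Finsupp.sum, Finsupp.sum, Finset.sum_smul]
    rw [h2]
    congr 1
    exact (b.linearCombination_repr r).symm
  have hadd : ∀ m m' : Module.Free.ChooseBasisIndex ℚ W.K →₀ C.A Z,
      (m + m').sum (fun i x => b i • c.cl Z x) =
      m.sum (fun i x => b i • c.cl Z x) + m'.sum (fun i x => b i • c.cl Z x) := fun m m' =>
    Finsupp.sum_add_index' (fun i => by rw [map_zero, smul_zero])
      (fun i x y => by rw [map_add, smul_add])
  obtain ⟨m, hm, hm'⟩ : ∃ m : Module.Free.ChooseBasisIndex ℚ W.K →₀ C.A Z,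
      (∀ i, m i ∈ S) ∧ c.cl Z e = m.sum fun i x => b i • c.cl Z x := by
    have h0 : ∀ x ∈ spanCl c S, ∀ r : W.K, ∃ m : Module.Free.ChooseBasisIndex ℚ W.K →₀ C.A Z,
        (∀ i, m i ∈ S) ∧ r • x = m.sum fun i x => b i • c.cl Z x := by
      intro x hx
      induction hx using Submodule.span_induction with
      | mem x hx =>
        obtain ⟨s, hs, rfl⟩ := hx
        intro r
        obtain ⟨m, h1, h2⟩ := key r s
        exact ⟨m, fun i => by rw [h1]; exact Submodule.smul_mem _ _ hs, h2⟩
      | zero =>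
        intro r
        exact ⟨0, fun i => Submodule.zero_mem _, by rw [smul_zero, Finsupp.sum_zero_index]⟩
      | add x y _ _ hx hy =>
        intro r
        obtain ⟨m, h1, h2⟩ := hx r
        obtain ⟨m', h1', h2'⟩ := hy r
        exact ⟨m + m', fun i => Submodule.add_mem _ (h1 i) (h1' i), by
          rw [smul_add, h2, h2', hadd]⟩
      | smul t x _ hx =>
        intro r
        obtain ⟨m, h1, h2⟩ := hx (r * t)
        exact ⟨m, h1, by rw [smul_smul, h2]⟩
    obtain ⟨m, h1, h2⟩ := h0 _ he 1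
    rw [one_smul] at h2
    exact ⟨m, h1, h2⟩
  obtain ⟨m', h1, h2⟩ := key 1 e
  rw [one_smul] at h2
  have hsub : ∀ m m' : Module.Free.ChooseBasisIndex ℚ W.K →₀ C.A Z,
      (m - m').sum (fun i x => b i • c.cl Z x) =
      m.sum (fun i x => b i • c.cl Z x) - m'.sum (fun i x => b i • c.cl Z x) := fun m m' => by
    have h3 := hadd (m - m') m'
    rw [sub_add_cancel] at h3
    exact eq_sub_of_add_eq h3.symm
  have h3 : ((m' - m).sum fun i x => b i • c.cl Z x) ∈ transcendental W Z := by
    rw [hsub, ← h2, ← hm', sub_self]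
    exact Submodule.zero_mem _
  have h4 := mem_numSub_of_sum c b h3
  obtain ⟨i, hi⟩ : ∃ i, b.repr 1 i ≠ 0 := by
    by_contra h5
    push Not at h5
    have h6 : b.repr 1 = 0 := Finsupp.ext h5
    exact one_ne_zero ((LinearEquiv.map_eq_zero_iff _).1 h6)
  refine ⟨(b.repr 1 i)⁻¹ • m i, Submodule.smul_mem _ _ (hm i), ?_⟩
  have h5 := (numSub c Z).smul_mem (b.repr 1 i)⁻¹ (h4 i)
  rw [Finsupp.sub_apply, h1, smul_sub, smul_smul, inv_mul_cancel₀ hi, one_smul] at h5
  exact h5

end Pool.Agent.Y133.Chow
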