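import Pool.Agent.Y133.Chow.Frob

/-!
# Tate's conjecture, nilpotence and rational equivalence
-/

set_option linter.unusedSectionVars false

open CategoryTheory AlgebraicGeometry TensorProduct Filter Topology Polynomial

open scoped ENNReal

universe u v w

namespace Pool.Agent.Y133.Chow

open Pool.Agent.H914 Pool.Agent.H914.VarClass Pool.Agent.H914.VarClass.Obj
  Pool.Agent.H914.WeilCohomology Pool.Agent.W492.BB Pool.Agent.Y129 Pool.Agent.TH133
  Pool.Agent.H281R3.HT Pool.Agent.W536.RR
open Pool.Agent.Y133.Crys (Frobenii Acts frob Tate TateClass poleOrder Fl)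
open Pool.Agent.W550.Corr (dg comp_dg dg_comp act_dg)

variable {k : Type u} [Field k] {𝒱 : VarClass k} {ops : CycleOps 𝒱}
  {W : WeilCohomology.{u, v} ops} {C : TheoryData.{u, w, 0} 𝒱 ℚ} [hC : IsChowProj C]
  (c : ClassMap W C) {φ : Frobenii 𝒱} {q : ℕ} {X Y Z : 𝒱.Obj}

/-- The action of the correspondences on the cohomology. -/
noncomputable def corrR (X : 𝒱.Obj) : Cor C X →+* Module.End W.K (W.H X) where
  toFun a := W.corr (X := X) (Y := X) (c.cl (X.prod X) a)
  map_one' := corr_cl_dg c X
  map_mul' a b := corr_cl_comp c (X := X) (Y := X) (Z := X) b a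
  map_zero' := by
    have h1 : c.cl (X.prod X) ((0 : Cor C X) : C.A (X.prod X)) = 0 := map_zero (c.cl (X.prod X))
    rw [h1, W.corr_zero]
  map_add' a b := by
    have h1 : c.cl (X.prod X) ((a + b : Cor C X) : C.A (X.prod X)) =
      c.cl (X.prod X) a + c.cl (X.prod X) b := map_add (c.cl (X.prod X)) _ _
    rw [h1, W.corr_add]

lemma corrR_apply (a : Cor C X) : corrR c X a = W.corr (X := X) (Y := X) (c.cl (X.prod X) a) := rfl

/-- The Frobenius correspondence. -/
noncomputable def frobC (C : TheoryData.{u, w, 0} 𝒱 ℚ) (φ : Frobenii 𝒱) (X : 𝒱.Obj) : Cor C X :=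
  C.cograph (φ.Fr X)

lemma corrR_frobC : corrR c X (frobC C φ X) = Fl φ W X := by
  apply LinearMap.ext
  intro a
  have e1 : Obj.lift (φ.Fr X) (𝟙 X) ≫ snd X X = 𝟙 X := Obj.lift_snd _ _
  have e2 : Obj.lift (φ.Fr X) (𝟙 X) ≫ fst X X = φ.Fr X := Obj.lift_fst _ _
  have h1 : c.cl (X.prod X) (C.cograph (φ.Fr X)) = W.push (Obj.lift (φ.Fr X) (𝟙 X)) 1 := by
    rw [TheoryData.cograph, c.cl_push, map_one]
  rw [corrR_apply]
  change W.corr (c.cl (X.prod X) (C.cograph (φ.Fr X))) a = _
  rw [h1, W.corr_apply, ← W.push_mul, ← W.push_comp, ← W.map_comp, e1, e2, W.push_id, one_mul]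
  rfl

/-- The polynomials of the Frobenius correspondence on the Chow groups. -/
lemma act_aeval (h : ChowActs φ q W C) {p : ℕ} {x : C.A X} (hx : x ∈ C.gr X p) (P : ℚ[X]) :
    actC C X (aeval (frobC C φ X) P) x = (P.eval ((q : ℚ) ^ p)) • x := by
  have hx1 : actC C X (frobC C φ X) x = ((q : ℚ) ^ p) • x := by
    rw [actC_apply]
    change C.act (C.cograph (φ.Fr X)) x = _
    rw [C.act_cograph]
    exact h.chow X p x hx
  induction P using Polynomial.induction_on' with
  | add P Q hP hQ =>
    rw [map_add, map_add, LinearMap.add_apply, hP, hQ, Polynomial.eval_add, add_smul]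
  | monomial n a =>
    have h2 : ∀ n : ℕ, actC C X ((frobC C φ X) ^ n) x = (((q : ℚ) ^ p) ^ n) • x := by
      intro n
      induction n with
      | zero => rw [pow_zero, pow_zero, map_one, one_smul]; rfl
      | succ n ih =>
        rw [pow_succ, map_mul, Module.End.mul_apply, hx1, map_smul, ih, smul_smul, pow_succ,
          mul_comm]
    have h3 : aeval (frobC C φ X) (Polynomial.monomial n a) = a • (frobC C φ X) ^ n := by
      rw [Polynomial.aeval_monomial, Algebra.algebraMap_eq_smul_one, smul_mul_assoc, one_mul]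
    rw [h3, map_rat_smul (actC C X), LinearMap.smul_apply, h2, Polynomial.eval_monomial, smul_smul]

/-- An idempotent-like polynomial of the Frobenius correspondence: it acts as the identity on
`C^p(X)`, and its action on the cohomology has values in the generalised eigenspace. -/
lemma exists_e (h : ChowActs φ q W C) [Module.Finite ℚ (C.A (X.prod X))] (p : ℕ) :
    ∃ e : Cor C X, (∀ x ∈ C.gr X p, actC C X e x = x) ∧ Commute (corrR c X e) (Fl φ W X) ∧
      ∃ a : ℕ, (Fl φ W X - ((q : W.K) ^ p) • 1) ^ a * corrR c X e = 0 := by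
  have hfin : Module.Finite ℚ (Cor C X) := (inferInstance : Module.Finite ℚ (C.A (X.prod X)))
  set f := frobC C φ X with hf
  set t : ℚ := (q : ℚ) ^ p with ht
  have hint : IsIntegral ℚ f := Algebra.IsIntegral.isIntegral f
  obtain ⟨P, hP, hP0⟩ := hint
  have hP0' : aeval f P = 0 := hP0
  have hPne : (Polynomial.X - Polynomial.C t) * P ≠ 0 :=
    mul_ne_zero (Polynomial.X_sub_C_ne_zero t) hP.ne_zero
  obtain ⟨Q, hQ, hQ'⟩ := Polynomial.exists_eq_pow_rootMultiplicity_mul_and_not_dvd
    ((Polynomial.X - Polynomial.C t) * P) hPne t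
  set a := Polynomial.rootMultiplicity t ((Polynomial.X - Polynomial.C t) * P) with ha
  have ha0 : a ≠ 0 := by
    have h1 : 0 < a := (Polynomial.rootMultiplicity_pos hPne).2 (by
      rw [Polynomial.IsRoot, Polynomial.eval_mul, Polynomial.eval_sub, Polynomial.eval_X,
        Polynomial.eval_C, sub_self, zero_mul])
    exact h1.ne'
  have hcop : IsCoprime ((Polynomial.X - Polynomial.C t) ^ a) Q := by
    apply IsCoprime.pow_left
    exact ((Polynomial.irreducible_X_sub_C t).coprime_iff_not_dvd).2 hQ'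
  obtain ⟨u, v, huv⟩ := hcop
  refine ⟨aeval f (v * Q), fun x hx => ?_, ?_, a, ?_⟩
  · rw [hf, act_aeval h hx]
    have h1 := congrArg (Polynomial.eval t) huv
    rw [Polynomial.eval_add, Polynomial.eval_mul, Polynomial.eval_pow, Polynomial.eval_sub,
      Polynomial.eval_X, Polynomial.eval_C, sub_self, zero_pow ha0, mul_zero, zero_add,
      Polynomial.eval_one] at h1
    rw [h1, one_smul]
  · rw [← corrR_frobC c]
    have h1 : Commute (aeval f (v * Q)) f := by
      have h2 : f = aeval f (Polynomial.X : ℚ[X]) := (Polynomial.aeval_X f).symm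
      nth_rewrite 2 [h2]
      exact (Commute.all (v * Q) Polynomial.X).map (aeval f)
    exact h1.map (corrR c X)
  · have h1 : corrR c X (f - t • 1) = Fl φ W X - ((q : W.K) ^ p) • 1 := by
      rw [map_sub, hf, corrR_frobC]
      congr 1
      have h2 := map_ratCast_smul (corrR c X) ℚ W.K t 1
      simp only [Rat.cast_id, map_one] at h2
      rw [h2, ht]
      push_cast
      rfl
    rw [← h1, ← map_pow, ← map_mul]
    have h4 : (f - t • 1) ^ a * aeval f (v * Q) = 0 := by
      have h5 : f - t • 1 = aeval f (Polynomial.X - Polynomial.C t) := by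
        rw [map_sub, Polynomial.aeval_X, Polynomial.aeval_C, Algebra.algebraMap_eq_smul_one]
      rw [h5, ← map_pow, ← map_mul, show (Polynomial.X - Polynomial.C t) ^ a * (v * Q) =
        v * ((Polynomial.X - Polynomial.C t) ^ a * Q) by ring, ← hQ, map_mul, map_mul, hP0', mul_zero,
        mul_zero]
    rw [h4, map_zero]

end Pool.Agent.Y133.Chow
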