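import Pool.Agent.Y133.Chow.Frob2

/-!
# Tate's conjecture, nilpotence and rational equivalence, II
-/

set_option linter.unusedSectionVars false

open CategoryTheory AlgebraicGeometry TensorProduct Filter Topology Polynomial

open scoped ENNReal

universe u v w

namespace Pool.Agent.Y133.Chow

open Pool.Agent.H914 Pool.Agent.H914.VarClass Pool.Agent.H914.VarClass.Obj
  Pool.Agent.H914.WeilCohomology Pool.Agent.W492.BB Pool.Agent.Y129 Pool.Agent.TH133
  Pool.Agent.H281R3.HT Pool.Agent.W536.RR
open Pool.Agent.Y133.Crys (Frobenii Acts frob Tate TateClass poleOrder Fl)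
open Pool.Agent.W550.Corr (dg comp_dg dg_comp act_dg)

variable {k : Type u} [Field k] {𝒱 : VarClass k} {ops : CycleOps 𝒱}
  {W : WeilCohomology.{u, v} ops} {C : TheoryData.{u, w, 0} 𝒱 ℚ} [hC : IsChowProj C]
  (c : ClassMap W C) {φ : Frobenii 𝒱} {q : ℕ} {X Y Z : 𝒱.Obj}

/-- Operators commuting with the Frobenius endomorphism whose values are algebraic classes of
codimension `p` come from products of algebraic classes, if the Tate conjecture holds. -/
lemma mem_spanCl_prodSpan (h : ChowActs φ q W C) {p : ℕ} (hp : p ≤ X.dim)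
    (hT : Tate φ q W X (X.dim - p)) {d : W.H (X.prod X)}
    (h1 : ∀ x, W.corr d x ∈ spanCl c (C.gr X p)) (h2 : Commute (W.corr d) (Fl φ W X)) :
    d ∈ spanCl c (prodSpan C X X (X.dim - p) p) := by
  have hq : (q : W.K) ≠ 0 := Crys.q_ne h.acts
  set V := spanCl c (C.gr X p) with hV
  have hV0 : V = spanCycles W X p := spanCl_eq c p
  have hVF : ∀ x ∈ V, frob φ W X x = ((q : W.K) ^ p) • x := by
    intro x hx
    rw [hV0] at hx
    exact ((Crys.tatePred h.acts).span_le hx).2
  have hVg : ∀ x ∈ V, x ∈ W.gr X (2 * p) := by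
    intro x hx
    rw [hV0] at hx
    exact ((Crys.tatePred h.acts).span_le hx).1
  let b := Module.finBasis W.K V
  let E : W.H X →ₗ[W.K] V := (W.corr d).codRestrict V h1
  choose α hα using fun i => Half.exists_dual_class W ((b.coord i) ∘ₗ E)
  have hαF : ∀ i, frob φ W X (α i) = ((q : W.K) ^ (X.dim - p)) • α i := by
    intro i
    rw [← sub_eq_zero]
    apply nondeg_right
    intro y
    obtain ⟨x, rfl⟩ := Crys.frob_surjective h.acts y
    have e1 : W.tr X (Fl φ W X x * frob φ W X (α i)) = ((q : W.K) ^ X.dim) * W.tr X (x * α i) := by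
      have := h.acts.tr X (x * α i)
      rw [map_mul] at this
      exact this
    have e2 : E (Fl φ W X x) = ((q : W.K) ^ p) • E x := by
      apply Subtype.ext
      have h3 := congrArg (fun f : Module.End W.K (W.H X) => f x) h2.eq
      change W.corr d (Fl φ W X x) = ((q : W.K) ^ p) • W.corr d x
      rw [← hVF _ (h1 x)]
      exact h3
    have e3 : W.tr X (Fl φ W X x * α i) = ((q : W.K) ^ p) * W.tr X (x * α i) := by
      rw [hα, hα, LinearMap.comp_apply, LinearMap.comp_apply, e2, map_smul, smul_eq_mul]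
    rw [mul_sub, map_sub, e1, mul_smul_comm, map_smul, e3, smul_eq_mul, ← mul_assoc, ← pow_add,
      Nat.sub_add_cancel hp, sub_self]
  have hαT : ∀ i, α i ∈ spanCl c (C.gr X ((X.dim - p : ℕ) : ℤ)) := by
    intro i
    rw [spanCl_eq]
    exact hT _ ⟨eigen_mem h (hαF i), hαF i⟩
  have hd : d = ∑ i, W.map (fst X X) (α i) * W.map (snd X X) (b i : W.H X) := by
    rw [← sub_eq_zero]
    apply corr_inj
    apply LinearMap.ext
    intro x
    have e0 : W.corr (∑ i, W.map (fst X X) (α i) * W.map (snd X X) (b i : W.H X)) x =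
        ∑ i, (b.repr (E x) i) • (b i : W.H X) := by
      have e4 : W.corr (∑ i, W.map (fst X X) (α i) * W.map (snd X X) (b i : W.H X)) =
          ∑ i, W.corr (W.map (fst X X) (α i) * W.map (snd X X) (b i : W.H X)) :=
        map_sum (corrL W X X) _ _
      rw [e4, LinearMap.sum_apply]
      apply Finset.sum_congr rfl
      intro i _
      rw [W.corr_apply, mul_assoc,
        W.even_comm (W.map_mem (snd X X) (hVg _ (b i).2)) (W.map (fst X X) x), ← mul_assoc,
        ← map_mul, W.push_snd, W.even_comm (eigen_mem h (hαF i)) x, hα]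
      rfl
    have e5 : ((∑ i, (b.repr (E x) i) • b i : V) : W.H X) = W.corr d x := by
      rw [b.sum_repr]
      rfl
    have e6 : W.corr (d - ∑ i, W.map (fst X X) (α i) * W.map (snd X X) (b i : W.H X)) x =
        W.corr d x - W.corr (∑ i, W.map (fst X X) (α i) * W.map (snd X X) (b i : W.H X)) x := by
      have e7 := map_sub (corrL W X X) d
        (∑ i, W.map (fst X X) (α i) * W.map (snd X X) (b i : W.H X))
      exact congrArg (fun f : W.H X →ₗ[W.K] W.H X => f x) e7
    rw [e6, e0, ← e5, LinearMap.zero_apply, sub_eq_zero, AddSubmonoidClass.coe_finsetSum]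
    rfl
  rw [hd]
  apply Submodule.sum_mem
  intro i _
  exact mul_mem_spanCl c (hαT i) (b i).2

/-- The products of elements of complementary codimension annihilate the numerically trivial
elements. -/
lemma act_prodSpan [Nontrivial (W.H X)] {p : ℕ} (hp : p ≤ X.dim) {z : C.A X}
    (hz : z ∈ C.gr X p) (hz' : NumTrivial c X z) {s : C.A (X.prod X)}
    (hs : s ∈ prodSpan C X X (X.dim - p) p) : C.act s z = 0 := by
  induction hs using Submodule.span_induction with
  | mem s hs =>
    obtain ⟨a, ha, b, hb, rfl⟩ := hs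
    have e1 : C.act (C.pull (fst X X) a * C.pull (snd X X) b) z =
        C.push (snd X X) (C.pull (fst X X) (z * a)) * b := by
      rw [TheoryData.act_apply, ← C.proj_right, map_mul (C.pull (fst X X))]
      congr 1
      rw [ch_comm, mul_assoc]
    have h1 : z * a ∈ C.gr X X.dim := by
      have h2 := C.mul_mem hz ha
      have h3 : (p : ℤ) + ((X.dim - p : ℕ) : ℤ) = X.dim := by omega
      rwa [h3] at h2
    obtain ⟨r, hr⟩ := hC.degree X (z * a) h1
    have h2 : C.push (snd X X) (C.pull (fst X X) (z * a)) = r • (1 : C.A X) := (hr X).1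
    have h3 := congrArg (c.cl X) h2
    rw [c.cl_push, c.cl_pull, W.push_snd', c.cl_smul, map_one, map_mul, hz', zero_smul] at h3
    have h4 : (r : W.K) = 0 := (smul_eq_zero.1 h3.symm).resolve_right one_ne_zero
    have h5 : r = 0 := by exact_mod_cast h4
    rw [e1, h2, h5, zero_smul, zero_mul]
  | zero => exact C.act_zero z
  | add x y _ _ hx hy => rw [C.act_add, hx, hy, add_zero]
  | smul r x _ hx =>
    rw [TheoryData.act_apply] at hx ⊢
    rw [smul_mul_assoc, map_smul, hx, smul_zero]

/-- **Nilpotence and the Tate conjecture imply that rational and numerical equivalence agree.** -/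
theorem zero_of_tate (h : ChowActs φ q W C) [Nontrivial (W.H X)]
    [Nontrivial (W.H (X.prod X))] [Module.Finite ℚ (C.A (X.prod X))]
    (hnil : ∀ f : Cor C X, (f : C.A (X.prod X)) ∈ numSub c (X.prod X) → IsNilpotent f)
    (hT : ∀ j, Tate φ q W X j) (hss : (Fl φ W X).IsSemisimple) {p : ℕ} {z : C.A X}
    (hz : z ∈ C.gr X p) (hz' : NumTrivial c X z) : z = 0 := by
  by_cases hp : p ≤ X.dim
  swap
  · exact hC.gr_top X p z hz (by omega)
  obtain ⟨e, he1, he2, a, he3⟩ := exists_e c h (X := X) p
  have h1 : ∀ x, corrR c X e x ∈ spanCl c (C.gr X p) := by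
    intro x
    have h2 : corrR c X e x ∈ (Fl φ W X).maxGenEigenspace ((q : W.K) ^ p) := by
      rw [Module.End.mem_maxGenEigenspace]
      refine ⟨a, ?_⟩
      exact congrArg (fun f : Module.End W.K (W.H X) => f x) he3
    rw [Module.End.IsFinitelySemisimple.maxGenEigenspace_eq_eigenspace
      (Module.End.isFinitelySemisimple_iff_isSemisimple.2 hss), Module.End.mem_eigenspace_iff] at h2
    rw [spanCl_eq]
    exact hT p _ ⟨eigen_mem h h2, h2⟩
  have h2 := mem_spanCl_prodSpan c h hp (hT _) (d := c.cl (X.prod X) e) h1 he2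
  obtain ⟨s, hs, hes⟩ := exists_of_mem_spanCl c h2
  set ν : Cor C X := e - (show Cor C X from s) with hν
  obtain ⟨m, hm⟩ := hnil ν hes
  have hact : ∀ x : C.A X, actC C X ν x = actC C X e x - C.act s x := by
    intro x
    rw [hν, map_sub, LinearMap.sub_apply]
    rfl
  have h3 : ∀ j : ℕ, ∀ x : C.A X, NumTrivial c X x → x ∈ C.gr X p →
      x = actC C X (ν ^ j) x := by
    intro j
    induction j with
    | zero =>
      intro x _ _
      rw [pow_zero, map_one]; rfl
    | succ j ih =>
      intro x hx hxp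
      have h4 : actC C X ν x = x := by
        rw [hact, he1 x hxp, act_prodSpan c hp hxp hx hs, sub_zero]
      rw [pow_succ, map_mul, Module.End.mul_apply, h4]
      exact ih x hx hxp
  have h4 := h3 m z hz' hz
  rw [hm, map_zero] at h4
  exact h4

end Pool.Agent.Y133.Chow
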