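import Pool.Agent.Y133.Chow.Frob3

/-!
# The indices of the Chow groups and of the poles
-/

set_option linter.unusedSectionVars false

open CategoryTheory AlgebraicGeometry TensorProduct Filter Topology

open scoped ENNReal

universe u v w

namespace Pool.Agent.Y133.Chow

open Pool.Agent.H914 Pool.Agent.H914.VarClass Pool.Agent.H914.VarClass.Obj
  Pool.Agent.H914.WeilCohomology Pool.Agent.W492.BB Pool.Agent.Y129 Pool.Agent.TH133
  Pool.Agent.H281R3.HT Pool.Agent.W536.RR
open Pool.Agent.Y133.Crys (Frobenii Acts frob Tate TateClass poleOrder Fl)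

variable {k : Type u} [Field k] {𝒱 : VarClass k} {ops : CycleOps 𝒱}
  {W : WeilCohomology.{u, v} ops} {C : TheoryData.{u, w, 0} 𝒱 ℚ} [hC : IsChowProj C]
  (c : ClassMap W C) {φ : Frobenii 𝒱} {q : ℕ} {X Y Z : 𝒱.Obj}

/-- Either the Chow groups grow faster than the cycles modulo numerical equivalence, or the
numerically trivial correspondences are nilpotent. -/
theorem atTop_or_nil [Nontrivial (W.H X)] [∀ n, Module.Finite ℚ (C.A (pw X n))] :
    Tendsto (fun n => (Module.finrank ℚ (C.A (pw X n)) : ℝ) / numRank W (pw X n)) atTop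
      atTop ∨ Nil c X := by
  obtain ⟨z, hz⟩ := exists_point c (X := X)
  rcases full_or_infinite (c.cl_mem_algSpan z) hz with hF | hF
  · have hcl : IsAlgClosed (baseW W (AlgebraicClosure W.K)).K :=
      (inferInstance : IsAlgClosed (AlgebraicClosure W.K))
    have hnt : Nontrivial ((baseW W (AlgebraicClosure W.K)).H X) := nontrivial_base _
    have hF' : GoodSet (baseW W (AlgebraicClosure W.K)) (powSet X) := hF
    by_cases hnil : ∀ Z ∈ powSet X, ∀ f : Cor C Z,
      (f : C.A (Z.prod Z)) ∈ numSub (c.base (AlgebraicClosure W.K)) (Z.prod Z) → IsNilpotent f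
    · right
      intro n f hf
      apply hnil _ (pw_mem_powSet X n)
      rw [numSub_base]
      exact hf
    · left
      push Not at hnil
      obtain ⟨Z, hZ, f, hf, hf'⟩ := hnil
      have h1 := infinite_of_not_nil (c.base (AlgebraicClosure W.K)) hF' (fun n => by
        rw [numRank_base]
        exact numRank_pos c n) hZ hf hf'
      simp only [numRank_base] at h1
      exact h1
  · left
    refine tendsto_atTop_mono (fun n => ?_) (hF (fun n => algSpan W (pw X n)) fun n => le_rfl)
    apply div_le_div_of_nonneg_right _ (Nat.cast_nonneg _)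
    exact_mod_cast finrank_algSpan_le c

/-- If the index is finite then the Chow groups are finite-dimensional and the numerically trivial
correspondences are nilpotent. -/
theorem finite_of_index [Nontrivial (W.H X)] {N : ℕ∞} (hN : HasChowIndex ops C X N)
    (hN' : N ≠ ⊤) : (∀ n, Module.Finite ℚ (C.A (pw X n))) ∧ Nil c X := by
  have hpos : ∀ n, 0 < numRank W (pw X n) := numRank_pos c
  have hfin : ∀ n, Module.Finite ℚ (C.A (pw X n)) := by
    by_contra hfin
    push Not at hfin
    obtain ⟨n₀, hn₀⟩ := hfin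
    have h1 : ∀ n, n₀ ≤ n → ¬ Module.Finite ℚ (C.A (pw X n)) := by
      intro n hn
      induction n, hn using Nat.le_induction with
      | base => exact hn₀
      | succ n _ ih => exact not_finite_succ ih
    have h2 : HasChowIndex ops C X ⊤ := by
      rw [HasChowIndex, ENat.toENNReal_top]
      refine tendsto_const_nhds.congr' ?_
      filter_upwards [eventually_ge_atTop n₀] with n hn
      rw [chowDim_infinite C _ (h1 n hn), ENat.toENNReal_top,
        ENNReal.top_div_of_ne_top (ENNReal.natCast_ne_top _)]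
    exact hN' (ENat.toENNReal_inj.1 (tendsto_nhds_unique hN h2))
  refine ⟨hfin, ?_⟩
  rcases atTop_or_nil c (X := X) with h1 | h1
  · exfalso
    have hdiv : ∀ n, ENNReal.ofReal ((Module.finrank ℚ (C.A (pw X n)) : ℝ) /
        numRank W (pw X n)) = (chowDim C (pw X n) : ℝ≥0∞) / Half.cycRank ops (pw X n) := by
      intro n
      rw [ratio_ofReal (hpos n), chowDim_finite, cycRank_eq W, ENat.toENNReal_coe]
    have h3 := (ENNReal.tendsto_ofReal_atTop.comp h1).congr hdiv
    have h2 : HasChowIndex ops C X ⊤ := by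
      rw [HasChowIndex, ENat.toENNReal_top]
      exact h3
    exact hN' (ENat.toENNReal_inj.1 (tendsto_nhds_unique hN h2))
  · exact h1

/-! ### The index of the poles -/

/-- The index of the orders of the poles. -/
def HasPoleIndex (φ : Frobenii 𝒱) (q : ℕ) (W : WeilCohomology.{u, v} ops) (X : 𝒱.Obj) (M : ℕ∞) :
    Prop :=
  Tendsto (fun n => (poleOrder φ q W (pw X n) : ℝ≥0∞) / Half.cycRank ops (pw X n)) atTop
    (𝓝 (M : ℝ≥0∞))

omit hC in
/-- The index law for the orders of the poles. -/
theorem pole_index (h : Acts φ q W) (X : 𝒱.Obj) [Nontrivial (W.H X)] : ∃ M : ℕ∞, 1 ≤ M ∧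
    HasPoleIndex φ q W X M ∧
      (M = 1 ↔ ∀ n, (∀ j, Tate φ q W (pw X n) j) ∧ HomEqNum W (pw X n)) ∧
      (M ≠ ⊤ → ∀ n, (Fl φ W (pw X n)).IsSemisimple) := by
  obtain ⟨M, h1, h2, -, h4, h5⟩ := (Crys.tatePred h).index X
  have hD : (∀ n, HomEqNum W (pw X n)) → ∀ n, HomEqNum W (Half.pw X n) := fun hX n =>
    (Half.homEqNum_iso (Half.pwIso129 X n)).1 (hX n)
  have hnd : (∀ n, HomEqNum W (pw X n)) → ∀ n, (Half.algSys W).Nondeg (Half.pw X n) := by
    intro hX n x hx hx'
    have h1 := (Half.homEqNum_iff (Half.pw X n)).1 (hD hX n)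
    have h2 : x ∈ (Half.algSys W).Num (Half.pw X n) := ⟨hx, hx'⟩
    rwa [h1, Submodule.mem_bot] at h2
  have hss : (∀ n, HomEqNum W (pw X n)) → ∀ n, (Fl φ W (pw X n)).IsSemisimple := by
    intro hX n
    apply Crys.semisimple_of h
    have h6 := Half.Sys.nondeg_pw (hnd hX) n n
    exact h6.iso (Half.prodCongr (Half.pwIso129 X n) (Half.pwIso129 X n))
  refine ⟨M, h1, ?_, h4, fun hM => hss (h5 hM).1⟩
  rw [HasPoleIndex]
  by_cases hX : ∀ n, HomEqNum W (pw X n)
  · refine h2.congr fun n => ?_
    have h7 : poleOrder φ q W (pw X n) = Half.dimOf W {c | ∃ j, (Crys.tatePred h).P (pw X n) j c} := by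
      have h8 : (Crys.genPred h).sys.C (pw X n) = (Crys.tatePred h).sys.C (pw X n) := by
        apply le_antisymm
        · change (Crys.genPred h).sp _ ≤ (Crys.tatePred h).sp _
          unfold Half.ClassPred.sp
          rw [Submodule.span_le]
          rintro c ⟨j, hc⟩
          exact Submodule.subset_span ⟨j, Crys.gen_eq_tate (hss hX n) hc⟩
        · change (Crys.tatePred h).sp _ ≤ (Crys.genPred h).sp _
          unfold Half.ClassPred.sp
          rw [Submodule.span_le]
          rintro c ⟨j, hc⟩
          exact Submodule.subset_span ⟨j, Crys.tate_le_gen hc⟩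
      rw [Crys.poleOrder_eq h, ← Half.ClassPred.sp_finrank, h8]
    rw [h7]
  · have h6 : M = ⊤ := by
      by_contra h7
      exact hX (h5 h7).1
    have h7 : ¬ ∀ n, HomEqNum W (Half.pw X n) := fun h8 => hX fun n =>
      (Half.homEqNum_iso (Half.pwIso129 X n)).2 (h8 n)
    rw [h6]
    have h8 := Half.tendsto_top_of_not (t := fun n => poleOrder φ q W (Half.pw X n)) h7 fun n => by
      rw [Crys.poleOrder_eq h]
      exact Submodule.finrank_mono Half.ClassPred.alg_le
    refine h8.congr fun n => ?_
    have h9 : poleOrder φ q W (Half.pw X n) = poleOrder φ q W (pw X n) := by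
      rw [Crys.poleOrder_eq h, Crys.poleOrder_eq h]
      exact ((Crys.genPred h).sys.finrank_C_iso (Half.pwIso129 X n)).symm
    rw [h9, Half.cycRank_iso W (Half.pwIso129 X n)]

end Pool.Agent.Y133.Chow
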