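import Pool.Agent.Y133.Chow.Frob4

/-!
# A criterion for the conjectures of Tate and Beilinson for the powers of a variety
-/

set_option linter.unusedSectionVars false

open CategoryTheory AlgebraicGeometry TensorProduct Filter Topology

open scoped ENNReal

universe u v w

namespace Pool.Agent.Y133.Chow

open Pool.Agent.H914 Pool.Agent.H914.VarClass Pool.Agent.H914.VarClass.Obj
  Pool.Agent.H914.WeilCohomology Pool.Agent.W492.BB Pool.Agent.Y129 Pool.Agent.TH133
  Pool.Agent.H281R3.HT Pool.Agent.W536.RR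
open Pool.Agent.Y133.Crys (Frobenii Acts frob Tate TateClass poleOrder Fl)

/-- The decomposition at a semisimple eigenvalue. -/
lemma exists_decomp {K B : Type*} [Field K] [AddCommGroup B] [Module K B] [Module.Finite K B]
    (G : Submodule K B) (F : B →ₗ[K] B) (hF : ∀ x ∈ G, F x ∈ G) (t : K)
    (hss : ∀ x ∈ G, F (F x - t • x) = t • (F x - t • x) → F x = t • x) {y : B} (hy : y ∈ G) :
    ∃ y₀ ∈ G, ∃ y₁ ∈ G, F y₀ = t • y₀ ∧ y = y₀ + (F y₁ - t • y₁) := by
  let N : G →ₗ[K] G := F.restrict hF - t • LinearMap.id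
  have hN : ∀ x : G, (N x : B) = F x - t • (x : B) := fun x => rfl
  have hdis : Disjoint (LinearMap.ker N) (LinearMap.range N) := by
    rw [Submodule.disjoint_def]
    rintro _ h0 ⟨x, rfl⟩
    have h1 := congrArg Subtype.val (LinearMap.mem_ker.1 h0)
    rw [hN, hN, ZeroMemClass.coe_zero, sub_eq_zero] at h1
    have h2 := hss x x.2 h1
    apply Subtype.ext
    rw [hN, h2, sub_self]
    rfl
  have h1 := Submodule.eq_top_of_disjoint _ _ (by
    rw [add_comm]; exact (LinearMap.finrank_range_add_finrank_ker N).ge) hdis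
  have h2 : (⟨y, hy⟩ : G) ∈ LinearMap.ker N ⊔ LinearMap.range N := by rw [h1]; trivial
  obtain ⟨a, ha, b, ⟨y₁, rfl⟩, hab⟩ := Submodule.mem_sup.1 h2
  refine ⟨a, a.2, y₁, y₁.2, ?_, ?_⟩
  · have h3 := congrArg Subtype.val (LinearMap.mem_ker.1 ha)
    rw [hN, ZeroMemClass.coe_zero, sub_eq_zero] at h3
    exact h3
  · have h3 := congrArg Subtype.val hab
    exact h3.symm

variable {k : Type u} [Field k] {𝒱 : VarClass k} {ops : CycleOps 𝒱}
  {W : WeilCohomology.{u, v} ops} {C : TheoryData.{u, w, 0} 𝒱 ℚ} [hC : IsChowProj C]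
  (c : ClassMap W C) {φ : Frobenii 𝒱} {q : ℕ} {X Y Z : 𝒱.Obj}

omit hC in
/-- The conjecture of Tate and the semisimplicity of the eigenvalues `q ^ j` imply that homological
and numerical equivalence agree. -/
lemma homEqNum_of_tate (h : Acts φ q W) (hT : ∀ j, Tate φ q W X j)
    (hs : ∀ j : ℕ, SemisimpleAt (W.gr X (2 * j)) (frob φ W X) ((q : W.K) ^ j)) : HomEqNum W X := by
  intro j hj z hz hnum
  have hq : (q : W.K) ≠ 0 := Crys.q_ne h
  have h1 : ∀ b ∈ spanCycles W X ((X.dim - j : ℕ) : ℤ), W.tr X (W.cl X z * b) = 0 := by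
    intro b hb
    induction hb using Submodule.span_induction with
    | mem b hb =>
      obtain ⟨l, hl, w, hw, rfl⟩ := hb
      have hl' : l = X.dim - j := by exact_mod_cast hl
      subst hl'
      rw [Pool.Agent.W534.tr_mul_cl' hz hw (by omega), hnum w hw]
      simp
    | zero => rw [mul_zero, map_zero]
    | add x y _ _ hx hy => rw [mul_add, map_add, hx, hy, add_zero]
    | smul r x _ hx => rw [mul_smul_comm, map_smul, hx, smul_zero]
  apply W.nondeg
  intro b
  refine gr_induction (W.isInternal X) (p := fun b => W.tr X (W.cl X z * b) = 0) ?_ ?_ b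
  swap
  · intro a b ha hb
    rw [mul_add, map_add, ha, hb, add_zero]
  intro i b hb
  by_cases hi : i = 2 * (X.dim - j)
  swap
  · exact W.tr_eq_zero (W.mul_mem (W.cl_mem hz) hb) (by omega)
  subst hi
  obtain ⟨y₀, hy₀, y₁, hy₁, h2, rfl⟩ := exists_decomp (W.gr X (2 * (X.dim - j)))
    (frob φ W X).toLinearMap (fun x hx => W.map_mem _ hx) ((q : W.K) ^ (X.dim - j))
    (fun x hx => hs (X.dim - j) x hx) hb
  have h3 : W.tr X (W.cl X z * y₀) = 0 := h1 _ (hT _ _ ⟨hy₀, h2⟩)
  have h4 : W.tr X (W.cl X z * frob φ W X y₁) =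
      ((q : W.K) ^ (X.dim - j)) * W.tr X (W.cl X z * y₁) := by
    have h5 := h.tr X (W.cl X z * y₁)
    have h6 : frob φ W X (W.cl X z) = ((q : W.K) ^ j) • W.cl X z := (h.cyc hz).2
    rw [map_mul, h6, smul_mul_assoc, map_smul, smul_eq_mul,
      show X.dim = j + (X.dim - j) by omega, pow_add, mul_assoc] at h5
    have h7 : j + (X.dim - j) - j = X.dim - j := by omega
    have h8 := mul_left_cancel₀ (pow_ne_zero j hq) h5
    rw [h8]
  rw [mul_add, map_add, h3, zero_add, mul_sub, map_sub, mul_smul_comm, map_smul, smul_eq_mul]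
  change W.tr X (W.cl X z * frob φ W X y₁) - _ = 0
  rw [h4, sub_self]

omit hC in
lemma semisimpleAt_of {K B : Type*} [Field K] [Ring B] [Algebra K B] [Module.Finite K B]
    {F : B →ₐ[K] B} (h : Module.End.IsSemisimple (M := B) F.toLinearMap) (V : Submodule K B)
    (t : K) : SemisimpleAt V F t := by
  intro x _ hx
  have h1 : x ∈ Module.End.maxGenEigenspace (M := B) F.toLinearMap t := by
    rw [Module.End.mem_maxGenEigenspace]
    refine ⟨2, ?_⟩
    rw [pow_two, Module.End.mul_apply]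
    have e1 : ∀ y : B, (F.toLinearMap - t • (1 : Module.End K B)) y = F y - t • y := fun y => rfl
    rw [e1, e1, sub_eq_zero]
    exact hx
  rw [Module.End.IsFinitelySemisimple.maxGenEigenspace_eq_eigenspace
      (Module.End.isFinitelySemisimple_iff_isSemisimple.2 h), Module.End.mem_eigenspace_iff] at h1
  exact h1

/-- If numerically trivial elements vanish, then the classes of independent elements are
independent. -/
lemma injectiveOn_of_zero [Nontrivial (W.H X)] (h : ∀ x, NumTrivial c X x → x = 0) (p : ℤ) :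
    InjectiveOn W.K (c.cl X) (C.gr X p) := by
  intro n x _ hx
  have h1 : numSub c X = ⊥ := by
    rw [eq_bot_iff]
    intro x hx
    exact (Submodule.mem_bot ℚ).2 (h x hx)
  have h2 : LinearIndependent ℚ fun i => (numSub c X).mkQ (x i) := by
    have h3 := hx.map' (numSub c X).mkQ (by rw [Submodule.ker_mkQ, h1])
    exact h3
  exact (indep_cl c x h2).of_comp (transcendental W X).mkQ

/-- If the classes of independent homogeneous elements are independent and homological equivalence
is numerical equivalence, then homogeneous numerically trivial elements vanish. -/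
lemma zero_of_injectiveOn (hD : HomEqNum W X) {p : ℤ}
    (h : InjectiveOn W.K (c.cl X) (C.gr X p)) {x : C.A X} (hx : x ∈ C.gr X p)
    (hx' : NumTrivial c X x) : x = 0 := by
  by_contra hx0
  have h1 := h 1 (fun _ => x) (fun _ => hx) (by
    rw [linearIndependent_unique_iff]
    exact hx0)
  have h2 : c.cl X x ≠ 0 := h1.ne_zero 0
  apply h2
  exact homEqNum_algSpan hD (c.cl_mem_algSpan x) (mem_numSub_iff.1 hx')

/-- It suffices to consider homogeneous numerically trivial elements. -/
lemma zero_of_homogeneous [Nontrivial (W.H X)]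
    (h : ∀ (p : ℕ) (x : C.A X), x ∈ C.gr X p → NumTrivial c X x → x = 0) :
    ∀ x, NumTrivial c X x → x = 0 := by
  intro x hx
  classical
  have h3 : x ∈ ⨆ i, C.gr X i := by
    rw [(C.isInternal X).submodule_iSup_eq_top]; trivial
  obtain ⟨f, hf⟩ := (Submodule.mem_iSup_iff_exists_dfinsupp' _ x).1 h3
  obtain ⟨s, g, hg, hsum⟩ : ∃ (s : Finset ℤ) (g : ℤ → C.A X), (∀ i, g i ∈ C.gr X i) ∧
      x = ∑ i ∈ s, g i := ⟨f.support, fun i => f i, fun i => (f i).2, by rw [← hf]; rfl⟩
  rw [hsum]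
  apply Finset.sum_eq_zero
  intro i hi
  by_cases hi0 : i < 0
  · have h4 := hg i
    rw [C.gr_neg X i hi0, Submodule.mem_bot] at h4
    exact h4
  obtain ⟨p, rfl⟩ := Int.eq_ofNat_of_zero_le (not_lt.1 hi0)
  apply h p _ (hg p)
  apply numTrivial_of_gr c (hg p)
  intro y hy
  have h5 := hx y
  rw [hsum, map_sum, Finset.sum_mul, map_sum, Finset.sum_eq_single (p : ℤ)] at h5
  · exact h5
  · intro j _ hj
    by_cases hj0 : j < 0
    · have h4 := hg j
      rw [C.gr_neg X j hj0, Submodule.mem_bot] at h4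
      rw [h4, map_zero, zero_mul, map_zero]
    obtain ⟨r, rfl⟩ := Int.eq_ofNat_of_zero_le (not_lt.1 hj0)
    by_cases hd : (X.dim : ℤ) - p < 0
    · rw [C.gr_neg X _ hd, Submodule.mem_bot] at hy
      rw [hy, map_zero, mul_zero, map_zero]
    obtain ⟨t, ht⟩ := Int.eq_ofNat_of_zero_le (not_lt.1 hd)
    rw [ht] at hy
    apply c.tr_ne (hg r) hy
    intro h6
    apply hj
    omega
  · intro h6
    exact absurd hi h6

/-- If the Tate conjecture holds for the powers and the index of the Chow groups is finite, then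
rational and numerical equivalence agree on the powers. -/
theorem numTrivialZero_of (h : ChowActs φ q W C) [Nontrivial (W.H X)]
    (hT : ∀ n j, Tate φ q W (pw X n) j) (hss : ∀ n, (Fl φ W (pw X n)).IsSemisimple) {N : ℕ∞}
    (hN : HasChowIndex ops C X N) (hN' : N ≠ ⊤) : NumTrivialZero c X := by
  obtain ⟨hfin, hnil⟩ := finite_of_index c hN hN'
  intro n
  have h1 : Nontrivial (W.H (pw X n)) := nontrivial_pw n
  have h2 : Nontrivial (W.H ((pw X n).prod (pw X n))) := nontrivial_prod_pw n n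
  have h3 : Module.Finite ℚ (C.A ((pw X n).prod (pw X n))) :=
    finite_powSet (prod_mem_powSet (pw_mem_powSet X n) (pw_mem_powSet X n))
  exact zero_of_homogeneous c fun p x hx hx' =>
    zero_of_tate c h (hnil n) (hT n) (hss n) hx hx'

/-- The image of the cycle map. -/
lemma tate_iff {j : ℕ} : Tate φ q W X j ↔ ∀ x ∈ W.gr X (2 * j),
    frob φ W X x = ((q : W.K) ^ j) • x → x ∈ Submodule.span W.K (c.cl X '' (C.gr X j)) := by
  have h1 : Submodule.span W.K (c.cl X '' (C.gr X j)) = spanCycles W X j := spanCl_eq c j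
  rw [h1]
  exact ⟨fun h x hx hx' => h x ⟨hx, hx'⟩, fun h x hx => h x hx.1 hx.2⟩

/-- **The criterion.** -/
theorem criterion {φ : ∀ X : 𝒱.Obj, X ⟶ X} (hF : IsFrobenius φ q W C) (X : 𝒱.Obj)
    [Nontrivial (W.H X)] :
    ∃ N M : ℕ∞, 1 ≤ N ∧ 1 ≤ M ∧
      RatioTendsTo (fun n => chowDim C (pw X n)) (fun n => numDim c (pw X n)) N ∧
      RatioTendsTo (fun n => poleSum φ q W (pw X n)) (fun n => numDim c (pw X n)) M ∧
      ((∀ n j, Beilinson φ q c (pw X n) j) ↔ N ≠ ⊤ ∧ M = 1) ∧
      (M ≠ ⊤ → ∀ n, IsSemisimple (W.map (φ (pw X n)))) ∧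
      (M = 1 → N = 1 ∨ N = ⊤) ∧ SmashNilpotent c X N := by
  have h : ChowActs hF.fam q W C := hF.chowActs c
  obtain ⟨N, h1, h2, h3, h4⟩ := index_law c (X := X)
  obtain ⟨M, k1, k2, k3, k4⟩ := pole_index h.acts X
  have key : M = 1 → N ≠ ⊤ → NumTrivialZero c X := fun hM hN =>
    numTrivialZero_of c h (fun n => (k3.1 hM n).1)
      (k4 (by rw [hM]; exact ENat.one_ne_top)) h2 hN
  refine ⟨N, M, h1, k1, (ratio_iff c).2 h2, (ratio_iff c).2 ?_, ⟨fun hB => ?_,
    fun ⟨hN, hM⟩ n j => ⟨?_, ?_⟩⟩, k4, fun hM => ?_, h4⟩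
  · refine k2.congr fun n => ?_
    rw [poleSum_eq hF, ENat.toENNReal_coe]
  · have hT : ∀ n j, Tate hF.fam q W (pw X n) j := fun n j => (tate_iff c).2 (hB n j).1.2
    have hD : ∀ n, HomEqNum W (pw X n) := fun n =>
      homEqNum_of_tate h.acts (hT n) fun j => (hB n j).2
    have hM : M = 1 := k3.2 fun n => ⟨hT n, hD n⟩
    refine ⟨?_, hM⟩
    have hN : N = 1 := h3.2 fun n => by
      have h5 : Nontrivial (W.H (pw X n)) := nontrivial_pw n
      exact zero_of_homogeneous c fun p x hx hx' =>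
        zero_of_injectiveOn c (hD n) (hB n p).1.1 hx hx'
    rw [hN]
    exact ENat.one_ne_top
  · have h5 : Nontrivial (W.H (pw X n)) := nontrivial_pw n
    exact ⟨injectiveOn_of_zero c (key hM hN n) j, (tate_iff c).1 ((k3.1 hM n).1 j)⟩
  · exact semisimpleAt_of (k4 (by rw [hM]; exact ENat.one_ne_top) n) _ _
  · by_cases hN : N = ⊤
    · exact Or.inr hN
    · exact Or.inl (h3.2 (key hM hN))

end Pool.Agent.Y133.Chow
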