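import Pool.Agent.Y133.Chow.FDefs

/-!
# Homologically trivial elements: definitions
-/

open CategoryTheory AlgebraicGeometry Filter Topology

universe u v w

namespace Pool.Agent.Y133.Chow

open Pool.Agent.H914 Pool.Agent.H914.VarClass Pool.Agent.H914.VarClass.Obj
  Pool.Agent.H914.WeilCohomology Pool.Agent.W492.BB
open Pool.Agent.Y129 (pw)

/-- The dimension of the space of the elements killed by `c`, an element of `ℕ ∪ {∞}`. -/
noncomputable def kerDim {A B : Type*} [Ring A] [Algebra ℚ A] [Ring B] (c : A →+* B) : ℕ∞ :=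
  Cardinal.toENat (Module.rank ℚ (Submodule.span ℚ {x | c x = 0}))

variable {k : Type u} [Field k] {𝒱 : VarClass k} {ops : CycleOps 𝒱}
  {W : WeilCohomology.{u, v} ops} {C : TheoryData.{u, w, 0} 𝒱 ℚ}

/-- The dimension of the space of homologically trivial elements of `C(X)`. -/
noncomputable def homDim (c : ClassMap W C) (X : 𝒱.Obj) : ℕ∞ := kerDim (c.cl X)

/-- The element `x` of `C(X)` is homologically trivial. -/
def HomTrivial (c : ClassMap W C) (X : 𝒱.Obj) (x : C.A X) : Prop := c.cl X x = 0

/-- Numerically trivial elements on the powers of `X` are homologically trivial. -/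
def HomIsNum (c : ClassMap W C) (X : 𝒱.Obj) : Prop :=
  ∀ n x, NumTrivial c (pw X n) x → HomTrivial c (pw X n) x

end Pool.Agent.Y133.Chow
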