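import Pool.Agent.Y133.Chow.Base
import Pool.Agent.TH133.Base

/-!
# Operators on cohomology and Chow groups
-/

set_option linter.unusedSectionVars false

open CategoryTheory AlgebraicGeometry TensorProduct

universe u v w

namespace Pool.Agent.Y133.Chow

open Pool.Agent.H914 Pool.Agent.H914.VarClass Pool.Agent.H914.VarClass.Obj
  Pool.Agent.H914.WeilCohomology Pool.Agent.W492.BB Pool.Agent.Y129 Pool.Agent.TH133
  Pool.Agent.H281R3.HT
open Pool.Agent.W550.Corr (dg comp_eq_extR comp_dg dg_comp comp_assoc compL compL_apply HasIso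
  push_model act_dg)

variable {k : Type u} [Field k] {𝒱 : VarClass k} {ops : CycleOps 𝒱}
  {W : WeilCohomology.{u, v} ops} {C : TheoryData.{u, w, 0} 𝒱 ℚ} [hC : IsChowProj C]
  (c : ClassMap W C) {X Y Z : 𝒱.Obj}

/-- The sum of the cohomology and the Chow groups. -/
abbrev Ht (_c : ClassMap W C) (X : 𝒱.Obj) : Type _ := W.H X × (W.K ⊗[ℚ] C.A X)

/-- The operator given by a correspondence. -/
noncomputable def op (Γ : C.A (X.prod Y)) : Ht c X →ₗ[W.K] Ht c Y :=
  LinearMap.prodMap (W.corr (c.cl _ Γ)) ((C.actL Γ).baseChange W.K)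

lemma op_add (Γ Δ : C.A (X.prod Y)) : op c (Γ + Δ) = op c Γ + op c Δ := by
  have h1 : C.actL (Γ + Δ) = C.actL Γ + C.actL Δ := LinearMap.ext fun a => C.act_add Γ Δ a
  rw [op, map_add, corr_add, h1, LinearMap.baseChange_add]
  apply LinearMap.ext
  intro x
  rfl

lemma op_smul (q : ℚ) (Γ : C.A (X.prod Y)) : op c (q • Γ) = (q : W.K) • op c Γ := by
  have h1 : ((C.actL (q • Γ)).baseChange W.K : W.K ⊗[ℚ] C.A X →ₗ[W.K] W.K ⊗[ℚ] C.A Y) =
      (q : W.K) • (C.actL Γ).baseChange W.K := by
    apply TensorProduct.AlgebraTensorModule.ext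
    intro r x
    have h2 : C.actL (q • Γ) x = q • C.actL Γ x := by
      rw [C.actL_apply, C.actL_apply, C.act_apply, C.act_apply, smul_mul_assoc, map_smul]
    rw [LinearMap.baseChange_tmul, LinearMap.smul_apply, LinearMap.baseChange_tmul, h2,
      TensorProduct.tmul_smul, TensorProduct.smul_tmul', TensorProduct.smul_tmul', Rat.smul_def,
      smul_eq_mul]
  rw [op, c.cl_smul, corr_smul, h1]
  apply LinearMap.ext
  intro x
  rfl

lemma op_zero : op c (0 : C.A (X.prod Y)) = 0 := by
  have := op_smul c 0 (0 : C.A (X.prod Y))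
  rw [zero_smul, Rat.cast_zero, zero_smul] at this
  exact this

lemma op_comp (Γ : C.A (X.prod Y)) (Δ : C.A (Y.prod Z)) :
    op c (C.comp Γ Δ) = op c Δ ∘ₗ op c Γ := by
  have h1 : C.actL (C.comp Γ Δ) = C.actL Δ ∘ₗ C.actL Γ :=
    LinearMap.ext fun a => C.act_comp Γ Δ a
  rw [op, corr_cl_comp, h1, LinearMap.baseChange_comp]
  apply LinearMap.ext
  intro x
  rfl

lemma op_dg (X : 𝒱.Obj) : op c (dg C X) = LinearMap.id := by
  have h1 : C.actL (dg C X) = LinearMap.id := LinearMap.ext fun a => act_dg C a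
  rw [op, corr_cl_dg, h1, LinearMap.baseChange_id]
  apply LinearMap.ext
  intro x
  rfl

/-- The operators given by self-correspondences. -/
noncomputable def opR (X : 𝒱.Obj) : Cor C X →+* Module.End W.K (Ht c X) where
  toFun a := op c (X := X) (Y := X) a
  map_one' := op_dg c X
  map_mul' a b := op_comp c (X := X) (Y := X) (Z := X) b a
  map_zero' := op_zero c
  map_add' a b := op_add c (X := X) (Y := X) a b

lemma trace_op_nil [Module.Finite ℚ (C.A X)] (f : Cor C X) (hf : IsNilpotent f) :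
    LinearMap.trace W.K (Ht c X) (op c (X := X) (Y := X) f) = 0 :=
  Y129.trace_nil (hf.map (opR c X))

/-! ### The category -/

/-- The operators between the powers of `X`. -/
noncomputable def Ct (X : 𝒱.Obj) (m n : ℕ) :
    Submodule W.K (Ht c (pw X m) →ₗ[W.K] Ht c (pw X n)) :=
  Submodule.span W.K (Set.range fun Γ : C.A ((pw X m).prod (pw X n)) => op c Γ)

lemma op_mem_Ct {m n : ℕ} (Γ : C.A ((pw X m).prod (pw X n))) : op c Γ ∈ Ct c X m n :=
  Submodule.subset_span ⟨Γ, rfl⟩

lemma isCat_Ct : IsCat (H := fun n => Ht c (pw X n)) (Ct c X) where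
  id_mem n := by
    rw [← op_dg c (pw X n)]
    exact op_mem_Ct c _
  comp_mem := by
    intro l m n g f hg hf
    induction hg using Submodule.span_induction with
    | mem g hg =>
      obtain ⟨Δ, rfl⟩ := hg
      induction hf using Submodule.span_induction with
      | mem f hf =>
        obtain ⟨Γ, rfl⟩ := hf
        have h1 := op_comp c Γ Δ
        rw [← h1]
        exact op_mem_Ct c _
      | zero => rw [LinearMap.comp_zero]; exact Submodule.zero_mem _
      | add a b _ _ ha hb => rw [LinearMap.comp_add]; exact Submodule.add_mem _ ha hb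
      | smul r a _ ha => rw [LinearMap.comp_smul]; exact Submodule.smul_mem _ _ ha
    | zero => rw [LinearMap.zero_comp]; exact Submodule.zero_mem _
    | add a b _ _ ha hb => rw [LinearMap.add_comp]; exact Submodule.add_mem _ ha hb
    | smul r a _ ha => rw [LinearMap.smul_comp]; exact Submodule.smul_mem _ _ ha

/-- The first block of an operator. -/
noncomputable def prH (X Y : 𝒱.Obj) :
    (Ht c X →ₗ[W.K] Ht c Y) →ₗ[W.K] (W.H X →ₗ[W.K] W.H Y) where
  toFun f := LinearMap.fst W.K _ _ ∘ₗ f ∘ₗ LinearMap.inl W.K _ _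
  map_add' f g := by
    rw [LinearMap.add_comp, LinearMap.comp_add]
  map_smul' r f := by
    rw [LinearMap.smul_comp, LinearMap.comp_smul]
    rfl

lemma prH_apply (f : Ht c X →ₗ[W.K] Ht c Y) (a : W.H X) : prH c X Y f a = (f (a, 0)).1 := rfl

lemma prH_op (Γ : C.A (X.prod Y)) : prH c X Y (op c Γ) = W.corr (c.cl _ Γ) := by
  apply LinearMap.ext
  intro a
  rfl

lemma Ct_fst {m n : ℕ} {f : Ht c (pw X m) →ₗ[W.K] Ht c (pw X n)} (hf : f ∈ Ct c X m n)
    (x : Ht c (pw X m)) : (f x).1 = prH c _ _ f x.1 := by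
  induction hf using Submodule.span_induction with
  | mem f hf =>
    obtain ⟨Γ, rfl⟩ := hf
    rfl
  | zero => rfl
  | add a b _ _ ha hb =>
    rw [map_add, LinearMap.add_apply, LinearMap.add_apply, Prod.fst_add, ha, hb]
  | smul r a _ ha =>
    rw [map_smul, LinearMap.smul_apply, LinearMap.smul_apply, Prod.smul_fst, ha]

lemma prH_comp {l m n : ℕ} {g : Ht c (pw X m) →ₗ[W.K] Ht c (pw X n)} (hg : g ∈ Ct c X m n)
    (f : Ht c (pw X l) →ₗ[W.K] Ht c (pw X m)) :
    prH c _ _ (g ∘ₗ f) = prH c _ _ g ∘ₗ prH c _ _ f := by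
  apply LinearMap.ext
  intro a
  rw [prH_apply, LinearMap.comp_apply, Ct_fst c hg, LinearMap.comp_apply, prH_apply c f]

lemma prH_id (Y : 𝒱.Obj) : prH c Y Y LinearMap.id = LinearMap.id := rfl

lemma prH_pow {n : ℕ} {f : Module.End W.K (Ht c (pw X n))} (hf : f ∈ Ct c X n n) (r : ℕ) :
    prH c _ _ (f ^ r : Module.End W.K (Ht c (pw X n))) = (prH c _ _ f : Module.End W.K _) ^ r := by
  induction r with
  | zero => rfl
  | succ r ih =>
    rw [pow_succ', pow_succ', ← ih]
    exact prH_comp c hf _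

lemma map_prH (m n : ℕ) : (Ct c X m n).map (prH c (pw X m) (pw X n)) = CP W X m n := by
  apply le_antisymm
  · rw [Ct, Submodule.map_span_le]
    rintro _ ⟨Γ, rfl⟩
    change prH c _ _ (op c Γ) ∈ _
    rw [prH_op]
    exact map_corr_mem (c.cl_mem_algSpan Γ)
  · intro f hf
    obtain ⟨d, hd, rfl⟩ := exists_corr_eq hf
    rw [c.algSpan_eq] at hd
    induction hd using Submodule.span_induction with
    | mem a ha =>
      obtain ⟨Γ, rfl⟩ := ha
      exact ⟨op c Γ, op_mem_Ct c Γ, prH_op c Γ⟩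
    | zero => rw [corr_zero]; exact Submodule.zero_mem _
    | add a b _ _ ha hb =>
      rw [corr_add]
      exact Submodule.add_mem _ (ha (map_corr_mem (by rw [c.algSpan_eq]; assumption)))
        (hb (map_corr_mem (by rw [c.algSpan_eq]; assumption)))
    | smul r a _ ha =>
      rw [corr_smul]
      exact Submodule.smul_mem _ _ (ha (map_corr_mem (by rw [c.algSpan_eq]; assumption)))

end Pool.Agent.Y133.Chow
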