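import Pool.Agent.Y133.Chow.Defs

/-!
# Perfect intersection pairings: definition
-/

open CategoryTheory AlgebraicGeometry

universe u v w

namespace Pool.Agent.Y133.Chow

open Pool.Agent.H914

/-- The spaces `V` and `V'` are finite-dimensional, the values of the pairing
`(x, y) ↦ tr (c x * c y)` on them are rational numbers, and it identifies `V` with the dual space of
`V'`. -/
def PerfectOn {K A B : Type*} [Field K] [Ring A] [Algebra ℚ A] [Ring B] [Algebra K B]
    (tr : B →ₗ[K] K) (c : A →+* B) (V V' : Submodule ℚ A) : Prop :=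
  Module.Finite ℚ V ∧ Module.Finite ℚ V' ∧ ∃ β : V →ₗ[ℚ] Module.Dual ℚ V',
    (∀ (x : V) (y : V'), tr (c x * c y) = (β x y : K)) ∧ Function.Bijective β

open Pool.Agent.H914.VarClass Pool.Agent.H914.VarClass.Obj
  Pool.Agent.H914.WeilCohomology Pool.Agent.W492.BB

variable {k : Type u} [Field k] {𝒱 : VarClass k} {ops : CycleOps 𝒱}
  {W : WeilCohomology.{u, v} ops} {C : TheoryData.{u, w, 0} 𝒱 ℚ}

/-- The pairing `C^p(X) × C^(d - p)(X) → ℚ` given by the intersection numbers is perfect; here `d` is
the dimension of `X`. -/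
def PerfectPairing (c : ClassMap W C) (X : 𝒱.Obj) (p : ℕ) : Prop :=
  PerfectOn (W.tr X) (c.cl X) (C.gr X p) (C.gr X ((X.dim : ℤ) - p))

end Pool.Agent.Y133.Chow
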