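import Pool.Agent.Y133.Chow.PDefs
import Pool.Agent.Y133.Chow.Final

/-!
# Perfect intersection pairings
-/

set_option linter.unusedSectionVars false

open CategoryTheory AlgebraicGeometry TensorProduct Filter Topology

open scoped ENNReal

universe u v w

namespace Pool.Agent.Y133.Chow

open Pool.Agent.H914 Pool.Agent.H914.VarClass Pool.Agent.H914.VarClass.Obj
  Pool.Agent.H914.WeilCohomology Pool.Agent.W492.BB Pool.Agent.Y129 Pool.Agent.TH133
  Pool.Agent.H281R3.HT

variable {k : Type u} [Field k] {𝒱 : VarClass k} {ops : CycleOps 𝒱}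
  {W : WeilCohomology.{u, v} ops} {C : TheoryData.{u, w, 0} 𝒱 ℚ} [hC : IsChowProj C]
  (c : ClassMap W C) {X Y Z V : 𝒱.Obj}

lemma ClassMap.exists_degL [Nontrivial (W.H X)] : ∃ D : C.A X →ₗ[ℚ] ℚ, ∀ x,
    W.tr X (c.cl X x) = (D x : W.K) := by
  choose D hD using fun x => (c.exists_deg (X := X) x)
  have hinj : Function.Injective ((↑) : ℚ → W.K) := Rat.cast_injective
  refine ⟨{ toFun := D, map_add' := ?_, map_smul' := ?_ }, fun x => (hD x).1⟩
  · intro x y
    apply hinj
    rw [← (hD _).1, map_add, map_add, (hD x).1, (hD y).1, Rat.cast_add]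
  · intro q x
    apply hinj
    rw [← (hD _).1, c.cl_smul, map_smul, (hD x).1, RingHom.id_apply, smul_eq_mul, smul_eq_mul,
      Rat.cast_mul]

/-- A nondegenerate pairing of finite-dimensional spaces is perfect. -/
lemma bijective_of_nondeg {V V' : Type*} [AddCommGroup V] [Module ℚ V] [AddCommGroup V']
    [Module ℚ V'] [Module.Finite ℚ V] [Module.Finite ℚ V'] (B : V →ₗ[ℚ] V' →ₗ[ℚ] ℚ)
    (h1 : ∀ x, (∀ y, B x y = 0) → x = 0) (h2 : ∀ y, (∀ x, B x y = 0) → y = 0) :
    Function.Bijective B := by
  have hi : Function.Injective B := by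
    rw [injective_iff_map_eq_zero]
    intro x hx
    exact h1 x fun y => by rw [hx]; rfl
  have hi' : Function.Injective B.flip := by
    rw [injective_iff_map_eq_zero]
    intro y hy
    exact h2 y fun x => by
      have := congrArg (fun f => f x) hy
      exact this
  have h3 := LinearMap.finrank_le_finrank_of_injective hi
  have h4 := LinearMap.finrank_le_finrank_of_injective hi'
  have h5 : Module.finrank ℚ (V' →ₗ[ℚ] ℚ) = Module.finrank ℚ V' :=
    Subspace.dual_finrank_eq (K := ℚ) (V := V')
  have h6 : Module.finrank ℚ (V →ₗ[ℚ] ℚ) = Module.finrank ℚ V :=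
    Subspace.dual_finrank_eq (K := ℚ) (V := V)
  exact ⟨hi, (LinearMap.injective_iff_surjective_of_finrank_eq_finrank (by omega)).1 hi⟩

/-- Products of elements whose degrees do not add up to the dimension have degree zero. -/
lemma ClassMap.tr_ne {p q : ℕ} {x y : C.A X} (hx : x ∈ C.gr X p) (hy : y ∈ C.gr X q)
    (h : p + q ≠ X.dim) : W.tr X (c.cl X x * c.cl X y) = 0 := by
  rw [← map_mul]
  have h1 : x * y ∈ C.gr X ((p + q : ℕ) : ℤ) := by
    have := C.mul_mem hx hy
    exact_mod_cast this
  exact W.tr_eq_zero (c.cl_mem h1) (by omega)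

lemma numTrivial_of_gr {p : ℕ} {x : C.A X} (hx : x ∈ C.gr X p)
    (h : ∀ y ∈ C.gr X ((X.dim : ℤ) - p), W.tr X (c.cl X x * c.cl X y) = 0) :
    NumTrivial c X x := by
  intro y
  refine gr_ind C (P := fun y => W.tr X (c.cl X x * c.cl X y) = 0) ?_ ?_ y
  · intro q y hy
    by_cases hq : p + q = X.dim
    · apply h
      have h1 : ((X.dim : ℤ) - p) = q := by omega
      rw [h1]
      exact hy
    · exact c.tr_ne hx hy hq
  · intro y z hy hz
    rw [map_add, mul_add, map_add, hy, hz, add_zero]

/-- The pairings are perfect if and only if the numerically trivial elements are zero. -/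
theorem perfect_iff [Nontrivial (W.H X)] :
    (∀ p : ℕ, p ≤ X.dim → PerfectPairing c X p) ↔ ∀ x, NumTrivial c X x → x = 0 := by
  constructor
  · intro h x hx
    classical
    have hint := C.isInternal X
    have hcomp : ∀ i : ℤ, ∀ y : C.A X, y ∈ C.gr X i → NumTrivial c X y → y = 0 := by
      intro i y hy hyn
      by_cases hi : i < 0
      · rw [C.gr_neg X i hi, Submodule.mem_bot] at hy
        exact hy
      obtain ⟨p, rfl⟩ := Int.eq_ofNat_of_zero_le (not_lt.1 hi)
      by_cases hp : p ≤ X.dim
      · obtain ⟨-, -, B, hB, hB'⟩ := h p hp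
        have h1 : (⟨y, hy⟩ : C.gr X p) = 0 := by
          apply hB'.1
          rw [map_zero]
          apply LinearMap.ext
          intro z
          have h2 := hB ⟨y, hy⟩ z
          rw [hyn z] at h2
          exact_mod_cast h2.symm
        exact congrArg Subtype.val h1
      · exact hC.gr_top X p y hy (by omega)
    have hsum : ∃ s : Finset ℤ, ∃ f : ℤ → C.A X, (∀ i, f i ∈ C.gr X i) ∧ x = ∑ i ∈ s, f i := by
      have h3 : x ∈ ⨆ i, C.gr X i := by
        rw [hint.submodule_iSup_eq_top]; trivial
      obtain ⟨f, hf⟩ := (Submodule.mem_iSup_iff_exists_dfinsupp' _ x).1 h3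
      refine ⟨f.support, fun i => f i, fun i => (f i).2, ?_⟩
      rw [← hf]
      rfl
    obtain ⟨s, f, hf, rfl⟩ := hsum
    apply Finset.sum_eq_zero
    intro i hi
    apply hcomp i _ (hf i)
    by_cases hi0 : i < 0
    · have h4 := hf i
      rw [C.gr_neg X i hi0, Submodule.mem_bot] at h4
      rw [h4]
      intro y
      rw [map_zero, zero_mul, map_zero]
    obtain ⟨p, rfl⟩ := Int.eq_ofNat_of_zero_le (not_lt.1 hi0)
    apply numTrivial_of_gr c (hf _)
    intro y hy
    have h5 := hx y
    rw [map_sum, Finset.sum_mul, map_sum, Finset.sum_eq_single (p : ℤ)] at h5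
    · exact h5
    · intro j _ hj
      by_cases hj0 : j < 0
      · have h4 := hf j
        rw [C.gr_neg X j hj0, Submodule.mem_bot] at h4
        rw [h4, map_zero, zero_mul, map_zero]
      obtain ⟨r, rfl⟩ := Int.eq_ofNat_of_zero_le (not_lt.1 hj0)
      by_cases hd : (X.dim : ℤ) - p < 0
      · rw [C.gr_neg X _ hd, Submodule.mem_bot] at hy
        rw [hy, map_zero, mul_zero, map_zero]
      obtain ⟨t, ht⟩ := Int.eq_ofNat_of_zero_le (not_lt.1 hd)
      rw [ht] at hy
      apply c.tr_ne (hf _) hy
      intro h6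
      apply hj
      omega
    · intro h6
      exact absurd hi h6
  · intro h p hp
    obtain ⟨D, hD⟩ := c.exists_degL (X := X)
    have h1 : numSub c X = ⊥ := by
      rw [eq_bot_iff]
      intro x hx
      exact (Submodule.mem_bot ℚ).2 (h x hx)
    have h2 := finite_quot c (X := X)
    have h3 : Module.Finite ℚ (C.A X) := Module.Finite.equiv (Submodule.quotEquivOfEqBot _ h1)
    refine ⟨inferInstance, inferInstance, (((LinearMap.mul ℚ (C.A X)).compr₂ D).domRestrict₁₂
      (C.gr X p) (C.gr X ((X.dim : ℤ) - p))), fun x y => ?_, ?_⟩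
    · rw [← map_mul]
      exact hD _
    · apply bijective_of_nondeg
      · rintro ⟨x, hx⟩ hx0
        apply Subtype.ext
        apply h
        apply numTrivial_of_gr c hx
        intro y hy
        have h4 : D (x * y) = 0 := hx0 ⟨y, hy⟩
        rw [← map_mul, hD, h4, Rat.cast_zero]
      · rintro ⟨y, hy⟩ hy0
        apply Subtype.ext
        apply h
        obtain ⟨t, ht⟩ := Int.eq_ofNat_of_zero_le (show 0 ≤ (X.dim : ℤ) - p by omega)
        have hy' := hy
        rw [ht] at hy'
        apply numTrivial_of_gr c hy'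
        intro x hx
        have h5 : ((X.dim : ℤ) - (t : ℤ)) = p := by omega
        rw [h5] at hx
        have h4 : D (x * y) = 0 := hy0 ⟨x, hx⟩
        rw [← c.even, ← map_mul, hD, h4, Rat.cast_zero]

/-- **The index law**, with perfect pairings. -/
theorem index_perfect [Nontrivial (W.H X)] : ∃ N : ℕ∞, 1 ≤ N ∧ HasChowIndex ops C X N ∧
    (N = 1 ↔ ∀ n p : ℕ, p ≤ (pw X n).dim → PerfectPairing c (pw X n) p) ∧
    SmashNilpotent c X N := by
  obtain ⟨N, h1, h2, h3, h4⟩ := index_law c (X := X)
  refine ⟨N, h1, h2, h3.trans ?_, h4⟩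
  refine forall_congr' fun n => ?_
  have h5 : Nontrivial (W.H (pw X n)) := nontrivial_pw n
  exact (perfect_iff c (X := pw X n)).symm

end Pool.Agent.Y133.Chow
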