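import Pool.Agent.Y133.Chow.Op

/-!
# The trace forms on the operators on cohomology and Chow groups
-/

set_option linter.unusedSectionVars false

open CategoryTheory AlgebraicGeometry TensorProduct

universe u v w

namespace Pool.Agent.Y133.Chow

open Pool.Agent.H914 Pool.Agent.H914.VarClass Pool.Agent.H914.VarClass.Obj
  Pool.Agent.H914.WeilCohomology Pool.Agent.W492.BB Pool.Agent.Y129 Pool.Agent.TH133
  Pool.Agent.H281R3.HT
open Pool.Agent.W550.Corr (dg comp_eq_extR comp_dg dg_comp comp_assoc compL compL_apply HasIso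
  push_model act_dg)

variable {k : Type u} [Field k] {𝒱 : VarClass k} {ops : CycleOps 𝒱}
  {W : WeilCohomology.{u, v} ops} {C : TheoryData.{u, w, 0} 𝒱 ℚ} [hC : IsChowProj C]
  (c : ClassMap W C) {X Y Z : 𝒱.Obj}

section repr

variable {ι : Type*} (b : Module.Basis ι ℚ W.K)

lemma repr_aux (r : W.K) (Γ : C.A (X.prod Y)) :
    ∃ m : ι →₀ C.A (X.prod Y), r • op c Γ = m.sum fun i x => b i • op c x := by
  refine ⟨(b.repr r).mapRange (fun q => q • Γ) (zero_smul _ _), ?_⟩
  rw [Finsupp.sum_mapRange_index (fun i => by rw [op_zero, smul_zero])]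
  have h1 : ∀ i (q : ℚ), b i • op c (q • Γ) = (q • b i) • op c Γ := fun i q => by
    rw [op_smul, smul_smul, Rat.smul_def, mul_comm]
  simp only [h1]
  have h2 : ((b.repr r).sum fun i q => (q • b i) • op c Γ) =
      ((b.repr r).sum fun i q => q • b i) • op c Γ := by
    rw [Finsupp.sum, Finsupp.sum, Finset.sum_smul]
  rw [h2]
  congr 1
  exact (b.linearCombination_repr r).symm

lemma exists_repr {f : Ht c X →ₗ[W.K] Ht c Y}
    (hf : f ∈ Submodule.span W.K (Set.range fun Γ : C.A (X.prod Y) => op c Γ)) :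
    ∃ m : ι →₀ C.A (X.prod Y), f = m.sum fun i x => b i • op c x := by
  have hadd : ∀ m m' : ι →₀ C.A (X.prod Y), (m + m').sum (fun i x => b i • op c x) =
      m.sum (fun i x => b i • op c x) + m'.sum (fun i x => b i • op c x) := fun m m' =>
    Finsupp.sum_add_index' (fun i => by rw [op_zero, smul_zero])
      (fun i x y => by rw [op_add, smul_add])
  induction hf using Submodule.span_induction with
  | mem f hf =>
    obtain ⟨Γ, rfl⟩ := hf
    obtain ⟨m, hm⟩ := repr_aux c b 1 Γ
    rw [one_smul] at hm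
    exact ⟨m, hm⟩
  | zero => exact ⟨0, by rw [Finsupp.sum_zero_index]⟩
  | add f g _ _ hf hg =>
    obtain ⟨m, rfl⟩ := hf
    obtain ⟨m', rfl⟩ := hg
    exact ⟨m + m', (hadd m m').symm⟩
  | smul r f _ hf =>
    obtain ⟨m, rfl⟩ := hf
    rw [Finsupp.smul_sum]
    have h1 : ∀ i x, ∃ m : ι →₀ C.A (X.prod Y), r • b i • op c x =
        m.sum fun i x => b i • op c x := fun i x => by
      rw [smul_smul]
      exact repr_aux c b _ _
    rw [Finsupp.sum]
    refine Finset.sum_induction (s := m.support) (f := fun i => r • b i • op c (m i))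
      (p := fun f => ∃ m : ι →₀ C.A (X.prod Y), f = m.sum fun i x => b i • op c x) ?_ ?_ ?_
    · rintro f g ⟨m, rfl⟩ ⟨m', rfl⟩
      exact ⟨m + m', (hadd m m').symm⟩
    · exact ⟨0, by rw [Finsupp.sum_zero_index]⟩
    · intro i _
      exact h1 i (m i)

end repr

/-- Rationality of numerical triviality. -/
lemma mem_numSub_of_sum [Nontrivial (W.H X)] {ι : Type*} (b : Module.Basis ι ℚ W.K)
    {m : ι →₀ C.A X}
    (h : (m.sum fun i x => b i • c.cl X x) ∈ transcendental W X) (i : ι) : m i ∈ numSub c X := by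
  intro y
  rw [mem_transcendental] at h
  choose q hq using fun x : C.A X => c.exists_deg x
  have h1 := h _ (c.cl_mem_algSpan y)
  rw [Finsupp.sum, Finset.mul_sum, map_sum] at h1
  have h2 : ∑ j ∈ m.support, (q (m j * y)) • b j = 0 := by
    rw [← h1]
    apply Finset.sum_congr rfl
    intro j _
    rw [mul_smul_comm, map_smul, ← c.even, ← map_mul (c.cl X), (hq _).1, smul_eq_mul,
      Rat.smul_def, mul_comm]
  by_cases hi : i ∈ m.support
  · have h3 := linearIndependent_iff'.1 b.linearIndependent m.support (fun j => q (m j * y)) h2 i hi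
    rw [← map_mul (c.cl X), (hq _).1, h3, Rat.cast_zero]
  · rw [Finsupp.notMem_support_iff.1 hi, map_zero, zero_mul, map_zero]

lemma corr_swap (d : W.H (X.prod Y)) : opL W Y X (W.map (swap Y X) d) = W.corr d := by
  rw [opL_apply, Pool.Agent.Y129.swap_swap]

lemma good_corr (hg : Good W Y X) {d : W.H (X.prod Y)} (hd : d ∈ algSpan W (X.prod Y))
    (h : W.corr d ∈ perp (CC W) X Y) : d ∈ transcendental W (X.prod Y) := by
  have h1 := (hg _ (map_algSpan (swap Y X) hd)).2 (by rw [corr_swap]; exact h)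
  have h2 := map_transcendental (swap X Y) h1
  rwa [Pool.Agent.Y129.swap_swap] at h2

lemma corr_good (hg : Good W Y X) {d : W.H (X.prod Y)} (hd : d ∈ algSpan W (X.prod Y))
    (h : d ∈ transcendental W (X.prod Y)) : W.corr d ∈ perp (CC W) X Y := by
  have h1 := (hg _ (map_algSpan (swap Y X) hd)).1 (map_transcendental (swap Y X) h)
  rwa [corr_swap] at h1

lemma nontrivial_prod_pw [Nontrivial (W.H X)] (m n : ℕ) :
    Nontrivial (W.H ((pw X m).prod (pw X n))) := by
  have := nontrivial_pw (W := W) (X := X) (m + n + 1)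
  obtain ⟨i⟩ := pw_iso X m n (m + n + 1) rfl
  refine ⟨1, 0, fun h0 => ?_⟩
  have h1 := congrArg (W.map i.inv) h0
  rw [map_one, map_zero] at h1
  exact one_ne_zero h1

lemma isPowers_cat (W : WeilCohomology.{u, v} ops) (X : 𝒱.Obj) :
    IsCat (H := fun n => W.H (pw X n)) (CP W X) :=
  ⟨fun n => isCat_CC.id_mem (pw X n), fun hg hf => isCat_CC.comp_mem hg hf⟩

/-- All numerically trivial self-correspondences of the powers of `X` are nilpotent. -/
def Nil (c : ClassMap W C) (X : 𝒱.Obj) : Prop :=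
  ∀ n, ∀ f : Cor C (pw X n), (f : C.A ((pw X n).prod (pw X n))) ∈ numSub c _ → IsNilpotent f

variable {S : Set 𝒱.Obj} (hS : GoodSet W S) (hX : X ∈ S) [Nontrivial (W.H X)]

include hS hX

lemma mem_span_num {m n : ℕ} {f : Ht c (pw X m) →ₗ[W.K] Ht c (pw X n)} (hf : f ∈ Ct c X m n)
    (h : prH c _ _ f ∈ perp (H := fun n => W.H (pw X n)) (CP W X) m n) :
    f ∈ Submodule.span W.K ((fun Γ : C.A ((pw X m).prod (pw X n)) => op c Γ) ''
      (numSub c ((pw X m).prod (pw X n)))) := by
  let b := Module.Basis.ofVectorSpace ℚ W.K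
  obtain ⟨μ, rfl⟩ := exists_repr c b hf
  have hnt : Nontrivial (W.H ((pw X m).prod (pw X n))) := nontrivial_prod_pw m n
  have h1 : prH c _ _ (μ.sum fun i x => b i • op c x) =
      W.corr (μ.sum fun i x => b i • c.cl _ x) := by
    change prH c _ _ _ = corrL W _ _ _
    rw [Finsupp.sum, Finsupp.sum, map_sum, map_sum]
    apply Finset.sum_congr rfl
    intro i _
    rw [map_smul, map_smul, prH_op]
    rfl
  have h2 : (μ.sum fun i x => b i • c.cl _ x) ∈ algSpan W ((pw X m).prod (pw X n)) := by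
    rw [Finsupp.sum]
    exact Submodule.sum_mem _ fun i _ => Submodule.smul_mem _ _ (c.cl_mem_algSpan _)
  rw [h1] at h
  have h3 := good_corr (hS.good (hS.pw_mem hX n) (hS.pw_mem hX m)) h2 h
  have h4 := mem_numSub_of_sum c b h3
  rw [Finsupp.sum]
  exact Submodule.sum_mem _ fun i _ => Submodule.smul_mem _ _
    (Submodule.subset_span ⟨_, h4 i, rfl⟩)

variable [∀ n, Module.Finite ℚ (C.A (pw X n))]

omit hS hX in
lemma trace_span_num (hN : Nil c X) {n : ℕ} {f : Module.End W.K (Ht c (pw X n))}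
    (h : f ∈ Submodule.span W.K ((fun Γ : C.A ((pw X n).prod (pw X n)) => op c Γ) ''
      (numSub c ((pw X n).prod (pw X n))))) :
    LinearMap.trace W.K (Ht c (pw X n)) f = 0 := by
  induction h using Submodule.span_induction with
  | mem f hf =>
    obtain ⟨Γ, hΓ, rfl⟩ := hf
    exact trace_op_nil c Γ (hN n Γ hΓ)
  | zero => exact map_zero (LinearMap.trace W.K (Ht c (pw X n)))
  | add a b _ _ ha hb =>
    exact (map_add (LinearMap.trace W.K (Ht c (pw X n))) a b).trans (by rw [ha, hb, add_zero])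
  | smul r a _ ha =>
    exact (map_smul (LinearMap.trace W.K (Ht c (pw X n))) r a).trans (by rw [ha, smul_zero])

/-- The radicals of the two trace forms. -/
lemma perp_iff (hN : Nil c X) {m n : ℕ} {f : Ht c (pw X m) →ₗ[W.K] Ht c (pw X n)}
    (hf : f ∈ Ct c X m n) : f ∈ perp (H := fun n => Ht c (pw X n)) (Ct c X) m n ↔
      prH c _ _ f ∈ perp (H := fun n => W.H (pw X n)) (CP W X) m n := by
  have hCat := isCat_Ct c (X := X)
  constructor
  · intro h g hg
    rw [← map_prH c] at hg
    obtain ⟨g, hg, rfl⟩ := hg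
    rw [← prH_comp c hg]
    set y : Module.End W.K (Ht c (pw X m)) := g ∘ₗ f with hy
    have hyC : y ∈ Ct c X m m := hCat.comp_mem hg hf
    have hpow : ∀ r : ℕ, (y ^ r : Module.End W.K (Ht c (pw X m))) ∈ Ct c X m m := by
      intro r
      induction r with
      | zero => exact hCat.id_mem m
      | succ r ih => rw [pow_succ]; exact hCat.comp_mem ih hyC
    have h1 : IsNilpotent y := by
      apply isNilpotent_of_trace_pow
      intro r
      rw [pow_succ]
      exact h ((y ^ r : Module.End W.K (Ht c (pw X m))) ∘ₗ g) (hCat.comp_mem (hpow r) hg)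
    obtain ⟨r, hr⟩ := h1
    apply Y129.trace_nil
    refine ⟨r, ?_⟩
    rw [← prH_pow c hyC, hr]
    rfl
  · intro h g hg
    apply trace_span_num c hN
    apply mem_span_num c hS hX (hCat.comp_mem hg hf)
    rw [prH_comp c hg]
    have h1 : prH c _ _ g ∈ CP W X n m := by
      rw [← map_prH c]
      exact ⟨g, hg, rfl⟩
    exact Pool.Agent.Y129.perp_comp (isPowers_cat W X) h h1

/-- The comparison of the dimensions modulo the trace forms. -/
lemma nd_eq (hN : Nil c X) {m n : ℕ} {e : Module.End W.K (Ht c (pw X m))} (he : e ∈ Ct c X m m)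
    {f : Module.End W.K (Ht c (pw X n))} (hf : f ∈ Ct c X n n) :
    nd (H := fun n => Ht c (pw X n)) (Ct c X) m n (sand (Ct c X) m n f e) =
      nd (H := fun n => W.H (pw X n)) (CP W X) m n
        (sand (CP W X) m n (prH c _ _ f) (prH c _ _ e)) := by
  have hCat := isCat_Ct c (X := X)
  have h1 : sand (H := fun n => W.H (pw X n)) (CP W X) m n (prH c _ _ f) (prH c _ _ e) =
      (sand (H := fun n => Ht c (pw X n)) (Ct c X) m n f e).map (prH c _ _) := by
    ext a
    rw [mem_sand]
    constructor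
    · rintro ⟨d, hd, rfl⟩
      rw [← map_prH c] at hd
      obtain ⟨d, hd, rfl⟩ := hd
      refine ⟨f ∘ₗ d ∘ₗ e, ⟨d, hd, rfl⟩, ?_⟩
      rw [prH_comp c hf, prH_comp c hd]
    · rintro ⟨_, ⟨d, hd, rfl⟩, rfl⟩
      refine ⟨prH c _ _ d, ?_, ?_⟩
      · rw [← map_prH c]
        exact ⟨d, hd, rfl⟩
      · change _ = prH c _ _ (f ∘ₗ d ∘ₗ e)
        rw [prH_comp c hf, prH_comp c hd]
  rw [nd, nd, h1, ← Submodule.map_comp]
  apply finrank_map_eq
  rintro _ ⟨d, hd, rfl⟩
  have h2 := perp_iff c hS hX hN (hCat.comp_mem hf (hCat.comp_mem hd he))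
  rw [← Submodule.Quotient.mk_eq_zero, ← Submodule.Quotient.mk_eq_zero (perp (CP W X) m n)] at h2
  exact h2

end Pool.Agent.Y133.Chow
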