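import Pool.Agent.Y133.Chow.FDefs

/-!
# Quasi-inverses of correspondences: definitions
-/

open CategoryTheory AlgebraicGeometry Filter Topology

universe u v w

namespace Pool.Agent.Y133.Chow

open Pool.Agent.H914 Pool.Agent.H914.VarClass Pool.Agent.H914.VarClass.Obj
  Pool.Agent.H914.WeilCohomology Pool.Agent.W492.BB
open Pool.Agent.Y129 (pw)

variable {k : Type u} [Field k] {𝒱 : VarClass k} {ops : CycleOps 𝒱}

/-- Every self-correspondence `f` of `Y` has a quasi-inverse: a self-correspondence `g` with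
`f ∘ g ∘ f = f`. -/
def QuasiInverses (C : TheoryData.{u, w, 0} 𝒱 ℚ) (Y : 𝒱.Obj) : Prop :=
  ∀ f : C.A (Y.prod Y), ∃ g : C.A (Y.prod Y), C.comp (C.comp f g) f = f

/-- The external products of nonzero elements are not zero. -/
def ExtNonzero (C : TheoryData.{u, w, 0} 𝒱 ℚ) : Prop :=
  ∀ (Y Z : 𝒱.Obj) (y : C.A Y) (z : C.A Z), y ≠ 0 → z ≠ 0 → C.ext y z ≠ 0

/-- The composition of `n + 1` copies of the self-correspondence `f`. -/
noncomputable def compPow (C : TheoryData.{u, w, 0} 𝒱 ℚ) {Y : 𝒱.Obj} (f : C.A (Y.prod Y)) :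
    ℕ → C.A (Y.prod Y)
  | 0 => f
  | n + 1 => C.comp f (compPow C f n)

variable {W : WeilCohomology.{u, v} ops} {C : TheoryData.{u, w, 0} 𝒱 ℚ}

/-- The numerically trivial self-correspondences of `Y` are nilpotent. -/
def NilpotentOn (c : ClassMap W C) (Y : 𝒱.Obj) : Prop :=
  ∀ f : C.A (Y.prod Y), NumTrivial c (Y.prod Y) f → ∃ n, compPow C f n = 0

end Pool.Agent.Y133.Chow
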