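import Pool.Agent.Y133.Chow.Frob5
import Pool.Agent.Y133.Chow.SDefs

/-!
# Semisimple rings of correspondences
-/

set_option linter.unusedSectionVars false

open CategoryTheory AlgebraicGeometry TensorProduct Filter Topology

open scoped ENNReal

universe u v w

namespace Pool.Agent.Y133.Chow

open Pool.Agent.H914 Pool.Agent.H914.VarClass Pool.Agent.H914.VarClass.Obj
  Pool.Agent.H914.WeilCohomology Pool.Agent.W492.BB Pool.Agent.Y129 Pool.Agent.TH133
  Pool.Agent.H281R3.HT Pool.Agent.W536.RR
open Pool.Agent.W550.Corr (dg comp_dg dg_comp act_dg)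

/-- Elements of semisimple rings have quasi-inverses. -/
lemma exists_quasi {R : Type*} [Ring R] [IsSemisimpleRing R] (f : R) : ∃ g, f * g * f = f := by
  obtain ⟨J, hJ⟩ := exists_isCompl (Submodule.span R {f})
  have h1 : (1 : R) ∈ Submodule.span R {f} ⊔ J := by rw [hJ.sup_eq_top]; trivial
  obtain ⟨a, ha, b, hb, hab⟩ := Submodule.mem_sup.1 h1
  obtain ⟨g, rfl⟩ := Submodule.mem_span_singleton.1 ha
  refine ⟨g, ?_⟩
  have h2 : f - f * g * f = f * b := by
    have h3 : f * (g • f + b) = f := by rw [hab, mul_one]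
    rw [smul_eq_mul, mul_add] at h3
    rw [mul_assoc]
    exact sub_eq_of_eq_add' h3.symm
  have h4 : f - f * g * f ∈ Submodule.span R {f} := by
    apply Submodule.sub_mem _ (Submodule.mem_span_singleton_self f)
    exact Submodule.mem_span_singleton.2 ⟨f * g, rfl⟩
  have h5 : f - f * g * f ∈ J := by
    rw [h2]
    exact J.smul_mem f hb
  have h6 := (Submodule.disjoint_def.1 hJ.disjoint) _ h4 h5
  exact (sub_eq_zero.1 h6).symm

variable {k : Type u} [Field k] {𝒱 : VarClass k} {ops : CycleOps 𝒱}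
  {W : WeilCohomology.{u, v} ops} {C : TheoryData.{u, w, 0} 𝒱 ℚ} [hC : IsChowProj C]
  (c : ClassMap W C) {X Y Z : 𝒱.Obj}

lemma cl_even (x : C.A X) : c.cl X x ∈ Half.PH W X 0 := (Half.algSys W).even (c.cl_mem_algSpan x)

/-- Nilpotent correspondences are orthogonal to the identity. -/
lemma tr_of_nilpotent (f g : Cor C Y) (h : IsNilpotent (f * g)) :
    W.tr (Y.prod Y) (c.cl (Y.prod Y) f * W.map (swap Y Y) (c.cl (Y.prod Y) g)) = 0 := by
  rw [← Half.trace_corr_corr]
  have h1 : IsNilpotent (corrR c Y (f * g)) := h.map (corrR c Y)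
  have h2 : Commute (par (W.isInternal Y)) (corrR c Y (f * g)) :=
    (Half.Ev.corr (cl_even c _)).par_comm
  have h3 := h2.isNilpotent_mul_left h1
  have h4 : par (W.isInternal Y) ∘ₗ W.corr (c.cl (Y.prod Y) f) ∘ₗ W.corr (c.cl (Y.prod Y) g) =
      par (W.isInternal Y) * corrR c Y (f * g) := by
    rw [map_mul]
    rfl
  have h5 := Y129.trace_nil h3
  rw [← h4] at h5
  exact h5

/-- If the numerically trivial correspondences vanish then the ring of correspondences is
semisimple. -/
theorem semisimple_of_zero [Nontrivial (W.H (Y.prod Y))]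
    (h : ∀ x, NumTrivial c (Y.prod Y) x → x = 0) : IsSemisimpleRing (Cor C Y) := by
  have h1 : numSub c (Y.prod Y) = ⊥ := by
    rw [eq_bot_iff]
    intro x hx
    exact (Submodule.mem_bot ℚ).2 (h x hx)
  have h2 := finite_quot c (X := Y.prod Y)
  have h3 : Module.Finite ℚ (Cor C Y) :=
    (Module.Finite.equiv (Submodule.quotEquivOfEqBot _ h1) : Module.Finite ℚ (C.A (Y.prod Y)))
  have hart : IsArtinianRing (Cor C Y) := IsArtinianRing.of_finite ℚ (Cor C Y)
  rw [IsArtinianRing.isSemisimpleRing_iff_jacobson, eq_bot_iff]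
  intro f hf
  rw [Submodule.mem_bot]
  obtain ⟨n, hn⟩ := (IsSemiprimaryRing.isNilpotent : IsNilpotent (Ring.jacobson (Cor C Y)))
  have hnil : ∀ g ∈ Ring.jacobson (Cor C Y), IsNilpotent g := by
    intro g hg
    refine ⟨n, ?_⟩
    have h4 := Ideal.pow_mem_pow hg n
    rw [hn] at h4
    exact (Submodule.mem_bot _).1 h4
  apply h f
  intro y
  set g : Cor C Y := C.pull (swap Y Y) y with hg
  have h5 : f * g ∈ Ring.jacobson (Cor C Y) := (Ring.jacobson (Cor C Y)).mul_mem_right g hf
  have h6 := tr_of_nilpotent c f g (hnil _ h5)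
  have h7 : W.map (swap Y Y) (c.cl (Y.prod Y) g) = c.cl (Y.prod Y) y := by
    rw [hg, c.cl_pull, Pool.Agent.Y129.swap_swap]
  rw [h7] at h6
  exact h6

/-- If the correspondences have quasi-inverses then numerically trivial elements vanish. -/
theorem zero_of_quasi [Nontrivial (W.H Y)] (h : QuasiInverses C Y) {z : C.A Y}
    (hz : NumTrivial c Y z) : z = 0 := by
  obtain ⟨a, -, -, ha⟩ := exists_deg_one C Y
  have h1 : ∀ x : C.A Y, C.act (C.pull (fst Y Y) a * C.pull (snd Y Y) z) x =
      C.push (snd Y Y) (C.pull (fst Y Y) (a * x)) * z := by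
    intro x
    rw [TheoryData.act_apply, ← C.proj_right, map_mul (C.pull (fst Y Y))]
    congr 1
    rw [mul_assoc, chow_mul_comm (C.pull (snd Y Y) z), mul_assoc]
  set f : C.A (Y.prod Y) := C.pull (fst Y Y) a * C.pull (snd Y Y) z with hf
  obtain ⟨g, hg⟩ := h f
  have h2 : ∀ x : C.A Y, C.act f (C.act g (C.act f x)) = C.act f x := by
    intro x
    rw [← C.act_comp, ← C.act_comp, ← Pool.Agent.W550.Corr.comp_assoc, hg]
  have h3 : ∀ x : C.A Y, NumTrivial c Y x → C.act f x = 0 := by
    intro x hx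
    rw [h1]
    have h4 : NumTrivial c Y (a * x) := numSub_mul' (c := c) hx a
    obtain ⟨q, hq, -⟩ := c.exists_deg (a * x)
    have h5 := h4 1
    rw [map_one, mul_one, hq] at h5
    have h6 : q = 0 := by exact_mod_cast h5
    have h7 : ∀ x : C.A Y, ∃ r : ℚ, W.tr Y (c.cl Y x) = (r : W.K) ∧
        C.push (snd Y Y) (C.pull (fst Y Y) x) = r • (1 : C.A Y) := by
      intro x
      refine gr_ind C (P := fun x => ∃ r : ℚ, W.tr Y (c.cl Y x) = (r : W.K) ∧
        C.push (snd Y Y) (C.pull (fst Y Y) x) = r • (1 : C.A Y)) ?_ ?_ x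
      · intro p x hx
        rcases lt_trichotomy p Y.dim with hp | hp | hp
        · refine ⟨0, ?_, ?_⟩
          · rw [W.tr_eq_zero (c.cl_mem hx) (by omega)]
            simp
          · have h2 := C.push_mem (snd Y Y) (C.pull_mem (fst Y Y) hx)
            rw [C.gr_neg Y _ (by rw [dim_prod]; push_cast; omega)] at h2
            rw [(Submodule.mem_bot _).1 h2, zero_smul]
        · subst hp
          obtain ⟨q, hq⟩ := hC.degree Y x hx
          refine ⟨q, ?_, (hq Y).1⟩
          have h1 : C.push (snd Y Y) (C.pull (fst Y Y) x) = q • (1 : C.A Y) := (hq Y).1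
          have h2 := congrArg (c.cl Y) h1
          rw [c.cl_push, c.cl_pull, W.push_snd', c.cl_smul, map_one] at h2
          have h3 : (W.tr Y (c.cl Y x) - (q : W.K)) • (1 : W.H Y) = 0 := by
            rw [sub_smul, h2, sub_self]
          rcases smul_eq_zero.1 h3 with h4 | h4
          · exact sub_eq_zero.1 h4
          · exact absurd h4 one_ne_zero
        · have h2 : x = 0 := hC.gr_top Y p x hx (by exact_mod_cast hp)
          subst h2
          exact ⟨0, by simp, by rw [map_zero, map_zero, zero_smul]⟩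
      · rintro x y ⟨q, hq, hq'⟩ ⟨r, hr, hr'⟩
        refine ⟨q + r, ?_, ?_⟩
        · rw [map_add, map_add, hq, hr]; push_cast; rfl
        · rw [map_add, map_add, hq', hr', add_smul]
    obtain ⟨r, hr, hr'⟩ := h7 (a * x)
    have h8 : r = 0 := by
      rw [hq, h6] at hr
      exact_mod_cast hr.symm
    rw [hr', h8, zero_smul, zero_mul]
  have h4 : C.act f 1 = z := by
    rw [h1, mul_one]
    have h5 : C.push (snd Y Y) (C.pull (fst Y Y) a) = 1 := ?_
    · rw [h5, one_mul]
    · exact ha Y
  have h5 := h2 1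
  rw [h4, h3 _ (numSub_act (c := c) g hz)] at h5
  exact h5.symm

end Pool.Agent.Y133.Chow
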