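import Pool.Agent.Y133.Chow.Semi

/-!
# The index and the rings of correspondences
-/

set_option linter.unusedSectionVars false

open CategoryTheory AlgebraicGeometry TensorProduct Filter Topology

open scoped ENNReal

universe u v w

namespace Pool.Agent.Y133.Chow

open Pool.Agent.H914 Pool.Agent.H914.VarClass Pool.Agent.H914.VarClass.Obj
  Pool.Agent.H914.WeilCohomology Pool.Agent.W492.BB Pool.Agent.Y129 Pool.Agent.TH133
  Pool.Agent.H281R3.HT Pool.Agent.W536.RR

variable {k : Type u} [Field k] {𝒱 : VarClass k} {ops : CycleOps 𝒱}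
  {W : WeilCohomology.{u, v} ops} {C : TheoryData.{u, w, 0} 𝒱 ℚ} [hC : IsChowProj C]
  (c : ClassMap W C) {X Y Z : 𝒱.Obj}

lemma quasi_of_semisimple (h : IsSemisimpleRing (Cor C Y)) : QuasiInverses C Y := by
  intro f
  obtain ⟨g, hg⟩ := exists_quasi (R := Cor C Y) f
  refine ⟨(g : C.A (Y.prod Y)), ?_⟩
  have h1 := Pool.Agent.W550.Corr.comp_assoc C f (show C.A (Y.prod Y) from g) f
  exact h1.trans hg

/-- Numerically trivial elements on varieties isomorphic to powers. -/
lemma zero_iso (h : NumTrivialZero c X) {n : ℕ} (i : Y ≅ pw X n) {x : C.A Y}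
    (hx : NumTrivial c Y x) : x = 0 := by
  have h1 : C.pull i.inv x ∈ numSub c (pw X n) := numSub_pull i.inv hx
  have h2 := h n _ h1
  have h3 : C.pull i.hom (C.pull i.inv x) = x := by
    rw [← C.pull_comp, i.hom_inv_id, C.pull_id]
  rw [← h3, h2, map_zero]

lemma compPow_eq (f : Cor C Y) (n : ℕ) : compPow C (Y := Y) f n = (f ^ (n + 1) : Cor C Y) := by
  induction n with
  | zero =>
    rw [zero_add, pow_one]
    rfl
  | succ n ih =>
    rw [pow_succ, cor_mul, ← ih]
    rfl

lemma extPow_ne (h : ExtNonzero C) {x : C.A Y} (hx : x ≠ 0) (n : ℕ) : extPow C x n ≠ 0 := by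
  induction n with
  | zero => exact hx
  | succ n ih => exact h _ _ _ _ hx ih

/-- **The index of the Chow groups and the rings of correspondences.** -/
theorem semi_index (X : 𝒱.Obj) [Nontrivial (W.H X)] : ∃ N : ℕ∞, 1 ≤ N ∧
    RatioTendsTo (fun n => chowDim C (pw X n)) (fun n => numDim c (pw X n)) N ∧
    (N = 1 ↔ ∀ n, QuasiInverses C (pw X n)) ∧
    (ExtNonzero C → N = 1 ∨ N = ⊤) ∧
    (N ≠ ⊤ → ∀ n, NilpotentOn c (pw X n)) := by
  obtain ⟨N, h1, h2, h3, h4⟩ := index_law c (X := X)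
  refine ⟨N, h1, (ratio_iff c).2 h2, ⟨fun hN n => ?_, fun hq => h3.2 fun n => ?_⟩, fun hE => ?_,
    fun hN n f hf => ?_⟩
  · have h5 : Nontrivial (W.H ((pw X n).prod (pw X n))) := nontrivial_prod_pw n n
    apply quasi_of_semisimple
    apply semisimple_of_zero c
    intro x hx
    obtain ⟨i⟩ := pw_iso X n n (n + n + 1) rfl
    exact zero_iso c (h3.1 hN) i hx
  · have h5 : Nontrivial (W.H (pw X n)) := nontrivial_pw n
    intro x hx
    exact zero_of_quasi c (hq n) hx
  · by_cases hN : N = ⊤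
    · exact Or.inr hN
    left
    obtain ⟨M, rfl⟩ := ENat.ne_top_iff_exists.1 hN
    apply h3.2
    intro n x hx
    by_contra hx0
    exact extPow_ne hE hx0 M (h4 M (by exact_mod_cast Nat.le_succ M) n x hx)
  · obtain ⟨-, hnil⟩ := finite_of_index c h2 hN
    obtain ⟨m, hm⟩ := hnil n f hf
    refine ⟨m, ?_⟩
    have h5 := compPow_eq (C := C) (Y := pw X n) (show Cor C (pw X n) from f) m
    refine h5.trans ?_
    rw [pow_succ, hm, zero_mul]
    rfl

end Pool.Agent.Y133.Chow
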